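import Pool.Agent.H34.ST.Basic

/-!
# [H34 ST SWAP] exchange of the players; transfer along a bijection

Both by induction on `k`.  `W_swap`: `sw (sw s) = s`, `Function.update` commutes with `sw`.
`W_transfer`: an element `e'` of `E'` corresponds to `σ.symm e'`;
`(fun e => Function.update p e' s (σ e)) = Function.update (fun e => p (σ e)) (σ.symm e') s`.
-/

namespace Pool.Agent.H34.ST

section
variable {E : Type*} [DecidableEq E]

theorem swap_sw_sw (s : St) : sw (sw s) = s := by
  cases s <;> rfl

theorem swap_sw_free {s : St} : sw s = St.free ↔ s = St.free := by
  cases s <;> simp [sw]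

theorem swap_sw_update (p : E → St) (e : E) (s : St) :
    (fun x => sw (Function.update p e s x)) = Function.update (fun x => sw (p x)) e (sw s) := by
  funext x
  by_cases hx : x = e
  · subst hx; simp
  · simp [Function.update_of_ne hx]

theorem swap_tr_update {E' : Type*} [DecidableEq E'] (σ : E ≃ E') (p : E' → St) (e : E) (s : St) :
    (fun x => Function.update p (σ e) s (σ x)) = Function.update (fun x => p (σ x)) e s := by
  funext x
  by_cases hx : x = e
  · subst hx; simp
  · have h : σ x ≠ σ e := fun h => hx (σ.injective h)
    simp [Function.update_of_ne hx, Function.update_of_ne h]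

/-- determinacy, with the roles exchanged -/
theorem W_swap {T : (E → St) → Prop} :
    ∀ (k : ℕ) (b : Bool) (p : E → St), ¬ W T k b p →
      W (fun q => ¬ T (fun e => sw (q e))) k (!b) (fun e => sw (p e)) := by
  intro k
  induction k with
  | zero =>
    intro b p hp
    have h : (fun e => sw ((fun e => sw (p e)) e)) = p := by
      funext e
      exact swap_sw_sw _
    show ¬ T (fun e => sw ((fun e => sw (p e)) e))
    rw [h]
    exact hp
  | succ k ih =>
    intro b p hp
    cases b with
    | true =>
      have h : ∃ e, p e = St.free ∧ ¬ W T k false (Function.update p e St.one) := by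
        by_contra hcon
        apply hp
        intro e he
        by_contra h2
        exact hcon ⟨e, he, h2⟩
      obtain ⟨e, he, h2⟩ := h
      refine ⟨e, swap_sw_free.2 he, ?_⟩
      have h3 := ih _ _ h2
      rw [swap_sw_update] at h3
      exact h3
    | false =>
      intro e he
      have he' := swap_sw_free.1 he
      have h2 : ¬ W T k true (Function.update p e St.two) := fun h2 => hp ⟨e, he', h2⟩
      have h3 := ih _ _ h2
      rw [swap_sw_update] at h3
      exact h3

/-- transfer of a game along a bijection of the boards -/
theorem W_transfer {E' : Type*} [DecidableEq E'] (σ : E ≃ E') {T : (E → St) → Prop}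
    {T' : (E' → St) → Prop} (h : ∀ q, T' q → T (fun e => q (σ e))) :
    ∀ (k : ℕ) (b : Bool) (p : E' → St), W T' k b p → W T k b (fun e => p (σ e)) := by
  intro k
  induction k with
  | zero =>
    intro b p hp
    exact h p hp
  | succ k ih =>
    intro b p hp
    cases b with
    | true =>
      intro e he
      have h2 := ih _ _ (hp (σ e) he)
      rw [swap_tr_update] at h2
      exact h2
    | false =>
      obtain ⟨e', he', h2⟩ := hp
      refine ⟨σ.symm e', ?_, ?_⟩
      · show p (σ (σ.symm e')) = St.free
        rw [σ.apply_symm_apply]
        exact he'
      · have h3 := ih _ _ h2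
        have h4 := swap_tr_update σ p (σ.symm e') St.two
        rw [σ.apply_symm_apply] at h4
        rw [h4] at h3
        exact h3

end

end Pool.Agent.H34.ST
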