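import Pool.Agent.H34.ST.Board

/-!
# [H34 ST FINA] maximum degrees

`dg q s v` is the degree of `v` in the simple graph `gr q s` (the edges of status `s`), so
`TS q` says that the maximum degree for `one` is at most the maximum degree for `two`
(`SimpleGraph.exists_maximal_degree_vertex`, `SimpleGraph.degree_le_maxDegree`; for `n = 0` both
sides hold).
-/

namespace Pool.Agent.H34.ST

/-- the graph of the edges of status `s` -/
def gr {n : ℕ} (q : Ed (Fin n) → St) (s : St) : SimpleGraph (Fin n) :=
  SimpleGraph.fromEdgeSet {e | ∃ h : ¬ e.IsDiag, q ⟨e, h⟩ = s}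

open Classical in
/-- the maximum degree, that is the size of the largest star -/
noncomputable def starSize {n : ℕ} (G : SimpleGraph (Fin n)) : ℕ := G.maxDegree

open Classical in
theorem gr_degree {n : ℕ} (q : Ed (Fin n) → St) (s : St) (v : Fin n) :
    (gr q s).degree v = dg q s v := by
  have key : ∀ w, (gr q s).Adj v w ↔ ∃ h : ¬ (s(v, w)).IsDiag, q ⟨s(v, w), h⟩ = s := by
    intro w
    unfold gr
    rw [SimpleGraph.fromEdgeSet_adj]
    constructor
    · rintro ⟨h, _⟩
      exact h
    · rintro ⟨h, hq⟩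
      exact ⟨⟨h, hq⟩, fun hvw => h (by rw [Sym2.mk_isDiag_iff]; exact hvw)⟩
  unfold dg SimpleGraph.degree
  refine Finset.card_bij
    (fun w hw => ⟨s(v, w), ((key w).1 ((SimpleGraph.mem_neighborFinset _ _ _).1 hw)).choose⟩)
    ?_ ?_ ?_
  · intro w hw
    have h := (key w).1 ((SimpleGraph.mem_neighborFinset _ _ _).1 hw)
    simp only [Finset.mem_filter, Finset.mem_univ, true_and]
    exact ⟨Sym2.mem_mk_left v w, h.choose_spec⟩
  · intro w₁ h₁ w₂ h₂ heq
    have := congrArg Subtype.val heq
    simp only at this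
    exact Sym2.congr_right.1 this
  · rintro ⟨e, he⟩ hmem
    simp only [Finset.mem_filter, Finset.mem_univ, true_and] at hmem
    obtain ⟨hv, hq⟩ := hmem
    obtain ⟨w, rfl⟩ := Sym2.mem_iff_exists.1 hv
    exact ⟨w, (SimpleGraph.mem_neighborFinset _ _ _).2 ((key w).2 ⟨he, hq⟩), rfl⟩

theorem TS_iff {n : ℕ} (q : Ed (Fin n) → St) :
    TS q ↔ starSize (gr q St.one) ≤ starSize (gr q St.two) := by
  classical
  have e1 : starSize (gr q St.one) = (gr q St.one).maxDegree := by
    unfold starSize; congr
  have e2 : starSize (gr q St.two) = (gr q St.two).maxDegree := by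
    unfold starSize; congr
  rw [e1, e2]
  have d : ∀ s v, (gr q s).degree v = dg q s v := by
    intro s v
    rw [← gr_degree]
  constructor
  · intro h
    apply SimpleGraph.maxDegree_le_of_forall_degree_le
    intro v
    obtain ⟨u, hu⟩ := h v
    rw [← d, ← d] at hu
    exact hu.trans (SimpleGraph.degree_le_maxDegree _ _)
  · intro h v
    have : Nonempty (Fin n) := ⟨v⟩
    obtain ⟨u, hu⟩ := SimpleGraph.exists_maximal_degree_vertex (gr q St.two)
    refine ⟨u, ?_⟩
    rw [← d, ← d, ← hu]
    exact (SimpleGraph.degree_le_maxDegree _ _).trans h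

end Pool.Agent.H34.ST
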