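import Pool.Agent.H34.ST.Board

/-!
# [H34 ST BDEG] degrees: complementary degrees and the handshake lemma

`dg_add`: the edges at `v` are the pairs `s(v, w)`, `w ≠ v`; each has status one or two.
`dg_sum`: double counting of the pairs (vertex, edge); each non-diagonal unordered pair has exactly
two elements.
-/

namespace Pool.Agent.H34.ST

section
variable {V : Type*} [Fintype V] [DecidableEq V]

private theorem card_at (v : V) :
    (Finset.univ.filter (fun e : Ed V => v ∈ e.1)).card + 1 = Fintype.card V := by
  have h : (Finset.univ.filter (fun e : Ed V => v ∈ e.1)).card =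
      (Finset.univ.filter (fun w : V => w ≠ v)).card := by
    symm
    refine Finset.card_bij (fun w hw => (⟨s(v, w), by
      simp only [Finset.mem_filter, Finset.mem_univ, true_and] at hw
      simpa [Sym2.mk_isDiag_iff] using fun h => hw h.symm⟩ : Ed V)) ?_ ?_ ?_
    · intro w hw
      simp
    · intro w1 _ w2 _ h
      have h' := congrArg Subtype.val h
      simp only [Sym2.eq_iff] at h'
      rcases h' with h' | h'
      · exact h'.2
      · rw [h'.2, ← h'.1]
    · intro e he
      obtain ⟨e, hd⟩ := e
      simp only [Finset.mem_filter, Finset.mem_univ, true_and] at he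
      obtain ⟨w, hw⟩ := Sym2.mem_iff_exists.mp he
      subst hw
      refine ⟨w, ?_, rfl⟩
      simp only [Finset.mem_filter, Finset.mem_univ, true_and]
      rintro rfl
      exact hd (by simp)
  rw [h, Finset.filter_ne', Finset.card_erase_of_mem (Finset.mem_univ v), Finset.card_univ]
  have : 0 < Fintype.card V := Fintype.card_pos_iff.mpr ⟨v⟩
  omega

/-- in a complete position the two degrees add up to `|V| - 1` -/
theorem dg_add {q : Ed V → St} (hq : ∀ e, q e ≠ St.free) (v : V) :
    dg q St.one v + dg q St.two v + 1 = Fintype.card V := by
  rw [← card_at v]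
  congr 1
  unfold dg
  rw [← Finset.card_union_of_disjoint]
  · congr 1
    ext e
    simp only [Finset.mem_union, Finset.mem_filter, Finset.mem_univ, true_and]
    constructor
    · rintro (h | h)
      · exact h.1
      · exact h.1
    · intro h
      have := hq e
      cases hqe : q e with
      | free => exact absurd hqe this
      | one => exact Or.inl ⟨h, rfl⟩
      | two => exact Or.inr ⟨h, rfl⟩
  · rw [Finset.disjoint_left]
    intro e h1 h2
    simp only [Finset.mem_filter, Finset.mem_univ, true_and] at h1 h2
    have := h1.2.symm.trans h2.2
    exact St.noConfusion this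

private theorem card_ends (e : Ed V) :
    (Finset.univ.filter (fun v : V => v ∈ e.1)).card = 2 := by
  obtain ⟨e, hd⟩ := e
  induction e using Sym2.ind with
  | _ x y =>
    have hxy : x ≠ y := by
      intro h
      exact hd (by simp [h])
    have : (Finset.univ.filter (fun v : V => v ∈ s(x, y))) = {x, y} := by
      ext v
      simp
    simp only
    rw [this, Finset.card_pair hxy]

/-- handshake -/
theorem dg_sum (q : Ed V → St) (s : St) :
    ∑ v, dg q s v = 2 * (Finset.univ.filter (fun e : Ed V => q e = s)).card := by
  have h1 : ∀ v, dg q s v = ∑ e ∈ Finset.univ.filter (fun e : Ed V => q e = s),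
      (if v ∈ e.1 then 1 else 0) := by
    intro v
    unfold dg
    rw [Finset.sum_ite, Finset.sum_const_zero, add_zero, Finset.sum_const, smul_eq_mul, mul_one,
      Finset.filter_filter]
    congr 1
    ext e
    simp only [Finset.mem_filter, Finset.mem_univ, true_and]
    tauto
  rw [Finset.sum_congr rfl (fun v _ => h1 v), Finset.sum_comm]
  have h2 : ∀ e : Ed V, (∑ v : V, (if v ∈ e.1 then 1 else 0)) = 2 := by
    intro e
    rw [← Finset.card_filter, card_ends e]
  rw [Finset.sum_congr rfl (fun e _ => h2 e), Finset.sum_const, smul_eq_mul, mul_comm]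

end

end Pool.Agent.H34.ST
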