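import Pool.Agent.H34.ST.Basic

/-!
# [H34 ST EXT] what the final position looks like

Both by induction on `k` as `W_mono` (file Basic), with `fc_update` for the number of free
elements.  `W_extends`: at `k = 0` no element is free.  `W_card`: if Player 2 takes a free element,
`tc` grows by one (prove a lemma like `fc_update`), if Player 1 does, `tc` does not change.
-/

namespace Pool.Agent.H34.ST

section
variable {E : Type*} [DecidableEq E]

/-- the final position extends the present one and has no free element -/
theorem W_extends [Fintype E] {T : (E → St) → Prop} :
    ∀ (k : ℕ) (b : Bool) (p : E → St), fc p = k → W T k b p →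
      W (fun q => T q ∧ (∀ e, p e ≠ St.free → q e = p e) ∧ ∀ e, q e ≠ St.free) k b p := by
  intro k
  induction k with
  | zero =>
    intro b p hk hp
    have h0 : ∀ e, p e ≠ St.free := by
      intro e he
      have h1 : 0 < fc p := Finset.card_pos.mpr ⟨e, by simp [he]⟩
      omega
    exact ⟨hp, fun _ _ => rfl, h0⟩
  | succ k ih =>
    have hup : ∀ (p : E → St) (e : E) (s : St), p e = St.free → ∀ q : E → St,
        (∀ x, Function.update p e s x ≠ St.free → q x = Function.update p e s x) →
        ∀ x, p x ≠ St.free → q x = p x := by
      intro p e s he q hq x hx
      have hxe : x ≠ e := by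
        rintro rfl
        exact hx he
      have h1 := hq x
      rw [Function.update_of_ne hxe] at h1
      exact h1 hx
    intro b p hk hp
    cases b with
    | true =>
      intro e he
      have hf : fc (Function.update p e St.one) = k := by
        have := fc_update he (s := St.one) (by decide)
        omega
      exact W_mono (fun q hq => ⟨hq.1, hup p e St.one he q hq.2.1, hq.2.2⟩) _ _ _
        (ih _ _ hf (hp e he))
    | false =>
      obtain ⟨e, he, hp⟩ := hp
      have hf : fc (Function.update p e St.two) = k := by
        have := fc_update he (s := St.two) (by decide)
        omega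
      exact ⟨e, he, W_mono (fun q hq => ⟨hq.1, hup p e St.two he q hq.2.1, hq.2.2⟩) _ _ _
        (ih _ _ hf hp)⟩

private theorem ext_tc_one [Fintype E] {p : E → St} {e : E} (he : p e = St.free) :
    tc (Function.update p e St.one) = tc p := by
  unfold tc
  congr 1
  ext x
  simp only [Finset.mem_filter, Finset.mem_univ, true_and]
  by_cases hx : x = e
  · subst hx
    simp [he]
  · simp [hx]

private theorem ext_tc_two [Fintype E] {p : E → St} {e : E} (he : p e = St.free) :
    tc (Function.update p e St.two) = tc p + 1 := by
  unfold tc
  have h1 : Finset.univ.filter (fun x => Function.update p e St.two x = St.two) =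
      insert e (Finset.univ.filter (fun x => p x = St.two)) := by
    ext x
    simp only [Finset.mem_filter, Finset.mem_univ, true_and, Finset.mem_insert]
    by_cases hx : x = e
    · subst hx
      simp
    · simp [hx]
  rw [h1, Finset.card_insert_of_notMem (by simp [he])]

/-- the number of elements of Player 2 at the end -/
theorem W_card [Fintype E] {T : (E → St) → Prop} :
    ∀ (k : ℕ) (b : Bool) (p : E → St), fc p = k → W T k b p →
      W (fun q => T q ∧ tc q = tc p + (if b then k / 2 else (k + 1) / 2)) k b p := by
  intro k
  induction k with
  | zero =>
    intro b p _ hp
    refine ⟨hp, ?_⟩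
    cases b <;> simp
  | succ k ih =>
    intro b p hk hp
    cases b with
    | true =>
      intro e he
      have hf : fc (Function.update p e St.one) = k := by
        have := fc_update he (s := St.one) (by decide)
        omega
      refine W_mono (fun q hq => ⟨hq.1, ?_⟩) _ _ _ (ih _ _ hf (hp e he))
      have h1 := hq.2
      rw [ext_tc_one he] at h1
      simpa using h1
    | false =>
      obtain ⟨e, he, hp⟩ := hp
      have hf : fc (Function.update p e St.two) = k := by
        have := fc_update he (s := St.two) (by decide)
        omega
      refine ⟨e, he, W_mono (fun q hq => ⟨hq.1, ?_⟩) _ _ _ (ih _ _ hf hp)⟩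
      have h1 := hq.2
      rw [ext_tc_two he] at h1
      simp only [Bool.false_eq_true, if_false, if_true] at h1 ⊢
      omega

end

end Pool.Agent.H34.ST
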