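import Pool.Agent.H34.ST.Swap
import Pool.Agent.H34.ST.Ext
import Pool.Agent.H34.ST.BDeg

/-!
# [H34 ST KN] the part `K_n`: Player 2 as the first player

If Star(n) is not a Player 2 win then (determinacy, exchange of the roles: `W_swap`) Player 2, moving
first on `K_n`, can force `Δ₁ < Δ₂`.  With `W_extends` (complete final position) and `W_card`
(number of edges of Player 2 at the end is `(K + 1) / 2`, `K = card (Ed (Fin n)) = n (n-1) / 2`) one
gets the counts of `AA`.

Combinatorial part: let `u` be a vertex with `dg q one v < dg q two u` for all `v`, `D = dg q two u`,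
so `dg q one v ≤ D - 1`, `dg q two v = n - 1 - dg q one v` (`dg_add`), and
`∑ v, dg q one v = 2 (K - (K+1)/2)` (`dg_sum`), which is `K` or `K - 1`.
* `n` even, `D ≤ n/2`: `K - 1 ≤ n (n/2 - 1)` gives `n ≤ 2`.  So `D ≥ n/2 + 1`, and both inequalities.
* `n` odd, `D ≤ (n-1)/2`: `K - 1 ≤ n (n-3)/2`, impossible.  So `2 D ≥ n + 1`.
* `n % 4 = 1`, `D ≤ (n+1)/2`: now `K` is even, so the sum is `K = n (n-1)/2` while every term is at
  most `(n-1)/2`; hence all `dg q one v = (n-1)/2 = dg q two v`, but then `D = (n-1)/2 = dg q one v`,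
  a contradiction.  So `D ≥ (n+3)/2`.
`Sym2.card_subtype_not_diag` (or a similar lemma) gives the number of edges.
-/

namespace Pool.Agent.H34.ST

/-- the final positions on `K_n` which are good enough for Player 2 -/
def AA (n : ℕ) (q : Ed (Fin n) → St) : Prop :=
  (∀ e, q e ≠ St.free) ∧ ∃ u, (∀ v, dg q St.one v + 1 ≤ dg q St.two u) ∧
    n + 1 ≤ 2 * dg q St.two u ∧ (n % 4 ≠ 3 → n + 1 ≤ dg q St.two u + n / 2)

theorem AA_mono (n : ℕ) : Mono (AA n) := by
  intro q q' h hq
  obtain ⟨h0, u, h1, h2, h3⟩ := hq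
  have hu := dg_two_mono h u
  refine ⟨?_, u, ?_, by omega, fun h4 => by have := h3 h4; omega⟩
  · intro e he
    rcases h e with h5 | ⟨h5, h6⟩
    · exact h0 e (by rw [h5, he])
    · rw [h6] at he; exact absurd he (by decide)
  · intro v
    have h5 := dg_one_anti h v
    have h6 := h1 v
    omega

theorem kn_card (n : ℕ) : 2 * Fintype.card (Ed (Fin n)) = n * (n - 1) := by
  have h : Fintype.card (Ed (Fin n)) = (Fintype.card (Fin n)).choose 2 :=
    Sym2.card_subtype_not_diag
  rw [h, Fintype.card_fin, Nat.choose_two_right]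
  have h2 : 2 ∣ n * (n - 1) := (Nat.even_mul_pred_self n).two_dvd
  omega

theorem kn_swd {n : ℕ} (q : Ed (Fin n) → St) (v : Fin n) :
    dg (fun e => sw (q e)) St.one v = dg q St.two v ∧
      dg (fun e => sw (q e)) St.two v = dg q St.one v := by
  have key : ∀ s : St, (sw s = St.one ↔ s = St.two) ∧ (sw s = St.two ↔ s = St.one) := by
    intro s
    cases s <;> simp [sw]
  unfold dg
  constructor
  · congr 1
    ext e
    rw [Finset.mem_filter, Finset.mem_filter, (key (q e)).1]
  · congr 1
    ext e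
    rw [Finset.mem_filter, Finset.mem_filter, (key (q e)).2]

theorem kn_first (n : ℕ) (hn : 3 ≤ n) (h : ¬ SW (Fin n)) :
    W (AA n) (Fintype.card (Ed (Fin n))) false (fun _ => St.free) := by
  obtain ⟨K, hK⟩ : ∃ K, K = Fintype.card (Ed (Fin n)) := ⟨_, rfl⟩
  have hK2 := kn_card n
  unfold SW at h
  rw [← hK] at h hK2 ⊢
  have h1 := W_swap K true _ h
  have h2 : W (fun q => ¬ TS (fun e => sw (q e))) K false (fun _ : Ed (Fin n) => St.free) := h1
  have hfc : fc (fun _ : Ed (Fin n) => St.free) = K := by rw [fc_free, hK]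
  have h3 := W_card K false _ hfc (W_extends K false _ hfc h2)
  refine W_mono ?_ K false _ h3
  rintro q ⟨⟨hT, -, hcomp⟩, htc⟩
  have htc0 : tc (fun _ : Ed (Fin n) => St.free) = 0 := by
    unfold tc
    simp
  rw [htc0, Nat.zero_add] at htc
  have htc' : tc q = (K + 1) / 2 := htc
  unfold TS at hT
  push Not at hT
  obtain ⟨u, hu⟩ := hT
  have hu' : ∀ v, dg q St.one v < dg q St.two u := by
    intro v
    have := hu v
    rwa [(kn_swd q v).2, (kn_swd q u).1] at this
  have hadd : ∀ v, dg q St.one v + dg q St.two v + 1 = n := by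
    intro v
    have := dg_add hcomp v
    rwa [Fintype.card_fin] at this
  have hsum := dg_sum q St.one
  have hcount : (Finset.univ.filter (fun e : Ed (Fin n) => q e = St.one)).card + tc q = K := by
    unfold tc
    have h4 : (Finset.univ.filter (fun e : Ed (Fin n) => q e = St.two)) =
        Finset.univ.filter (fun e : Ed (Fin n) => ¬ q e = St.one) := by
      ext e
      rw [Finset.mem_filter, Finset.mem_filter]
      have h5 := hcomp e
      cases hq : q e
      · exact absurd hq h5
      · simp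
      · simp
    rw [h4, Finset.card_filter_add_card_filter_not, Finset.card_univ, hK]
  obtain ⟨a1, ha1⟩ : ∃ a1, a1 = (Finset.univ.filter (fun e : Ed (Fin n) => q e = St.one)).card :=
    ⟨_, rfl⟩
  rw [← ha1] at hsum hcount
  obtain ⟨D, hD⟩ : ∃ D, D = dg q St.two u := ⟨_, rfl⟩
  rw [← hD] at hu'
  have hD1 : 1 ≤ D := by
    have := hu' u
    omega
  have hle : ∑ v : Fin n, dg q St.one v ≤ ∑ _v : Fin n, (D - 1) := by
    apply Finset.sum_le_sum
    intro v _
    have := hu' v
    omega
  rw [Finset.sum_const, Finset.card_univ, Fintype.card_fin, smul_eq_mul, hsum] at hle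
  have ha2 : 2 * a1 + 1 ≥ K := by omega
  obtain ⟨d, hd⟩ : ∃ d, D = d + 1 := ⟨D - 1, by omega⟩
  obtain ⟨m, hm⟩ : ∃ m, n = m + 1 := ⟨n - 1, by omega⟩
  have hclaim : n + 1 ≤ 2 * D := by
    by_contra hlt
    rw [not_le] at hlt
    rw [hd, Nat.add_sub_cancel] at hle
    have h6 : 2 * d + 2 ≤ n := by omega
    have h7 : n * (2 * d + 2) ≤ n * n := Nat.mul_le_mul_left n h6
    have h8 : n * (n - 1) = n * n - n := by rw [Nat.mul_sub, Nat.mul_one]
    have h9 : n ≤ n * n := Nat.le_mul_self n
    have h10 : n * (2 * d + 2) = 2 * (n * d) + 2 * n := by ring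
    omega
  refine ⟨hcomp, u, ?_, ?_, ?_⟩
  · intro v
    rw [← hD]
    exact hu' v
  · rw [← hD]
    exact hclaim
  · intro h3
    rw [← hD]
    by_contra hlt
    have hcase : n % 4 = 1 ∧ 2 * D = n + 1 := by omega
    obtain ⟨r, hr⟩ : ∃ r, n = 4 * r + 1 := ⟨n / 4, by omega⟩
    have hDr : D = 2 * r + 1 := by omega
    have hKr : K = 2 * (r * n) := by
      have h6 : n - 1 = 4 * r := by omega
      rw [h6] at hK2
      have h7 : n * (4 * r) = 4 * (r * n) := by ring
      omega
    have hsumv : ∑ v : Fin n, dg q St.one v = ∑ _v : Fin n, (2 * r) := by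
      rw [hsum, Finset.sum_const, Finset.card_univ, Fintype.card_fin, smul_eq_mul]
      have h7 : n * (2 * r) = 2 * (r * n) := by ring
      omega
    have hall := (Finset.sum_eq_sum_iff_of_le (fun v (_ : v ∈ Finset.univ) => by
      have := hu' v
      omega)).1 hsumv
    have h8 := hall u (Finset.mem_univ u)
    have h9 := hadd u
    omega

end Pool.Agent.H34.ST
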