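import Pool.Agent.H34.ST.Basic

/-!
# [H34 ST BLOCKS] answering in the same block

Induction on `k`, two moves at a time (k = 0, k = 1, k + 2).  Write `t j`, `f j` for the numbers of
elements of Player 2 and of free elements in the block `j`; invariant `c j ≤ t j + f j / 2` for all `j`,
Player 1 to move.  Player 1 takes `e` in block `j₀`: `f j₀` drops by one.  If another free element
of the block `j₀` exists, Player 2 takes it: `t j₀ + 1`, `f j₀ - 2`.  Otherwise `f j₀` was 1 (and
`1 / 2 = 0`), and Player 2 takes any free element `x` (if there is one), of block `j₁`: `t j₁ + 1`,
`f j₁ - 1`, fine.  It is convenient to prove first how the two cardinalities change under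
`Function.update` (for the block of the element and for the other blocks).
-/

namespace Pool.Agent.H34.ST

section
variable {E : Type*} [DecidableEq E]

theorem blk_update [Fintype E] {ι : Type*} [DecidableEq ι] (blk : E → ι) (j : ι) (s s0 s1 : St)
    (p : E → St) (e : E) (he : p e = s0) :
    (Finset.univ.filter (fun x => blk x = j ∧ Function.update p e s1 x = s)).card
      + (if blk e = j ∧ s0 = s then 1 else 0) =
    (Finset.univ.filter (fun x => blk x = j ∧ p x = s)).card
      + (if blk e = j ∧ s1 = s then 1 else 0) := by
  rw [Finset.card_filter, Finset.card_filter,
    ← Finset.add_sum_erase Finset.univ _ (Finset.mem_univ e),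
    ← Finset.add_sum_erase Finset.univ (fun x => if blk x = j ∧ p x = s then 1 else 0)
      (Finset.mem_univ e)]
  have h : ∑ x ∈ Finset.univ.erase e, (if blk x = j ∧ Function.update p e s1 x = s then 1 else 0) =
      ∑ x ∈ Finset.univ.erase e, (if blk x = j ∧ p x = s then 1 else 0) := by
    apply Finset.sum_congr rfl
    intro x hx
    rw [Function.update_of_ne (Finset.ne_of_mem_erase hx)]
  rw [h, Function.update_self, he]
  omega

omit [DecidableEq E] in
theorem blk_free_le [Fintype E] {ι : Type*} [DecidableEq ι] (blk : E → ι) (j : ι) (p : E → St) :
    (Finset.univ.filter (fun x => blk x = j ∧ p x = St.free)).card ≤ fc p := by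
  unfold fc
  apply Finset.card_le_card
  intro x hx
  rw [Finset.mem_filter] at hx ⊢
  exact ⟨hx.1, hx.2.2⟩

/-- Blocks: Player 2 answers in the same block; so he gets at least half (rounded down) of the
free elements of each block. -/
theorem W_blocks [Fintype E] {ι : Type*} [DecidableEq ι] (blk : E → ι) (c : ι → ℕ) :
    ∀ (k : ℕ) (p : E → St), fc p = k →
      (∀ j, c j ≤ (Finset.univ.filter (fun e => blk e = j ∧ p e = St.two)).card
        + (Finset.univ.filter (fun e => blk e = j ∧ p e = St.free)).card / 2) →
      W (fun q => ∀ j, c j ≤ (Finset.univ.filter (fun e => blk e = j ∧ q e = St.two)).card)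
        k true p := by
  intro k
  induction k using Nat.strong_induction_on with
  | _ k ih =>
    intro p hk hc
    rcases k with _ | _ | k
    · intro j
      have h1 := blk_free_le blk j p
      have h2 := hc j
      omega
    · intro e he j
      have h1 := blk_free_le blk j p
      have h2 := hc j
      have h3 := blk_update blk j St.two St.free St.one p e he
      have h4 : ¬ (blk e = j ∧ St.free = St.two) := fun h => absurd h.2 (by decide)
      have h5 : ¬ (blk e = j ∧ St.one = St.two) := fun h => absurd h.2 (by decide)
      rw [if_neg h4, if_neg h5] at h3
      omega
    · intro e he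
      have hf1 := fc_update (s := St.one) he (by decide)
      by_cases hex : ∃ e2, Function.update p e St.one e2 = St.free ∧ blk e2 = blk e
      · obtain ⟨e2, he2, hb⟩ := hex
        have hf2 := fc_update (s := St.two) he2 (by decide)
        refine ⟨e2, he2, ih k (by omega) _ (by omega) ?_⟩
        intro j
        have h2 := hc j
        have a1 := blk_update blk j St.two St.free St.one p e he
        have a2 := blk_update blk j St.free St.free St.one p e he
        have b1 := blk_update blk j St.two St.free St.two _ e2 he2
        have b2 := blk_update blk j St.free St.free St.two _ e2 he2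
        rw [hb] at b1 b2
        by_cases hj : blk e = j
        · simp only [hj, true_and, reduceCtorEq, if_true, if_false, Nat.add_zero] at a1 a2 b1 b2
          omega
        · simp only [hj, false_and, if_false, Nat.add_zero] at a1 a2 b1 b2
          omega
      · push Not at hex
        have hpos : 0 < fc (Function.update p e St.one) := by omega
        unfold fc at hpos
        obtain ⟨e2, he2'⟩ := Finset.card_pos.1 hpos
        have he2 := (Finset.mem_filter.1 he2').2
        have hbne : blk e2 ≠ blk e := hex e2 he2
        have hf2 := fc_update (s := St.two) he2 (by decide)
        have hzero : (Finset.univ.filter (fun x => blk x = blk e ∧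
            Function.update p e St.one x = St.free)).card = 0 := by
          rw [Finset.card_eq_zero, Finset.filter_eq_empty_iff]
          intro x _ hx
          exact hex x hx.2 hx.1
        refine ⟨e2, he2, ih k (by omega) _ (by omega) ?_⟩
        intro j
        have h2 := hc j
        have a1 := blk_update blk j St.two St.free St.one p e he
        have a2 := blk_update blk j St.free St.free St.one p e he
        have b1 := blk_update blk j St.two St.free St.two _ e2 he2
        have b2 := blk_update blk j St.free St.free St.two _ e2 he2
        by_cases hj : blk e = j
        · have hj2 : ¬ blk e2 = j := fun h => hbne (h.trans hj.symm)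
          rw [hj] at hzero
          simp only [hj, hj2, true_and, false_and, reduceCtorEq, if_true, if_false, Nat.add_zero]
            at a1 a2 b1 b2
          omega
        · by_cases hj2 : blk e2 = j
          · simp only [hj, hj2, true_and, false_and, reduceCtorEq, if_true, if_false, Nat.add_zero]
              at a1 a2 b1 b2
            omega
          · simp only [hj, hj2, false_and, if_false, Nat.add_zero] at a1 a2 b1 b2
            omega

end

end Pool.Agent.H34.ST
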