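import Pool.Agent.H34.ST.Tempo

/-!
# [H34 ST SUM] two games side by side

Induction on `k` (all `p₁ p₂`).  First claim, `k+1`: Player 1 takes an element of X (or Y; symmetric).
Then the game X is in state `W T₁ (fc p₁ - 1) false`, and the second (third) claim for `k` applies.
Second claim (Player 2 to move, X in state false, Y in state true): if `fc p₁ = a+1` Player 2 plays
his move in X and the first claim applies.  If `fc p₁ = 0` then `W T₁ 0 false p₁ = T₁ p₁ = W T₁ 0 true p₁`
and `fc p₂ = k+1`; use `tempo` on Y (`W T₂ .. true → W T₂ .. false`) and play there.  Third claim: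
symmetric.  `k = 0`: both boards are full.  `Function.update (Sum.elim p₁ p₂) (Sum.inl x) s =
Sum.elim (Function.update p₁ x s) p₂` (`Sum.update_elim_inl`), same for `inr`; `fc_update`.
-/

namespace Pool.Agent.H34.ST

section
variable {E : Type*} [DecidableEq E]

/-- Two games side by side: Player 2 answers in the same component. -/
theorem W_sum {X Y : Type*} [DecidableEq X] [DecidableEq Y] [Fintype X] [Fintype Y]
    {T : (X ⊕ Y → St) → Prop} {T₁ : (X → St) → Prop} {T₂ : (Y → St) → Prop}
    (hT₁ : Mono T₁) (hT₂ : Mono T₂)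
    (h : ∀ q₁ q₂, T₁ q₁ → T₂ q₂ → T (Sum.elim q₁ q₂)) :
    ∀ (k : ℕ) (p₁ : X → St) (p₂ : Y → St), fc p₁ + fc p₂ = k →
      (W T₁ (fc p₁) true p₁ → W T₂ (fc p₂) true p₂ → W T k true (Sum.elim p₁ p₂)) ∧
      (W T₁ (fc p₁) false p₁ → W T₂ (fc p₂) true p₂ → W T k false (Sum.elim p₁ p₂)) ∧
      (W T₁ (fc p₁) true p₁ → W T₂ (fc p₂) false p₂ → W T k false (Sum.elim p₁ p₂)) := by
  intro k
  induction k with
  | zero =>
    intro p₁ p₂ hk
    have e1 : fc p₁ = 0 := by omega
    have e2 : fc p₂ = 0 := by omega
    rw [e1, e2]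
    exact ⟨fun h1 h2 => h _ _ h1 h2, fun h1 h2 => h _ _ h1 h2, fun h1 h2 => h _ _ h1 h2⟩
  | succ k ih =>
    intro p₁ p₂ hk
    have upl : ∀ (x : X) (s : St), Function.update (Sum.elim p₁ p₂) (Sum.inl x) s =
        Sum.elim (Function.update p₁ x s) p₂ := fun x s => Sum.update_elim_inl
    have upr : ∀ (y : Y) (s : St), Function.update (Sum.elim p₁ p₂) (Sum.inr y) s =
        Sum.elim p₁ (Function.update p₂ y s) := fun y s => Sum.update_elim_inr
    refine ⟨?_, ?_, ?_⟩
    · intro h1 h2 e he
      rcases e with x | y
      · have hx : p₁ x = St.free := he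
        have hf := fc_update (s := St.one) hx (by decide)
        rw [← hf] at h1
        rw [upl]
        exact (ih _ _ (by omega)).2.1 (h1 x hx) h2
      · have hy : p₂ y = St.free := he
        have hf := fc_update (s := St.one) hy (by decide)
        rw [← hf] at h2
        rw [upr]
        exact (ih _ _ (by omega)).2.2 h1 (h2 y hy)
    · intro h1 h2
      rcases Nat.eq_zero_or_pos (fc p₁) with h0 | h0
      · have h3 := tempo hT₂ p₂ h2
        have e2 : fc p₂ = k + 1 := by omega
        rw [e2] at h3
        obtain ⟨y, hy, h4⟩ := h3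
        have hf := fc_update (s := St.two) hy (by decide)
        have e3 : fc (Function.update p₂ y St.two) = k := by omega
        refine ⟨Sum.inr y, hy, ?_⟩
        rw [upr]
        refine (ih _ _ (by omega)).1 ?_ ?_
        · rw [h0] at h1 ⊢
          exact h1
        · rw [e3]
          exact h4
      · obtain ⟨a, ha⟩ : ∃ a, fc p₁ = a + 1 := ⟨fc p₁ - 1, by omega⟩
        rw [ha] at h1
        obtain ⟨x, hx, h4⟩ := h1
        have hf := fc_update (s := St.two) hx (by decide)
        have e3 : fc (Function.update p₁ x St.two) = a := by omega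
        refine ⟨Sum.inl x, hx, ?_⟩
        rw [upl]
        refine (ih _ _ (by omega)).1 ?_ h2
        rw [e3]
        exact h4
    · intro h1 h2
      rcases Nat.eq_zero_or_pos (fc p₂) with h0 | h0
      · have h3 := tempo hT₁ p₁ h1
        have e2 : fc p₁ = k + 1 := by omega
        rw [e2] at h3
        obtain ⟨x, hx, h4⟩ := h3
        have hf := fc_update (s := St.two) hx (by decide)
        have e3 : fc (Function.update p₁ x St.two) = k := by omega
        refine ⟨Sum.inl x, hx, ?_⟩
        rw [upl]
        refine (ih _ _ (by omega)).1 ?_ ?_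
        · rw [e3]
          exact h4
        · rw [h0] at h2 ⊢
          exact h2
      · obtain ⟨a, ha⟩ : ∃ a, fc p₂ = a + 1 := ⟨fc p₂ - 1, by omega⟩
        rw [ha] at h2
        obtain ⟨y, hy, h4⟩ := h2
        have hf := fc_update (s := St.two) hy (by decide)
        have e3 : fc (Function.update p₂ y St.two) = a := by omega
        refine ⟨Sum.inr y, hy, ?_⟩
        rw [upr]
        refine (ih _ _ (by omega)).1 h1 ?_
        rw [e3]
        exact h4

end

end Pool.Agent.H34.ST
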