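import Pool.Agent.H34.ST.Board

/-!
# [H34 ST BDEC] `K_{C ⊔ B} = K_C ⊔ (C × B) ⊔ K_B`

`decFun_bijective`: injective and surjective by cases (`Sym2.ind`).
`dg_dec_inl`, `dg_dec_inr`: transport the filter along `dec` and split it along the sum type.
-/

namespace Pool.Agent.H34.ST

section
variable {C B : Type*} [Fintype C] [DecidableEq C] [Fintype B] [DecidableEq B]

omit [Fintype C] [DecidableEq C] [Fintype B] [DecidableEq B] in
theorem bdec_mem_inl (e : Ed C) (c : C) :
    Sum.inl c ∈ (decFun (C := C) (B := B) (Sum.inl e)).1 ↔ c ∈ e.1 := by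
  obtain ⟨e, he⟩ := e
  induction e using Sym2.ind with
  | _ x y => simp [decFun]

omit [Fintype C] [DecidableEq C] [Fintype B] [DecidableEq B] in
theorem bdec_mem_inr (e : Ed B) (b : B) :
    Sum.inr b ∈ (decFun (C := C) (B := B) (Sum.inr (Sum.inr e))).1 ↔ b ∈ e.1 := by
  obtain ⟨e, he⟩ := e
  induction e using Sym2.ind with
  | _ x y => simp [decFun]

omit [Fintype C] [DecidableEq C] [Fintype B] [DecidableEq B] in
theorem bdec_nmem_inl (e : Ed B) (c : C) :
    Sum.inl c ∉ (decFun (C := C) (B := B) (Sum.inr (Sum.inr e))).1 := by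
  obtain ⟨e, he⟩ := e
  induction e using Sym2.ind with
  | _ x y => simp [decFun]

omit [Fintype C] [DecidableEq C] [Fintype B] [DecidableEq B] in
theorem bdec_nmem_inr (e : Ed C) (b : B) :
    Sum.inr b ∉ (decFun (C := C) (B := B) (Sum.inl e)).1 := by
  obtain ⟨e, he⟩ := e
  induction e using Sym2.ind with
  | _ x y => simp [decFun]

omit [Fintype C] [DecidableEq C] [Fintype B] [DecidableEq B] in
theorem bdec_mem_mid (x : C × B) (c : C) :
    Sum.inl c ∈ (decFun (C := C) (B := B) (Sum.inr (Sum.inl x))).1 ↔ c = x.1 := by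
  simp [decFun]

omit [Fintype C] [DecidableEq C] [Fintype B] [DecidableEq B] in
theorem bdec_mem_mid' (x : C × B) (b : B) :
    Sum.inr b ∈ (decFun (C := C) (B := B) (Sum.inr (Sum.inl x))).1 ↔ b = x.2 := by
  simp [decFun]

theorem decFun_bijective : Function.Bijective (decFun (C := C) (B := B)) := by
  constructor
  · intro x y hxy
    have hmem : ∀ z, z ∈ (decFun x).1 ↔ z ∈ (decFun y).1 := fun z => by rw [hxy]
    rcases x with e | x | e <;> rcases y with f | y | f
    · congr 1
      apply Subtype.ext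
      apply Sym2.ext
      intro c
      have := hmem (Sum.inl c)
      rwa [bdec_mem_inl, bdec_mem_inl] at this
    · exfalso
      have := hmem (Sum.inr y.2)
      rw [bdec_mem_mid'] at this
      exact bdec_nmem_inr e y.2 (this.2 rfl)
    · exfalso
      obtain ⟨e, he⟩ := e
      induction e using Sym2.ind with
      | _ c d =>
        have := hmem (Sum.inl c)
        rw [bdec_mem_inl] at this
        exact bdec_nmem_inl f c (this.1 (by simp))
    · exfalso
      have := hmem (Sum.inr x.2)
      rw [bdec_mem_mid'] at this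
      exact bdec_nmem_inr f x.2 (this.1 rfl)
    · have h1 := hmem (Sum.inl x.1)
      have h2 := hmem (Sum.inr x.2)
      rw [bdec_mem_mid, bdec_mem_mid] at h1
      rw [bdec_mem_mid', bdec_mem_mid'] at h2
      congr 2
      exact Prod.ext (h1.1 rfl) (h2.1 rfl)
    · exfalso
      have := hmem (Sum.inl x.1)
      rw [bdec_mem_mid] at this
      exact bdec_nmem_inl f x.1 (this.1 rfl)
    · exfalso
      obtain ⟨f, hf⟩ := f
      induction f using Sym2.ind with
      | _ c d =>
        have := hmem (Sum.inl c)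
        rw [bdec_mem_inl] at this
        exact bdec_nmem_inl e c (this.2 (by simp))
    · exfalso
      have := hmem (Sum.inl y.1)
      rw [bdec_mem_mid] at this
      exact bdec_nmem_inl e y.1 (this.2 rfl)
    · congr 2
      apply Subtype.ext
      apply Sym2.ext
      intro c
      have := hmem (Sum.inr c)
      rwa [bdec_mem_inr, bdec_mem_inr] at this
  · rintro ⟨e, he⟩
    induction e using Sym2.ind with
    | _ x y =>
      rcases x with c | b <;> rcases y with d | b'
      · refine ⟨Sum.inl ⟨s(c, d), ?_⟩, ?_⟩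
        · intro h
          apply he
          simpa using h
        · apply Subtype.ext
          simp [decFun]
      · refine ⟨Sum.inr (Sum.inl (c, b')), ?_⟩
        apply Subtype.ext
        simp [decFun]
      · refine ⟨Sum.inr (Sum.inl (d, b)), ?_⟩
        apply Subtype.ext
        simp [decFun, Sym2.eq_swap]
      · refine ⟨Sum.inr (Sum.inr ⟨s(b, b'), ?_⟩), ?_⟩
        · intro h
          apply he
          simpa using h
        · apply Subtype.ext
          simp [decFun]

/-- `K_{C ⊔ B} = K_C ⊔ (C × B) ⊔ K_B` -/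
noncomputable def dec : Ed C ⊕ ((C × B) ⊕ Ed B) ≃ Ed (C ⊕ B) :=
  Equiv.ofBijective decFun decFun_bijective

theorem bdec_dg (q : Ed (C ⊕ B) → St) (s : St) (v : C ⊕ B) :
    dg q s v = (∑ e : Ed C, if v ∈ (dec (C := C) (B := B) (Sum.inl e)).1 ∧
        q (dec (Sum.inl e)) = s then 1 else 0) +
      ((∑ x : C × B, if v ∈ (dec (C := C) (B := B) (Sum.inr (Sum.inl x))).1 ∧
        q (dec (Sum.inr (Sum.inl x))) = s then 1 else 0) +
      (∑ e : Ed B, if v ∈ (dec (C := C) (B := B) (Sum.inr (Sum.inr e))).1 ∧
        q (dec (Sum.inr (Sum.inr e))) = s then 1 else 0)) := by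
  unfold dg
  rw [Finset.card_filter, ← Equiv.sum_comp (dec (C := C) (B := B)), Fintype.sum_sum_type,
    Fintype.sum_sum_type]

theorem dg_dec_inl (q : Ed (C ⊕ B) → St) (s : St) (c : C) :
    dg q s (Sum.inl c) = dg (fun e => q (dec (Sum.inl e))) s c
      + (Finset.univ.filter (fun b : B => q (dec (Sum.inr (Sum.inl (c, b)))) = s)).card := by
  rw [bdec_dg]
  have h1 : (∑ e : Ed C, if Sum.inl c ∈ (dec (C := C) (B := B) (Sum.inl e)).1 ∧
        q (dec (Sum.inl e)) = s then 1 else 0) = dg (fun e => q (dec (Sum.inl e))) s c := by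
    unfold dg
    rw [Finset.card_filter]
    refine Finset.sum_congr rfl fun e _ => ?_
    have := bdec_mem_inl (B := B) e c
    exact if_congr (and_congr_left' this) rfl rfl
  have h2 : (∑ x : C × B, if Sum.inl c ∈ (dec (C := C) (B := B) (Sum.inr (Sum.inl x))).1 ∧
        q (dec (Sum.inr (Sum.inl x))) = s then 1 else 0) =
      (Finset.univ.filter (fun b : B => q (dec (Sum.inr (Sum.inl (c, b)))) = s)).card := by
    rw [Fintype.sum_prod_type, Finset.sum_eq_single c, Finset.card_filter]
    · refine Finset.sum_congr rfl fun b _ => ?_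
      have := bdec_mem_mid (C := C) (B := B) (c, b) c
      exact if_congr ⟨fun h => h.2, fun h => ⟨this.2 rfl, h⟩⟩ rfl rfl
    · intro c' _ hc'
      apply Finset.sum_eq_zero
      intro b _
      rw [if_neg]
      rintro ⟨h, -⟩
      exact hc' ((bdec_mem_mid (C := C) (B := B) (c', b) c).1 h).symm
    · intro h
      exact absurd (Finset.mem_univ c) h
  have h3 : (∑ e : Ed B, if Sum.inl c ∈ (dec (C := C) (B := B) (Sum.inr (Sum.inr e))).1 ∧
        q (dec (Sum.inr (Sum.inr e))) = s then 1 else 0) = 0 := by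
    apply Finset.sum_eq_zero
    intro e _
    rw [if_neg]
    rintro ⟨h, -⟩
    exact bdec_nmem_inl e c h
  rw [h1, h2, h3, add_zero]

theorem dg_dec_inr (q : Ed (C ⊕ B) → St) (s : St) (b : B) :
    dg q s (Sum.inr b) =
      (Finset.univ.filter (fun c : C => q (dec (Sum.inr (Sum.inl (c, b)))) = s)).card
      + dg (fun e => q (dec (Sum.inr (Sum.inr e)))) s b := by
  rw [bdec_dg]
  have h1 : (∑ e : Ed B, if Sum.inr b ∈ (dec (C := C) (B := B) (Sum.inr (Sum.inr e))).1 ∧
        q (dec (Sum.inr (Sum.inr e))) = s then 1 else 0) =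
      dg (fun e => q (dec (Sum.inr (Sum.inr e)))) s b := by
    unfold dg
    rw [Finset.card_filter]
    refine Finset.sum_congr rfl fun e _ => ?_
    have := bdec_mem_inr (C := C) e b
    exact if_congr (and_congr_left' this) rfl rfl
  have h2 : (∑ x : C × B, if Sum.inr b ∈ (dec (C := C) (B := B) (Sum.inr (Sum.inl x))).1 ∧
        q (dec (Sum.inr (Sum.inl x))) = s then 1 else 0) =
      (Finset.univ.filter (fun c : C => q (dec (Sum.inr (Sum.inl (c, b)))) = s)).card := by
    rw [Fintype.sum_prod_type_right, Finset.sum_eq_single b, Finset.card_filter]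
    · refine Finset.sum_congr rfl fun c _ => ?_
      have := bdec_mem_mid' (C := C) (B := B) (c, b) b
      exact if_congr ⟨fun h => h.2, fun h => ⟨this.2 rfl, h⟩⟩ rfl rfl
    · intro b' _ hb'
      apply Finset.sum_eq_zero
      intro c _
      rw [if_neg]
      rintro ⟨h, -⟩
      exact hb' ((bdec_mem_mid' (C := C) (B := B) (c, b') b).1 h).symm
    · intro h
      exact absurd (Finset.mem_univ b) h
  have h3 : (∑ e : Ed C, if Sum.inr b ∈ (dec (C := C) (B := B) (Sum.inl e)).1 ∧
        q (dec (Sum.inl e)) = s then 1 else 0) = 0 := by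
    apply Finset.sum_eq_zero
    intro e _
    rw [if_neg]
    rintro ⟨h, -⟩
    exact bdec_nmem_inr e b h
  rw [h1, h2, h3, zero_add]

end

end Pool.Agent.H34.ST
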