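import Pool.Agent.H34.ST.Board

/-!
# [H34 ST BEQ] degrees under a bijection of the vertices

`dg_edEquiv`: the bijection `edEquiv g` maps the edges at `v` to the edges at `g v`
(`Finset.card_bij` or `Finset.card_equiv`).
-/

namespace Pool.Agent.H34.ST

section
variable {V : Type*} [Fintype V] [DecidableEq V]

theorem dg_edEquiv {V' : Type*} [Fintype V'] [DecidableEq V'] (g : V ≃ V') (q : Ed V' → St)
    (s : St) (v : V) : dg (fun e => q (edEquiv g e)) s v = dg q s (g v) := by
  unfold dg
  refine Finset.card_equiv (edEquiv g) ?_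
  intro e
  simp only [Finset.mem_filter, Finset.mem_univ, true_and]
  have h : v ∈ e.1 ↔ g v ∈ (edEquiv g e).1 := by
    obtain ⟨e, hd⟩ := e
    induction e using Sym2.ind with
    | _ x y => simp [edEquiv, sym2E]
  rw [h]

theorem TS_edEquiv {V' : Type*} [Fintype V'] [DecidableEq V'] (g : V ≃ V') (q : Ed V' → St)
    (h : TS q) : TS (fun e => q (edEquiv g e)) := by
  intro v
  obtain ⟨u, hu⟩ := h (g v)
  refine ⟨g.symm u, ?_⟩
  rw [dg_edEquiv, dg_edEquiv, Equiv.apply_symm_apply]
  exact hu

end

end Pool.Agent.H34.ST
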