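import Mathlib

/-!
# Two player claiming games on a finite board: basic tools

The board is a finite type `E`, a position is a function `p : E → St`
(`free`, `one` = owned by Player 1, `two` = owned by Player 2).  `W T k b p`: from the position
`p` with `k` free elements, Player 1 to move if `b = true` and Player 2 to move if `b = false`,
Player 2 can force the final position to satisfy `T`.
-/

namespace Pool.Agent.H34.ST

/-- status of an element of the board -/
inductive St
  | free
  | one
  | two
  deriving DecidableEq

/-- Player 2 can force the final position to satisfy `T`; `k` moves are left, the flag is `true`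
if Player 1 is to move. -/
def W {E : Type*} [DecidableEq E] (T : (E → St) → Prop) : ℕ → Bool → (E → St) → Prop
  | 0, _, p => T p
  | k + 1, true, p => ∀ e, p e = St.free → W T k false (Function.update p e St.one)
  | k + 1, false, p => ∃ e, p e = St.free ∧ W T k true (Function.update p e St.two)

/-- number of free elements -/
def fc {E : Type*} [Fintype E] (p : E → St) : ℕ :=
  (Finset.univ.filter (fun e => p e = St.free)).card

/-- number of elements of Player 2 -/
def tc {E : Type*} [Fintype E] (p : E → St) : ℕ :=
  (Finset.univ.filter (fun e => p e = St.two)).card

/-- `p'` arises from `p` by giving some elements of Player 1 to Player 2 -/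
def Le2 {E : Type*} (p p' : E → St) : Prop :=
  ∀ e, p e = p' e ∨ (p e = St.one ∧ p' e = St.two)

/-- targets that are preserved when Player 2 gets more -/
def Mono {E : Type*} (T : (E → St) → Prop) : Prop :=
  ∀ p p', Le2 p p' → T p → T p'

/-- exchange the two players -/
def sw : St → St
  | St.free => St.free
  | St.one => St.two
  | St.two => St.one

section
variable {E : Type*} [DecidableEq E]

theorem fc_update [Fintype E] {p : E → St} {e : E} {s : St} (he : p e = St.free)
    (hs : s ≠ St.free) : fc (Function.update p e s) + 1 = fc p := by
  classical
  unfold fc
  have : (Finset.univ.filter (fun x => Function.update p e s x = St.free))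
      = (Finset.univ.filter (fun x => p x = St.free)).erase e := by
    ext x
    simp only [Finset.mem_filter, Finset.mem_univ, true_and, Finset.mem_erase]
    by_cases hx : x = e
    · subst hx; simp [hs]
    · simp [hx]
  rw [this, Finset.card_erase_of_mem (by simp [he])]
  have : 0 < (Finset.univ.filter (fun x => p x = St.free)).card :=
    Finset.card_pos.mpr ⟨e, by simp [he]⟩
  omega

theorem W_mono {T T' : (E → St) → Prop} (h : ∀ q, T q → T' q) :
    ∀ (k : ℕ) (b : Bool) (p : E → St), W T k b p → W T' k b p := by
  intro k
  induction k with
  | zero => intro b p; exact h p
  | succ k ih =>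
    intro b p
    cases b with
    | true => intro hp e he; exact ih _ _ (hp e he)
    | false => rintro ⟨e, he, hp⟩; exact ⟨e, he, ih _ _ hp⟩

theorem W_le2 {T : (E → St) → Prop} (hT : Mono T) :
    ∀ (k : ℕ) (b : Bool) (p p' : E → St), Le2 p p' → W T k b p → W T k b p' := by
  intro k
  induction k with
  | zero => intro b p p' h hp; exact hT p p' h hp
  | succ k ih =>
    intro b p p' h hp
    cases b with
    | true =>
      intro e he
      have he' : p e = St.free := by
        rcases h e with h1 | ⟨h1, h2⟩
        · rw [h1, he]
        · rw [h2] at he; exact absurd he (by decide)
      refine ih _ _ _ ?_ (hp e he')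
      intro x
      by_cases hx : x = e
      · subst hx; simp
      · simp only [Function.update_of_ne hx]; exact h x
    | false =>
      obtain ⟨e, he, hp⟩ := hp
      have he' : p' e = St.free := by
        rcases h e with h1 | ⟨h1, h2⟩
        · rw [← h1, he]
        · rw [h1] at he; exact absurd he (by decide)
      refine ⟨e, he', ih _ _ _ ?_ hp⟩
      intro x
      by_cases hx : x = e
      · subst hx; simp
      · simp only [Function.update_of_ne hx]; exact h x

end

end Pool.Agent.H34.ST
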