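import Pool.Agent.H34.ST.Basic

/-!
# The star game on complete graphs, and the decomposition `K_{C ⊔ B} = K_C ⊔ (C × B) ⊔ K_B`


-/

namespace Pool.Agent.H34.ST

/-- the edges of the complete graph on `V` -/
abbrev Ed (V : Type*) := {e : Sym2 V // ¬ e.IsDiag}

/-- degree of `v` in the graph of the edges of status `s` -/
def dg {V : Type*} [Fintype V] [DecidableEq V] (q : Ed V → St) (s : St) (v : V) : ℕ :=
  (Finset.univ.filter (fun e : Ed V => v ∈ e.1 ∧ q e = s)).card

/-- Player 2 wins: the maximum degree of Player 1 is at most the one of Player 2 -/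
def TS {V : Type*} [Fintype V] [DecidableEq V] (q : Ed V → St) : Prop :=
  ∀ v, ∃ u, dg q St.one v ≤ dg q St.two u

/-- Star(V) is a Player 2 win -/
def SW (V : Type*) [Fintype V] [DecidableEq V] : Prop :=
  W (TS (V := V)) (Fintype.card (Ed V)) true (fun _ => St.free)

section
variable {V : Type*} [Fintype V] [DecidableEq V]

theorem fc_free : fc (fun _ : Ed V => St.free) = Fintype.card (Ed V) := by
  simp [fc]

theorem dg_one_anti {q q' : Ed V → St} (h : Le2 q q') (v : V) :
    dg q' St.one v ≤ dg q St.one v := by
  apply Finset.card_le_card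
  intro e he
  simp only [Finset.mem_filter, Finset.mem_univ, true_and] at he ⊢
  refine ⟨he.1, ?_⟩
  rcases h e with h1 | ⟨h1, h2⟩
  · rw [h1]; exact he.2
  · exact h1

theorem dg_two_mono {q q' : Ed V → St} (h : Le2 q q') (v : V) :
    dg q St.two v ≤ dg q' St.two v := by
  apply Finset.card_le_card
  intro e he
  simp only [Finset.mem_filter, Finset.mem_univ, true_and] at he ⊢
  refine ⟨he.1, ?_⟩
  rcases h e with h1 | ⟨h1, h2⟩
  · rw [← h1]; exact he.2
  · exact h2

theorem TS_mono : Mono (TS (V := V)) := by
  intro q q' h hq v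
  obtain ⟨u, hu⟩ := hq v
  exact ⟨u, (dg_one_anti h v).trans (hu.trans (dg_two_mono h u))⟩

/-- the bijection of the unordered pairs induced by a bijection of the vertices -/
def sym2E {V' : Type*} (g : V ≃ V') : Sym2 V ≃ Sym2 V' where
  toFun := Sym2.map g
  invFun := Sym2.map g.symm
  left_inv e := by
    induction e using Sym2.ind with
    | _ x y => simp
  right_inv e := by
    induction e using Sym2.ind with
    | _ x y => simp

/-- the bijection of the edges induced by a bijection of the vertices -/
def edEquiv {V' : Type*} (g : V ≃ V') : Ed V ≃ Ed V' :=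
  (sym2E g).subtypeEquiv (by
    intro e
    induction e using Sym2.ind with
    | _ x y => simp [sym2E])

/-- an equivalence can be corrected at one place without disturbing the other prescribed values -/
theorem fix_one {V V' : Type*} [DecidableEq V'] (g : V ≃ V') (v : V) (v' : V') :
    ∃ g' : V ≃ V', g' v = v' ∧ ∀ u, u ≠ v → g u ≠ v' → g' u = g u := by
  refine ⟨g.trans (Equiv.swap (g v) v'), by simp, ?_⟩
  intro u hu hu'
  simp only [Equiv.trans_apply]
  exact Equiv.swap_apply_of_ne_of_ne (fun h => hu (g.injective h)) hu'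

end

section
variable {C B : Type*} [Fintype C] [DecidableEq C] [Fintype B] [DecidableEq B]

/-- the map of the decomposition -/
def decFun : Ed C ⊕ ((C × B) ⊕ Ed B) → Ed (C ⊕ B)
  | Sum.inl e => ⟨e.1.map Sum.inl, by
      obtain ⟨e, he⟩ := e
      induction e using Sym2.ind with
      | _ x y => simpa using he⟩
  | Sum.inr (Sum.inl x) => ⟨s(Sum.inl x.1, Sum.inr x.2), by simp⟩
  | Sum.inr (Sum.inr e) => ⟨e.1.map Sum.inr, by
      obtain ⟨e, he⟩ := e
      induction e using Sym2.ind with
      | _ x y => simpa using he⟩

end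

end Pool.Agent.H34.ST
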