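import Mathlib

/-!
# [H34 ST FINB] density

In every block `4 m, 4 m + 1, 4 m + 2, 4 m + 3` (`m ≥ 1`) at most one number fails `P`: two failures
`a < b` in a block have `b - a ∈ {1, 2, 3}`, and `b - a = 3` only for `a = 4 m`, so `a % 4 = 0 ≠ 3`.
Hence the number of failures in `[1, N]` is at most `3 + (N / 4 + 1)`, and the quotient is at least
`(N - N / 4 - 4) / N`, whose liminf is `3 / 4` (e.g. `le_liminf_of_le` for every `c < 3 / 4`:
`Filter.le_liminf_of_le` with eventually, then let `c → 3 / 4`; or compare with a convergent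
sequence by `Filter.Tendsto.liminf_eq` and `Filter.liminf_le_liminf`).
-/

namespace Pool.Agent.H34.ST

open Classical in
private theorem finB_step (P : ℕ → Prop) (n : ℕ) :
    ((Finset.Icc 1 (n + 1)).filter P).card = ((Finset.Icc 1 n).filter P).card + if P (n + 1) then 1 else 0 := by
  have h1 : Finset.Icc 1 (n + 1) = insert (n + 1) (Finset.Icc 1 n) := by
    ext k
    simp only [Finset.mem_Icc, Finset.mem_insert]
    omega
  rw [h1, Finset.filter_insert]
  split_ifs with hP
  · rw [Finset.card_insert_of_notMem]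
    intro hmem
    rw [Finset.mem_filter, Finset.mem_Icc] at hmem
    omega
  · rw [add_zero]

open Classical in
private theorem finB_block (P : ℕ → Prop)
    (h : ∀ n, 4 ≤ n → ¬ P n → P (n + 1) ∧ P (n + 2) ∧ (n % 4 ≠ 3 → P (n + 3))) (q : ℕ) :
    3 * q ≤ ((Finset.Icc 1 (4 * q + 3)).filter P).card := by
  induction q with
  | zero => simp
  | succ q ih =>
    have e : 4 * (q + 1) + 3 = 4 * q + 3 + 1 + 1 + 1 + 1 := by ring
    rw [e, finB_step, finB_step, finB_step, finB_step]
    have h0 := h (4 * q + 3 + 1) (by omega)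
    have h1 := h (4 * q + 3 + 1 + 1) (by omega)
    have h2 := h (4 * q + 3 + 1 + 1 + 1) (by omega)
    by_cases p0 : P (4 * q + 3 + 1)
    · by_cases p1 : P (4 * q + 3 + 1 + 1)
      · by_cases p2 : P (4 * q + 3 + 1 + 1 + 1)
        · simp only [p0, p1, p2, if_true]
          omega
        · have p3 : P (4 * q + 3 + 1 + 1 + 1 + 1) := (h2 p2).1
          simp only [p0, p1, p3, if_true]
          omega
      · obtain ⟨p2, p3, -⟩ := h1 p1
        have p3' : P (4 * q + 3 + 1 + 1 + 1 + 1) := p3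
        have p2' : P (4 * q + 3 + 1 + 1 + 1) := p2
        simp only [p0, p2', p3', if_true]
        omega
    · obtain ⟨p1, p2, p3⟩ := h0 p0
      have p3' : P (4 * q + 3 + 1 + 1 + 1 + 1) := p3 (by omega)
      have p2' : P (4 * q + 3 + 1 + 1 + 1) := p2
      simp only [p1, p2', p3', if_true]
      omega

open Classical in
theorem density_of_gaps (P : ℕ → Prop)
    (h : ∀ n, 4 ≤ n → ¬ P n → P (n + 1) ∧ P (n + 2) ∧ (n % 4 ≠ 3 → P (n + 3))) :
    (3 / 4 : ℝ) ≤ Filter.liminf
      (fun N : ℕ => (((Finset.Icc 1 N).filter P).card : ℝ) / N) Filter.atTop := by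
  have hlim : Filter.Tendsto (fun N : ℕ => (3 / 4 : ℝ) - (9 / 2) / N) Filter.atTop (nhds (3 / 4)) := by
    have h1 := tendsto_const_div_atTop_nhds_zero_nat (9 / 2 : ℝ)
    have h2 := h1.const_sub (3 / 4 : ℝ)
    rwa [sub_zero] at h2
  rw [← hlim.liminf_eq]
  refine Filter.liminf_le_liminf ?_ hlim.isBoundedUnder_ge ?_
  · filter_upwards [Filter.eventually_ge_atTop 3] with N hN
    have hN0 : (0 : ℝ) < N := by
      have : 0 < N := by omega
      exact_mod_cast this
    rw [le_div_iff₀ hN0]
    obtain ⟨q, hq1, hq2⟩ : ∃ q : ℕ, 4 * q + 3 ≤ N ∧ N ≤ 4 * q + 6 := ⟨(N - 3) / 4, by omega, by omega⟩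
    have h1 := finB_block P h q
    have h2 : ((Finset.Icc 1 (4 * q + 3)).filter P).card ≤ ((Finset.Icc 1 N).filter P).card := by
      apply Finset.card_le_card
      apply Finset.filter_subset_filter
      exact Finset.Icc_subset_Icc_right hq1
    have h3 : (3 * (q : ℝ)) ≤ (((Finset.Icc 1 N).filter P).card : ℝ) := by exact_mod_cast h1.trans h2
    have h4 : (N : ℝ) ≤ 4 * q + 6 := by exact_mod_cast hq2
    have h5 : ((3 / 4 : ℝ) - (9 / 2) / N) * N = 3 / 4 * N - 9 / 2 := by
      field_simp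
    rw [h5]
    linarith
  · apply Filter.IsBoundedUnder.isCoboundedUnder_ge
    refine Filter.isBoundedUnder_of ⟨1, fun N => ?_⟩
    apply div_le_one_of_le₀ _ (Nat.cast_nonneg _)
    have h1 := Finset.card_filter_le (Finset.Icc 1 N) P
    rw [Nat.card_Icc, Nat.add_sub_cancel] at h1
    exact_mod_cast h1

end Pool.Agent.H34.ST
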