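import Pool.Agent.H34.ST.Red
import Pool.Agent.H34.ST.Kn
import Pool.Agent.H34.ST.SumG
import Pool.Agent.H34.ST.Blocks

/-!
# [H34 ST PLUS1] one extra vertex

By `reduce` (k = 1, `x0 = 0`, `b0 = 0`) and `W_transfer dec.symm` the board is
`Ed C ⊕ ((C × Fin 1) ⊕ Ed (Fin 1))`, `C = Fin n`, and the position after the first edge of Player 1 is
`Sum.elim (all free) (free except (0, 0) := one)`.  `W_sum`, second claim, with `T₁ = AA n`
(`kn_first`) and `T₂ q =` complete and `#{c | q (inl (c, 0)) = one} ≤ n / 2 + 1`: from `W_blocks` with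
one block: Player 2 gets at least `(n - 1) / 2` of the `n - 1` free edges at the extra vertex
(`Ed (Fin 1)` is empty).  Final position (`u`, `D = dg q₁ two u` from `AA`): for `v = inl c`:
`dg one ≤ D - 1 + 1 ≤ dg two (inl u)`; for `v = inr 0`: `dg one ≤ n / 2 + 1 ≤ D` as `n + 1 ≤ 2 D`.
(`dg_dec_inl`, `dg_dec_inr`.)
-/

namespace Pool.Agent.H34.ST

theorem plus1_empty : IsEmpty (Ed (Fin 1)) := by
  refine ⟨fun e => ?_⟩
  obtain ⟨e, he⟩ := e
  induction e using Sym2.ind with
  | _ x y =>
    apply he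
    rw [Sym2.isDiag_iff_proj_eq]
    exact Subsingleton.elim _ _

/-- the target at the extra vertex -/
def plus1T (n : ℕ) (q : (Fin n × Fin 1) ⊕ Ed (Fin 1) → St) : Prop :=
  (∀ e, q e ≠ St.free) ∧
    (Finset.univ.filter (fun c : Fin n => q (Sum.inl (c, 0)) = St.one)).card ≤ n / 2 + 1

theorem plus1T_mono (n : ℕ) : Mono (plus1T n) := by
  intro q q' h hq
  obtain ⟨h0, h1⟩ := hq
  refine ⟨?_, le_trans (Finset.card_le_card ?_) h1⟩
  · intro e he
    rcases h e with h5 | ⟨h5, h6⟩
    · exact h0 e (by rw [h5, he])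
    · rw [h6] at he; exact absurd he (by decide)
  · intro c hc
    rw [Finset.mem_filter] at hc ⊢
    refine ⟨hc.1, ?_⟩
    rcases h (Sum.inl (c, 0)) with h5 | ⟨h5, h6⟩
    · rw [h5]; exact hc.2
    · exact h5

theorem plus1_two (n : ℕ) (x0 : Fin n) :
    W (plus1T n) (fc (Function.update (fun _ : (Fin n × Fin 1) ⊕ Ed (Fin 1) => St.free)
      (Sum.inl (x0, 0)) St.one)) true
      (Function.update (fun _ : (Fin n × Fin 1) ⊕ Ed (Fin 1) => St.free)
      (Sum.inl (x0, 0)) St.one) ∧
    fc (Function.update (fun _ : (Fin n × Fin 1) ⊕ Ed (Fin 1) => St.free)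
      (Sum.inl (x0, 0)) St.one) + 1 = n := by
  have hemp := plus1_empty
  obtain ⟨p, hp⟩ : ∃ p : (Fin n × Fin 1) ⊕ Ed (Fin 1) → St, p = Function.update
    (fun _ : (Fin n × Fin 1) ⊕ Ed (Fin 1) => St.free) (Sum.inl (x0, 0)) St.one := ⟨_, rfl⟩
  rw [← hp]
  have hfc : fc p + 1 = n := by
    rw [hp, fc_update rfl (by decide)]
    unfold fc
    simp
  refine ⟨?_, hfc⟩
  have h1 := W_blocks (fun _ : (Fin n × Fin 1) ⊕ Ed (Fin 1) => ()) (fun _ => (n - 1) / 2)
    (fc p) p rfl (by
      intro j
      have e1 : (Finset.univ.filter (fun e : (Fin n × Fin 1) ⊕ Ed (Fin 1) =>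
          () = j ∧ p e = St.free)).card = n - 1 := by
        have e2 : (Finset.univ.filter (fun e : (Fin n × Fin 1) ⊕ Ed (Fin 1) =>
          () = j ∧ p e = St.free)).card = fc p := by
          unfold fc
          congr 1
          ext e
          simp
        rw [e2]
        omega
      rw [e1]
      exact Nat.le_add_left _ _)
  have h2 := W_extends (fc p) true p rfl h1
  refine W_mono ?_ _ _ _ h2
  rintro q ⟨h3, _, h4⟩
  refine ⟨h4, ?_⟩
  have h5 := h3 ()
  have h6 : (Finset.univ.filter (fun e : (Fin n × Fin 1) ⊕ Ed (Fin 1) =>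
      () = () ∧ q e = St.two)).card =
      (Finset.univ.filter (fun c : Fin n => q (Sum.inl (c, 0)) = St.two)).card := by
    symm
    refine Finset.card_bij (fun c _ => Sum.inl (c, 0)) ?_ ?_ ?_
    · intro c hc
      rw [Finset.mem_filter] at hc ⊢
      exact ⟨Finset.mem_univ _, rfl, hc.2⟩
    · intro c _ c' _ hcc
      have := Sum.inl.inj hcc
      simp only [Prod.mk.injEq, and_true] at this
      exact this
    · rintro (⟨c, b⟩ | e) he
      · rw [Finset.mem_filter] at he
        have hb : b = 0 := Subsingleton.elim _ _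
        subst hb
        refine ⟨c, ?_, rfl⟩
        rw [Finset.mem_filter]
        exact ⟨Finset.mem_univ _, he.2.2⟩
      · exact (hemp.false e).elim
  rw [h6] at h5
  have h7 : (Finset.univ.filter (fun c : Fin n => q (Sum.inl (c, 0)) = St.one)).card +
      (Finset.univ.filter (fun c : Fin n => q (Sum.inl (c, 0)) = St.two)).card = n := by
    rw [← Finset.card_union_of_disjoint]
    · have e1 : (Finset.univ.filter (fun c : Fin n => q (Sum.inl (c, 0)) = St.one)) ∪
          (Finset.univ.filter (fun c : Fin n => q (Sum.inl (c, 0)) = St.two)) =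
          Finset.univ := by
        ext c
        rw [Finset.mem_union, Finset.mem_filter, Finset.mem_filter]
        have h8 := h4 (Sum.inl (c, 0))
        cases hq : q (Sum.inl (c, 0)) with
        | free => exact absurd hq h8
        | one => simp
        | two => simp
      rw [e1, Finset.card_univ, Fintype.card_fin]
    · rw [Finset.disjoint_left]
      intro c h8 h9
      rw [Finset.mem_filter] at h8 h9
      rw [h8.2] at h9
      exact absurd h9.2 (by decide)
  omega

theorem plus1_final (n : ℕ) (q₁ : Ed (Fin n) → St) (q₂ : (Fin n × Fin 1) ⊕ Ed (Fin 1) → St)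
    (h₁ : AA n q₁) (h₂ : plus1T n q₂) :
    TS (V := Fin n ⊕ Fin 1) (fun e => Sum.elim q₁ q₂ (dec.symm e)) := by
  have hemp := plus1_empty
  obtain ⟨_, u, h3, h4, _⟩ := h₁
  obtain ⟨_, h6⟩ := h₂
  have el : ∀ (s : St) (c : Fin n), dg (fun e => Sum.elim q₁ q₂ ((dec (C := Fin n)
      (B := Fin 1)).symm e)) s (Sum.inl c) = dg q₁ s c +
      (Finset.univ.filter (fun b : Fin 1 => q₂ (Sum.inl (c, b)) = s)).card := by
    intro s c
    rw [dg_dec_inl]
    simp only [Equiv.symm_apply_apply, Sum.elim_inl, Sum.elim_inr]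
  have er : ∀ (s : St) (b : Fin 1), dg (fun e => Sum.elim q₁ q₂ ((dec (C := Fin n)
      (B := Fin 1)).symm e)) s (Sum.inr b) =
      (Finset.univ.filter (fun c : Fin n => q₂ (Sum.inl (c, b)) = s)).card := by
    intro s b
    rw [dg_dec_inr]
    simp only [Equiv.symm_apply_apply, Sum.elim_inr]
    have e0 : dg (fun e => q₂ (Sum.inr e)) s b = 0 := by
      unfold dg
      rw [Finset.card_eq_zero, Finset.filter_eq_empty_iff]
      intro e
      exact (hemp.false e).elim
    rw [e0, add_zero]
  intro v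
  refine ⟨Sum.inl u, ?_⟩
  rcases v with c | b
  · rw [el, el]
    have h7 := h3 c
    have h8 : (Finset.univ.filter (fun b : Fin 1 => q₂ (Sum.inl (c, b)) = St.one)).card ≤ 1 :=
      (Finset.card_le_univ _).trans (by simp)
    omega
  · rw [er, el]
    have hb : b = 0 := Subsingleton.elim _ _
    subst hb
    omega

theorem plus1 (n : ℕ) (hn : 3 ≤ n) (h : ¬ SW (Fin n)) : SW (Fin (n + 1)) := by
  have hemp := plus1_empty
  obtain ⟨x0⟩ : Nonempty (Fin n) := ⟨⟨0, by omega⟩⟩
  apply reduce n 1 x0 0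
  obtain ⟨h2, hfc⟩ := plus1_two n x0
  have h1 := kn_first n hn h
  rw [← fc_free] at h1
  have hcard : Fintype.card (Ed (Fin n ⊕ Fin 1)) - 1 =
      fc (fun _ : Ed (Fin n) => St.free) +
      fc (Function.update (fun _ : (Fin n × Fin 1) ⊕ Ed (Fin 1) => St.free)
        (Sum.inl (x0, 0)) St.one) := by
    have e1 : Fintype.card (Ed (Fin n ⊕ Fin 1)) =
        Fintype.card (Ed (Fin n) ⊕ ((Fin n × Fin 1) ⊕ Ed (Fin 1))) :=
      (Fintype.card_congr dec).symm
    have e2 : Fintype.card (Ed (Fin 1)) = 0 := Fintype.card_eq_zero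
    rw [e1, Fintype.card_sum, Fintype.card_sum, e2, Fintype.card_prod, Fintype.card_fin,
      Fintype.card_fin, fc_free]
    omega
  have h3 := (W_sum (T := fun q => TS (V := Fin n ⊕ Fin 1) (fun e => q (dec.symm e)))
    (AA_mono n) (plus1T_mono n) (plus1_final n) _ _ _ hcard.symm).2.1 h1 h2
  have h4 := W_transfer (dec (C := Fin n) (B := Fin 1)).symm
    (T := TS (V := Fin n ⊕ Fin 1)) (fun q hq => hq) _ _ _ h3
  have h5 : (fun e => Sum.elim (fun _ : Ed (Fin n) => St.free)
      (Function.update (fun _ : (Fin n × Fin 1) ⊕ Ed (Fin 1) => St.free)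
        (Sum.inl (x0, 0)) St.one) ((dec (C := Fin n) (B := Fin 1)).symm e)) =
      Function.update (fun _ : Ed (Fin n ⊕ Fin 1) => St.free)
        (dec (Sum.inr (Sum.inl (x0, 0)))) St.one := by
    funext e
    obtain ⟨y, rfl⟩ := (dec (C := Fin n) (B := Fin 1)).surjective e
    rw [Equiv.symm_apply_apply]
    rcases y with y | y
    · rw [Sum.elim_inl, Function.update_of_ne]
      intro hc
      exact absurd ((dec (C := Fin n) (B := Fin 1)).injective hc) (by simp)
    · rw [Sum.elim_inr]
      by_cases hy : y = Sum.inl (x0, 0)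
      · rw [hy, Function.update_self, Function.update_self]
      · rw [Function.update_of_ne hy, Function.update_of_ne]
        intro hc
        exact hy (Sum.inr.inj ((dec (C := Fin n) (B := Fin 1)).injective hc))
  rw [h5] at h4
  exact h4

end Pool.Agent.H34.ST
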