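import Pool.Agent.H34.ST.Blocks
import Pool.Agent.H34.ST.Ext
import Pool.Agent.H34.ST.Board

/-!
# [H34 ST Y2] the part of the board at two extra vertices

Board `(C × Fin 2) ⊕ Ed (Fin 2)` (`Ed (Fin 2)` has exactly one element).  Position `p`: Player 1 has
`(a0, 0)` and one more edge `(z, b)`, `(z, b) ≠ (a0, 0)`; Player 2 has the edge of `Ed (Fin 2)`; all
other edges are free; Player 1 to move.
Blocks (`W_blocks`, together with `W_extends`), `ι = Option C`: an edge `(c, i)` with `c ≠ a0`,
`c ≠ z` is in the block `some c`; the edges in the columns `a0`, `z` and the edge of `Ed (Fin 2)`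
are in the block `none`.  If `z ≠ a0`, the block `none` has two free edges (one in each of the
columns `a0`, `z`) and one edge of Player 2: threshold 2.  If `z = a0`: threshold 1.
Conclusion `TB2`: the exceptional column is `a0` or `z`: if `z = a0` take `c1 = a0`; if `z ≠ a0`, one of
the two free edges in these columns goes to Player 2, take the other column as `c1`.
The sum of the degrees of Player 2: every block `some c` gives at least 1, so with `n = card C`:
`z ≠ a0`: `n - 2` blocks, one more in `none`, and the edge of `Ed (Fin 2)` counts twice: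
`n - 2 + 1 + 2 = n + 1`.  `z = a0`: `n - 1 + 2 = n + 1`.
-/

namespace Pool.Agent.H34.ST

/-- degree of Player 2 at the extra vertex `b` -/
def z2 {C : Type*} [Fintype C] (q : (C × Fin 2) ⊕ Ed (Fin 2) → St) (b : Fin 2) : ℕ :=
  (Finset.univ.filter (fun c : C => q (Sum.inl (c, b)) = St.two)).card
    + (Finset.univ.filter (fun e : Ed (Fin 2) => q (Sum.inr e) = St.two)).card

/-- the target of Player 2 with two extra vertices -/
def TB2 {C : Type*} [Fintype C] (q : (C × Fin 2) ⊕ Ed (Fin 2) → St) : Prop :=
  (∀ e, q e ≠ St.free) ∧ (∃ c1 : C, ∀ c, c ≠ c1 → ∃ b, q (Sum.inl (c, b)) = St.two) ∧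
    Fintype.card C + 1 ≤ z2 q 0 + z2 q 1

theorem TB2_mono {C : Type*} [Fintype C] : Mono (TB2 (C := C)) := by
  intro q q' h hq
  have key : ∀ e, q e = St.two → q' e = St.two := by
    intro e he
    rcases h e with h1 | ⟨h1, _⟩
    · rw [← h1, he]
    · rw [he] at h1
      exact absurd h1 (by decide)
  obtain ⟨h1, ⟨c1, hc1⟩, h3⟩ := hq
  refine ⟨?_, ⟨c1, ?_⟩, ?_⟩
  · intro e
    rcases h e with h2 | ⟨_, h2⟩
    · rw [← h2]
      exact h1 e
    · rw [h2]
      decide
  · intro c hc
    obtain ⟨b, hb⟩ := hc1 c hc
    exact ⟨b, key _ hb⟩
  · have hz : ∀ b, z2 q b ≤ z2 q' b := by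
      intro b
      unfold z2
      refine add_le_add (Finset.card_le_card ?_) (Finset.card_le_card ?_)
      · intro c hc
        simp only [Finset.mem_filter, Finset.mem_univ, true_and] at hc ⊢
        exact key _ hc
      · intro c hc
        simp only [Finset.mem_filter, Finset.mem_univ, true_and] at hc ⊢
        exact key _ hc
    have := hz 0
    have := hz 1
    omega

/-- the edge of `Ed (Fin 2)` -/
def Y2_e : Ed (Fin 2) := ⟨s(0, 1), by simp⟩

theorem Y2_uniq : ∀ e : Ed (Fin 2), e = Y2_e := by
  decide

theorem Y2_fin2 (b i : Fin 2) (h : i ≠ b) : i = 1 - b := by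
  fin_cases b <;> fin_cases i <;> simp_all

theorem Y2_aux {C : Type*} [Fintype C] [DecidableEq C] (q : (C × Fin 2) ⊕ Ed (Fin 2) → St)
    (c1 : C) (h : ∀ c, c ≠ c1 → ∃ b, q (Sum.inl (c, b)) = St.two)
    (h3 : ∀ e, q (Sum.inr e) = St.two) : Fintype.card C + 1 ≤ z2 q 0 + z2 q 1 := by
  have h4 : 1 ≤ (Finset.univ.filter (fun e : Ed (Fin 2) => q (Sum.inr e) = St.two)).card := by
    apply Finset.card_pos.2
    exact ⟨Y2_e, by simp [h3]⟩
  set S0 := Finset.univ.filter (fun c : C => q (Sum.inl (c, 0)) = St.two) with hS0
  set S1 := Finset.univ.filter (fun c : C => q (Sum.inl (c, 1)) = St.two) with hS1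
  have h5 : (Finset.univ.erase c1 : Finset C) ⊆ S0 ∪ S1 := by
    intro c hc
    rw [Finset.mem_erase] at hc
    obtain ⟨b, hb⟩ := h c hc.1
    rw [Finset.mem_union, hS0, hS1, Finset.mem_filter, Finset.mem_filter]
    fin_cases b
    · exact Or.inl ⟨Finset.mem_univ _, hb⟩
    · exact Or.inr ⟨Finset.mem_univ _, hb⟩
  have h6 := (Finset.card_le_card h5).trans (Finset.card_union_le S0 S1)
  rw [Finset.card_erase_of_mem (Finset.mem_univ _), Finset.card_univ] at h6
  have hz0 : z2 q 0 = S0.card +
      (Finset.univ.filter (fun e : Ed (Fin 2) => q (Sum.inr e) = St.two)).card := rfl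
  have hz1 : z2 q 1 = S1.card +
      (Finset.univ.filter (fun e : Ed (Fin 2) => q (Sum.inr e) = St.two)).card := rfl
  have hC : 0 < Fintype.card C := Fintype.card_pos_iff.2 ⟨c1⟩
  omega

theorem b2 {C : Type*} [Fintype C] [DecidableEq C] (a0 z : C) (b : Fin 2)
    (hne : (z, b) ≠ (a0, (0 : Fin 2))) (p : (C × Fin 2) ⊕ Ed (Fin 2) → St)
    (h1 : p (Sum.inl (a0, 0)) = St.one) (h2 : p (Sum.inl (z, b)) = St.one)
    (h3 : ∀ e, p (Sum.inr e) = St.two)
    (h4 : ∀ c i, (c, i) ≠ (a0, (0 : Fin 2)) → (c, i) ≠ (z, b) → p (Sum.inl (c, i)) = St.free) :
    W TB2 (fc p) true p := by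
  classical
  set blk : (C × Fin 2) ⊕ Ed (Fin 2) → Option C := fun e => match e with
    | Sum.inl x => if x.1 = a0 ∨ x.1 = z then none else some x.1
    | Sum.inr _ => none with hblk
  set cf : Option C → ℕ := fun j => match j with
    | some c => if c = a0 ∨ c = z then 0 else 1
    | none => if z = a0 then 1 else 2 with hcf
  have hb1 : ∀ c i, blk (Sum.inl (c, i)) = if c = a0 ∨ c = z then none else some c := fun _ _ => rfl
  have hb2 : ∀ e, blk (Sum.inr e) = none := fun _ => rfl
  have hcond : ∀ j, cf j ≤ (Finset.univ.filter (fun e => blk e = j ∧ p e = St.two)).card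
        + (Finset.univ.filter (fun e => blk e = j ∧ p e = St.free)).card / 2 := by
    intro j
    rcases j with _ | c
    · have hA : 1 ≤ (Finset.univ.filter (fun e => blk e = none ∧ p e = St.two)).card := by
        apply Finset.card_pos.2
        refine ⟨Sum.inr Y2_e, ?_⟩
        simp only [Finset.mem_filter, Finset.mem_univ, true_and]
        exact ⟨hb2 Y2_e, h3 _⟩
      by_cases hz : z = a0
      · have : cf none = 1 := by simp [hcf, hz]
        omega
      · have hc : cf none = 2 := by simp [hcf, hz]
        have hB : 2 ≤ (Finset.univ.filter (fun e => blk e = none ∧ p e = St.free)).card := by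
          have hsub : ({Sum.inl (a0, 1), Sum.inl (z, 1 - b)} :
              Finset ((C × Fin 2) ⊕ Ed (Fin 2))) ⊆
              Finset.univ.filter (fun e => blk e = none ∧ p e = St.free) := by
            intro e he
            simp only [Finset.mem_insert, Finset.mem_singleton] at he
            simp only [Finset.mem_filter, Finset.mem_univ, true_and]
            rcases he with rfl | rfl
            · refine ⟨by rw [hb1]; simp, h4 _ _ ?_ ?_⟩
              · intro h
                exact absurd (Prod.ext_iff.1 h).2 (by simp)
              · intro h
                exact hz (Prod.ext_iff.1 h).1.symm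
            · refine ⟨by rw [hb1]; simp, h4 _ _ ?_ ?_⟩
              · intro h
                exact hz (Prod.ext_iff.1 h).1
              · intro h
                have h5 : 1 - b = b := (Prod.ext_iff.1 h).2
                revert h5
                clear * -
                fin_cases b <;> simp
          have h5 := Finset.card_le_card hsub
          rw [Finset.card_pair] at h5
          · exact h5
          · intro h
            have := Sum.inl_injective h
            exact hz (Prod.ext_iff.1 this).1.symm
        omega
    · by_cases hc : c = a0 ∨ c = z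
      · have : cf (some c) = 0 := by simp only [hcf, if_pos hc]
        omega
      · have hcc : cf (some c) = 1 := by simp only [hcf, if_neg hc]
        have hB : 2 ≤ (Finset.univ.filter (fun e => blk e = some c ∧ p e = St.free)).card := by
          have hsub : ({Sum.inl (c, 0), Sum.inl (c, 1)} :
              Finset ((C × Fin 2) ⊕ Ed (Fin 2))) ⊆
              Finset.univ.filter (fun e => blk e = some c ∧ p e = St.free) := by
            intro e he
            simp only [Finset.mem_insert, Finset.mem_singleton] at he
            simp only [Finset.mem_filter, Finset.mem_univ, true_and]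
            push Not at hc
            have hn : ∀ i : Fin 2, p (Sum.inl (c, i)) = St.free := by
              intro i
              refine h4 _ _ ?_ ?_
              · intro h
                exact hc.1 (Prod.ext_iff.1 h).1
              · intro h
                exact hc.2 (Prod.ext_iff.1 h).1
            have hbb : ∀ i : Fin 2, blk (Sum.inl (c, i)) = some c := by
              intro i
              rw [hb1, if_neg (by push Not; exact hc)]
            rcases he with rfl | rfl
            · exact ⟨hbb _, hn _⟩
            · exact ⟨hbb _, hn _⟩
          have h5 := Finset.card_le_card hsub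
          rw [Finset.card_pair] at h5
          · exact h5
          · intro h
            have := Sum.inl_injective h
            exact absurd (Prod.ext_iff.1 this).2 (by simp)
        omega
  have hW := W_extends (fc p) true p rfl (W_blocks blk cf (fc p) p rfl hcond)
  refine W_mono ?_ _ _ _ hW
  rintro q ⟨hq1, hq2, hq3⟩
  have hinr : ∀ e, q (Sum.inr e) = St.two := by
    intro e
    rw [hq2 _ (by rw [h3]; decide), h3]
  have hcol : ∀ c, c ≠ a0 → c ≠ z → ∃ i, q (Sum.inl (c, i)) = St.two := by
    intro c hc1 hc2
    have h5 := hq1 (some c)
    have hcc : cf (some c) = 1 := by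
      simp only [hcf]
      rw [if_neg (by push Not; exact ⟨hc1, hc2⟩)]
    rw [hcc] at h5
    obtain ⟨e, he⟩ := Finset.card_pos.1 h5
    simp only [Finset.mem_filter, Finset.mem_univ, true_and] at he
    rcases e with ⟨c', i⟩ | e
    · have h6 := he.1
      rw [hb1] at h6
      by_cases h7 : c' = a0 ∨ c' = z
      · rw [if_pos h7] at h6
        exact absurd h6 (by simp)
      · rw [if_neg h7] at h6
        have : c' = c := Option.some_injective _ h6
        subst this
        exact ⟨i, he.2⟩
    · have h6 := he.1
      rw [hb2 e] at h6
      exact absurd h6 (by simp)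
  have hex : ∃ c1 : C, ∀ c, c ≠ c1 → ∃ b, q (Sum.inl (c, b)) = St.two := by
    by_cases hz : z = a0
    · refine ⟨a0, fun c hc => hcol c hc ?_⟩
      rw [hz]
      exact hc
    · have h5 := hq1 none
      have hcc : cf none = 2 := by simp [hcf, hz]
      rw [hcc] at h5
      have h6 : q (Sum.inl (a0, 1)) = St.two ∨ q (Sum.inl (z, 1 - b)) = St.two := by
        by_contra hcon
        push Not at hcon
        have hsub : Finset.univ.filter (fun e => blk e = none ∧ q e = St.two) ⊆
            ({Sum.inr Y2_e} : Finset ((C × Fin 2) ⊕ Ed (Fin 2))) := by
          intro e he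
          simp only [Finset.mem_filter, Finset.mem_univ, true_and] at he
          rw [Finset.mem_singleton]
          rcases e with ⟨c, i⟩ | e
          · exfalso
            have h7 := he.1
            rw [hb1] at h7
            by_cases h8 : c = a0 ∨ c = z
            · rcases h8 with rfl | rfl
              · by_cases hi : i = 0
                · subst hi
                  have h9 := hq2 (Sum.inl (c, 0)) (by rw [h1]; decide)
                  rw [h1, he.2] at h9
                  exact absurd h9 (by decide)
                · have : i = 1 := by
                    have := Y2_fin2 0 i hi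
                    simpa using this
                  subst this
                  exact hcon.1 he.2
              · by_cases hi : i = b
                · subst hi
                  have h9 := hq2 (Sum.inl (c, i)) (by rw [h2]; decide)
                  rw [h2, he.2] at h9
                  exact absurd h9 (by decide)
                · have := Y2_fin2 b i hi
                  subst this
                  exact hcon.2 he.2
            · rw [if_neg h8] at h7
              exact absurd h7 (by simp)
          · rw [Y2_uniq e]
        have h7 := Finset.card_le_card hsub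
        rw [Finset.card_singleton] at h7
        omega
      rcases h6 with h6 | h6
      · refine ⟨z, fun c hc => ?_⟩
        by_cases hca : c = a0
        · subst hca
          exact ⟨1, h6⟩
        · exact hcol c hca hc
      · refine ⟨a0, fun c hc => ?_⟩
        by_cases hcz : c = z
        · subst hcz
          exact ⟨_, h6⟩
        · exact hcol c hc hcz
  refine ⟨hq3, hex, ?_⟩
  obtain ⟨c1, hc1⟩ := hex
  exact Y2_aux q c1 hc1 hinr

end Pool.Agent.H34.ST
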