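import Pool.Agent.H34.ST.Red
import Pool.Agent.H34.ST.Kn
import Pool.Agent.H34.ST.SumG
import Pool.Agent.H34.ST.Y2

/-!
# [H34 ST PLUS2] two extra vertices

`kn_first` gives a first edge `e0 = s(a0, b0)` of `K_n` (`Ed (Fin n)`, nonempty) with
`W (AA n) (K - 1) true (free, e0 := two)`, `K = card (Ed (Fin n))`.  Let `V = Fin (n + 2)`.
Player 1 takes `e1 = s(y, x)`.  Player 2 chooses `w ∉ {x, y}` and answers `s(x, w)`.
Player 1 takes `e2` (different from these two).
* `y ∈ e2`: `e2 = s(y, z)`, `z ≠ x`; choose `a ∉ {x, w, y, z}` (`n + 2 ≥ 5`).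
* `y ∉ e2`: `e2` has an end `a ∉ {x, w}` (it is not `s(x, w)`, not diagonal), `a ≠ y`; `e2 = s(a, t)`.
Player 2 answers `s(y, a)` (it is free).  By `fix_one` (four times) there is
`g : V ≃ Fin n ⊕ Fin 2` with `g y = inr 0`, `g a = inr 1`, `g x = inl a0`, `g w = inl b0`.  In the
coordinates of `dec` (`W_transfer ((edEquiv g).trans dec.symm)`) the position is
`Sum.elim (free, e0 := two) p₂` with `p₂` as in `b2`: `z = g z` and `b = 0` in the first case,
`(g t, 1)` in the second.  `W_sum`, first claim (`T₁ = AA n`, `T₂ = TB2`).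
End: `u`, `D = dg q₁ two u` from `AA`, `c1` from `TB2`.  For `v = inr b`: `dg one = n + 1 - dg two` (`dg_add`)
`≤ dg two (inr b')`, `b' ≠ b`, by `TB2`.  For `v = inl c`, `c ≠ c1`: `dg one ≤ D - 1 + 1 ≤ dg two (inl u)`.
For `v = inl c1`: if `u ≠ c1`: `dg one ≤ D - 1 + 2 ≤ dg two (inl u)`; if `u = c1`:
`dg one = (n - 1 - D) + (at most 2) ≤ D` as `n + 1 ≤ 2 D` (`dg_add` on `K_n`).
-/

namespace Pool.Agent.H34.ST

/-- the target in the coordinates of the decomposition -/
def Plus2_T (n : ℕ) (q : Ed (Fin n) ⊕ ((Fin n × Fin 2) ⊕ Ed (Fin 2)) → St) : Prop :=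
  TS (fun e : Ed (Fin n ⊕ Fin 2) => q (dec.symm e))

theorem Plus2_ed2 (e : Ed (Fin 2)) (b : Fin 2) : b ∈ e.1 := by
  obtain ⟨e, he⟩ := e
  induction e using Sym2.ind with
  | _ x y =>
    simp only [Sym2.mk_isDiag_iff] at he
    simp only [Sym2.mem_iff]
    omega

theorem Plus2_target (n : ℕ) (q₁ : Ed (Fin n) → St) (q₂ : (Fin n × Fin 2) ⊕ Ed (Fin 2) → St)
    (h1 : AA n q₁) (h2 : TB2 q₂) : Plus2_T n (Sum.elim q₁ q₂) := by
  obtain ⟨h10, u, h11, h12, -⟩ := h1
  obtain ⟨h20, ⟨c1, h21⟩, h22⟩ := h2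
  rw [Fintype.card_fin] at h22
  unfold Plus2_T
  set Q : Ed (Fin n ⊕ Fin 2) → St := fun e => Sum.elim q₁ q₂ (dec.symm e) with hQ
  have hQd : ∀ x, Q (dec x) = Sum.elim q₁ q₂ x := by
    intro x
    rw [hQ]
    simp only [Equiv.symm_apply_apply]
  have hQfree : ∀ e, Q e ≠ St.free := by
    intro e
    obtain ⟨x, rfl⟩ := dec.surjective e
    rw [hQd]
    rcases x with x | x
    · exact h10 x
    · exact h20 x
  have hl : ∀ (s : St) (c : Fin n), dg Q s (Sum.inl c) = dg q₁ s c +
      (Finset.univ.filter (fun b : Fin 2 => q₂ (Sum.inl (c, b)) = s)).card := by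
    intro s c
    rw [dg_dec_inl]
    simp only [hQd, Sum.elim_inl, Sum.elim_inr]
  have hr : ∀ (s : St) (b : Fin 2), dg Q s (Sum.inr b) =
      (Finset.univ.filter (fun c : Fin n => q₂ (Sum.inl (c, b)) = s)).card +
      (Finset.univ.filter (fun e : Ed (Fin 2) => q₂ (Sum.inr e) = s)).card := by
    intro s b
    rw [dg_dec_inr]
    simp only [hQd, Sum.elim_inr]
    congr 1
    unfold dg
    congr 1
    ext e
    simp only [Finset.mem_filter, Finset.mem_univ, true_and]
    exact ⟨fun h => h.2, fun h => ⟨Plus2_ed2 e b, h⟩⟩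
  have hz : ∀ b, dg Q St.two (Sum.inr b) = z2 q₂ b := fun b => hr St.two b
  have hcard : Fintype.card (Fin n ⊕ Fin 2) = n + 2 := by simp
  have hone : ∀ c, (Finset.univ.filter (fun b : Fin 2 => q₂ (Sum.inl (c, b)) = St.one)).card +
      (Finset.univ.filter (fun b : Fin 2 => q₂ (Sum.inl (c, b)) = St.two)).card = 2 := by
    intro c
    have h3 := Finset.card_filter_add_card_filter_not (s := (Finset.univ : Finset (Fin 2)))
      (fun b => q₂ (Sum.inl (c, b)) = St.one)
    rw [Finset.card_univ, Fintype.card_fin] at h3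
    refine Eq.trans ?_ h3
    congr 2
    ext b
    simp only [Finset.mem_filter, Finset.mem_univ, true_and]
    have h4 := h20 (Sum.inl (c, b))
    cases h5 : q₂ (Sum.inl (c, b)) <;> simp_all
  have hpos : ∀ c, c ≠ c1 →
      1 ≤ (Finset.univ.filter (fun b : Fin 2 => q₂ (Sum.inl (c, b)) = St.two)).card := by
    intro c hc
    obtain ⟨b, hb⟩ := h21 c hc
    exact Finset.card_pos.2 ⟨b, by simp [hb]⟩
  intro v
  rcases v with c | b
  · refine ⟨Sum.inl u, ?_⟩
    rw [hl, hl]
    have h5 := h11 c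
    have h6 := hone c
    by_cases hc : c = c1
    · by_cases hu : u = c1
      · have h7 := dg_add h10 u
        rw [Fintype.card_fin] at h7
        rw [hc, ← hu]
        have h8 := hone u
        omega
      · have h7 := hpos u hu
        omega
    · have h7 := hpos c hc
      omega
  · have h5 := dg_add hQfree (Sum.inr b)
    rw [hcard] at h5
    fin_cases b
    · refine ⟨Sum.inr 1, ?_⟩
      have h6 := hz 0
      have h7 := hz 1
      simp only [Fin.zero_eta] at h5 ⊢
      omega
    · refine ⟨Sum.inr 0, ?_⟩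
      have h6 := hz 0
      have h7 := hz 1
      simp only [Fin.mk_one] at h5 ⊢
      omega

theorem Plus2_update {E E' : Type*} [DecidableEq E] [DecidableEq E'] (σ : E ≃ E') (p : E' → St)
    (e : E) (e' : E') (he : σ e = e') (s : St) :
    Function.update (fun x => p (σ x)) e s = fun x => Function.update p e' s (σ x) := by
  subst he
  funext x
  by_cases hx : x = e
  · subst hx
    simp
  · rw [Function.update_of_ne hx, Function.update_of_ne (fun h => hx (σ.injective h))]

theorem Plus2_end (n : ℕ) (a0 : Fin n) (e0 : Ed (Fin n))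
    (hW : W (AA n) (Fintype.card (Ed (Fin n)) - 1) true
      (Function.update (fun _ => St.free) e0 St.two))
    (g : Fin (n + 2) ≃ Fin n ⊕ Fin 2) (e1 f1 e2 f2 : Ed (Fin (n + 2))) (z : Fin n) (b : Fin 2)
    (d : Ed (Fin 2)) (hne : (z, b) ≠ (a0, (0 : Fin 2)))
    (he1 : edEquiv g e1 = dec (Sum.inr (Sum.inl (a0, 0))))
    (hf1 : edEquiv g f1 = dec (Sum.inl e0))
    (he2 : edEquiv g e2 = dec (Sum.inr (Sum.inl (z, b))))
    (hf2 : edEquiv g f2 = dec (Sum.inr (Sum.inr d))) :
    W (TS (V := Fin (n + 2))) (Fintype.card (Ed (Fin (n + 2))) - 4) true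
      (Function.update (Function.update (Function.update (Function.update
        (fun _ => St.free) e1 St.one) f1 St.two) e2 St.one) f2 St.two) := by
  set σ : Ed (Fin (n + 2)) ≃ Ed (Fin n) ⊕ ((Fin n × Fin 2) ⊕ Ed (Fin 2)) :=
    (edEquiv g).trans dec.symm with hσ
  have s1 : σ e1 = Sum.inr (Sum.inl (a0, 0)) := by
    rw [hσ, Equiv.trans_apply, he1, Equiv.symm_apply_apply]
  have s2 : σ f1 = Sum.inl e0 := by
    rw [hσ, Equiv.trans_apply, hf1, Equiv.symm_apply_apply]
  have s3 : σ e2 = Sum.inr (Sum.inl (z, b)) := by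
    rw [hσ, Equiv.trans_apply, he2, Equiv.symm_apply_apply]
  have s4 : σ f2 = Sum.inr (Sum.inr d) := by
    rw [hσ, Equiv.trans_apply, hf2, Equiv.symm_apply_apply]
  set p₁ : Ed (Fin n) → St := Function.update (fun _ => St.free) e0 St.two with hp₁
  set p₂ : (Fin n × Fin 2) ⊕ Ed (Fin 2) → St := Function.update (Function.update
    (Function.update (fun _ => St.free) (Sum.inl (a0, 0)) St.one) (Sum.inl (z, b)) St.one)
    (Sum.inr d) St.two with hp₂
  have hd : ∀ e : Ed (Fin 2), e = d := by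
    intro e
    apply Subtype.ext
    apply Sym2.ext
    intro b
    exact ⟨fun _ => Plus2_ed2 d b, fun _ => Plus2_ed2 e b⟩
  have hstart : (fun _ : Ed (Fin (n + 2)) => St.free) =
      fun x => (Sum.elim (fun _ => St.free) (fun _ => St.free) :
        Ed (Fin n) ⊕ ((Fin n × Fin 2) ⊕ Ed (Fin 2)) → St) (σ x) := by
    funext x
    rcases σ x with y | y <;> rfl
  have hpos : (Function.update (Function.update (Function.update (Function.update
        (fun _ => St.free) e1 St.one) f1 St.two) e2 St.one) f2 St.two) =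
      fun x => (Sum.elim p₁ p₂) (σ x) := by
    rw [hstart, Plus2_update σ _ e1 _ s1, Plus2_update σ _ f1 _ s2, Plus2_update σ _ e2 _ s3,
      Plus2_update σ _ f2 _ s4, Sum.update_elim_inr, Sum.update_elim_inl, Sum.update_elim_inr,
      Sum.update_elim_inr]
  rw [hpos]
  apply W_transfer σ (T' := Plus2_T n)
  · intro q hq
    exact TS_edEquiv g _ hq
  -- numbers of free elements
  have c1 : fc p₁ + 1 = Fintype.card (Ed (Fin n)) := by
    rw [hp₁, fc_update rfl (by decide), fc_free]
  have c2 : fc p₂ + 3 = Fintype.card ((Fin n × Fin 2) ⊕ Ed (Fin 2)) := by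
    have e3 : (fc (fun _ : (Fin n × Fin 2) ⊕ Ed (Fin 2) => St.free)) =
        Fintype.card ((Fin n × Fin 2) ⊕ Ed (Fin 2)) := by
      simp [fc]
    have k1 := fc_update (p := fun _ : (Fin n × Fin 2) ⊕ Ed (Fin 2) => St.free)
      (e := Sum.inl (a0, 0)) (s := St.one) rfl (by decide)
    have k2 := fc_update (p := Function.update (fun _ : (Fin n × Fin 2) ⊕ Ed (Fin 2) => St.free)
      (Sum.inl (a0, 0)) St.one) (e := Sum.inl (z, b)) (s := St.one) (by
        rw [Function.update_of_ne]
        intro h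
        exact hne (Sum.inl_injective h)) (by decide)
    have k3 := fc_update (p := Function.update (Function.update
      (fun _ : (Fin n × Fin 2) ⊕ Ed (Fin 2) => St.free)
      (Sum.inl (a0, 0)) St.one) (Sum.inl (z, b)) St.one) (e := Sum.inr d) (s := St.two) (by
        rw [Function.update_of_ne (by simp), Function.update_of_ne (by simp)]) (by decide)
    rw [← hp₂] at k3
    omega
  have c3 : Fintype.card (Ed (Fin (n + 2))) =
      Fintype.card (Ed (Fin n)) + Fintype.card ((Fin n × Fin 2) ⊕ Ed (Fin 2)) := by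
    rw [Fintype.card_congr σ, Fintype.card_sum]
  have c4 : Fintype.card (Ed (Fin (n + 2))) - 4 = fc p₁ + fc p₂ := by omega
  rw [c4]
  refine (W_sum (AA_mono n) TB2_mono (fun q₁ q₂ => Plus2_target n q₁ q₂) _ p₁ p₂ rfl).1 ?_ ?_
  · have c5 : Fintype.card (Ed (Fin n)) - 1 = fc p₁ := by omega
    rw [← c5]
    exact hW
  · refine b2 a0 z b hne p₂ ?_ ?_ ?_ ?_
    · rw [hp₂, Function.update_of_ne (by simp)]
      by_cases hz : (Sum.inl (a0, 0) : (Fin n × Fin 2) ⊕ Ed (Fin 2)) = Sum.inl (z, b)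
      · rw [hz, Function.update_self]
      · rw [Function.update_of_ne hz, Function.update_self]
    · rw [hp₂, Function.update_of_ne (by simp), Function.update_self]
    · intro e
      rw [hd e, hp₂, Function.update_self]
    · intro c i h1 h2
      rw [hp₂, Function.update_of_ne (by simp), Function.update_of_ne, Function.update_of_ne]
      · intro h
        exact h1 (Sum.inl_injective h)
      · intro h
        exact h2 (Sum.inl_injective h)

theorem Plus2_g (n : ℕ) (y a x w : Fin (n + 2)) (h1 : y ≠ a) (h2 : y ≠ x) (h3 : y ≠ w)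
    (h4 : a ≠ x) (h5 : a ≠ w) (h6 : x ≠ w) (a0 b0 : Fin n) (h7 : a0 ≠ b0) :
    ∃ g : Fin (n + 2) ≃ Fin n ⊕ Fin 2, g y = Sum.inr 0 ∧ g a = Sum.inr 1 ∧ g x = Sum.inl a0 ∧
      g w = Sum.inl b0 := by
  obtain ⟨g1, k1, -⟩ := fix_one (finSumFinEquiv (m := n) (n := 2)).symm y (Sum.inr 0)
  obtain ⟨g2, k2, k2'⟩ := fix_one g1 a (Sum.inr 1)
  obtain ⟨g3, k3, k3'⟩ := fix_one g2 x (Sum.inl a0)
  obtain ⟨g4, k4, k4'⟩ := fix_one g3 w (Sum.inl b0)
  have y2 : g2 y = Sum.inr 0 := by
    rw [k2' y h1 (by rw [k1]; simp), k1]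
  have y3 : g3 y = Sum.inr 0 := by
    rw [k3' y h2 (by rw [y2]; simp), y2]
  have a3 : g3 a = Sum.inr 1 := by
    rw [k3' a h4 (by rw [k2]; simp), k2]
  refine ⟨g4, ?_, ?_, ?_, k4⟩
  · rw [k4' y h3 (by rw [y3]; simp), y3]
  · rw [k4' a h5 (by rw [a3]; simp), a3]
  · rw [k4' x h6 (by rw [k3]; simp [h7]), k3]

theorem Plus2_ed {n : ℕ} (g : Fin (n + 2) ≃ Fin n ⊕ Fin 2) {x y : Fin (n + 2)}
    (h : ¬ (s(x, y)).IsDiag) : (edEquiv g ⟨s(x, y), h⟩).1 = s(g x, g y) := rfl

theorem Plus2_inr {n : ℕ} (g : Fin (n + 2) ≃ Fin n ⊕ Fin 2) {x y : Fin (n + 2)}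
    (h : ¬ (s(x, y)).IsDiag) {b : Fin 2} (hx : g x = Sum.inr b) (hy : ∀ i, g y ≠ Sum.inr i) :
    ∃ z, g y = Sum.inl z ∧ edEquiv g ⟨s(x, y), h⟩ = dec (Sum.inr (Sum.inl (z, b))) := by
  rcases hz : g y with z | i
  · refine ⟨z, rfl, ?_⟩
    apply Subtype.ext
    rw [Plus2_ed, hx, hz]
    exact Sym2.eq_swap
  · exact absurd hz (hy i)

theorem Plus2_choose (n : ℕ) (hn : 3 ≤ n) (S : Finset (Fin (n + 2))) (hS : S.card ≤ 4) :
    ∃ a, a ∉ S := by
  by_contra hcon
  push Not at hcon
  have h1 : (Finset.univ : Finset (Fin (n + 2))) ⊆ S := fun a _ => hcon a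
  have h2 := Finset.card_le_card h1
  rw [Finset.card_univ, Fintype.card_fin] at h2
  omega

theorem plus2 (n : ℕ) (hn : 3 ≤ n) (h : ¬ SW (Fin n)) : SW (Fin (n + 2)) := by
  classical
  -- the first edge of `K_n`
  have hK := kn_first n hn h
  have hne01 : ¬ (s((⟨0, by omega⟩ : Fin n), (⟨1, by omega⟩ : Fin n))).IsDiag := by
    simp
  have hKpos : 0 < Fintype.card (Ed (Fin n)) :=
    Fintype.card_pos_iff.2 ⟨⟨_, hne01⟩⟩
  obtain ⟨K', hK'⟩ : ∃ K', Fintype.card (Ed (Fin n)) = K' + 1 :=
    ⟨Fintype.card (Ed (Fin n)) - 1, by omega⟩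
  rw [hK'] at hK
  obtain ⟨e0, -, hW⟩ := hK
  have hW' : W (AA n) (Fintype.card (Ed (Fin n)) - 1) true
      (Function.update (fun _ => St.free) e0 St.two) := by
    rw [hK']
    exact hW
  obtain ⟨a0, b0, hab, he0⟩ : ∃ (a0 b0 : Fin n) (hab : ¬ (s(a0, b0)).IsDiag),
      e0 = ⟨s(a0, b0), hab⟩ := by
    obtain ⟨e, he⟩ := e0
    induction e using Sym2.ind with
    | _ x y => exact ⟨x, y, he, rfl⟩
  have hab' : a0 ≠ b0 := by
    intro h1
    exact hab (by simp [h1])
  have hd : ¬ (s((0 : Fin 2), (1 : Fin 2))).IsDiag := by simp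
  -- the number of edges
  have hN : 4 ≤ Fintype.card (Ed (Fin (n + 2))) := by
    have h1 : Fintype.card (Fin 4) ≤ Fintype.card (Ed (Fin (n + 2))) := by
      apply Fintype.card_le_of_injective
        (fun i : Fin 4 => (⟨s((⟨0, by omega⟩ : Fin (n + 2)), (⟨i.1 + 1, by omega⟩ : Fin (n + 2))),
          by simp⟩ : Ed (Fin (n + 2))))
      intro i j hij
      simp only [Subtype.mk.injEq, Sym2.eq_iff, Fin.mk.injEq, true_and] at hij
      apply Fin.ext
      omega
    simpa using h1
  obtain ⟨N, hN'⟩ : ∃ N, Fintype.card (Ed (Fin (n + 2))) = N + 4 :=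
    ⟨Fintype.card (Ed (Fin (n + 2))) - 4, by omega⟩
  -- the end of the game
  have hend := fun g e1 f1 e2 f2 z b hne he1 hf1 he2 hf2 =>
    Plus2_end n a0 e0 hW' g e1 f1 e2 f2 z b ⟨s(0, 1), hd⟩ hne he1 hf1 he2 hf2
  rw [hN'] at hend
  have hNN : N + 4 - 4 = N := by omega
  rw [hNN] at hend
  unfold SW
  rw [hN']
  -- first move of Player 1
  intro e1 _
  obtain ⟨y, x, hyx, he1⟩ : ∃ (y x : Fin (n + 2)) (hyx : ¬ (s(y, x)).IsDiag),
      e1 = ⟨s(y, x), hyx⟩ := by
    obtain ⟨e, he⟩ := e1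
    induction e using Sym2.ind with
    | _ x y => exact ⟨x, y, he, rfl⟩
  have hyx' : y ≠ x := by
    intro h1
    exact hyx (by simp [h1])
  obtain ⟨w, hw⟩ := Plus2_choose n hn {x, y} (Finset.card_le_two.trans (by omega))
  simp only [Finset.mem_insert, Finset.mem_singleton, not_or] at hw
  obtain ⟨hwx, hwy⟩ := hw
  have hxw : ¬ (s(x, w)).IsDiag := by
    simp only [Sym2.mk_isDiag_iff]
    exact fun h1 => hwx h1.symm
  -- the answer of Player 2
  refine ⟨⟨s(x, w), hxw⟩, ?_, ?_⟩
  · rw [Function.update_of_ne]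
    rw [he1]
    intro h1
    simp only [Subtype.mk.injEq, Sym2.eq_iff] at h1
    rcases h1 with h1 | h1
    · exact hyx' h1.1.symm
    · exact hwy h1.2
  -- second move of Player 1
  intro e2 hfree
  have hne1 : e2 ≠ e1 := by
    rintro rfl
    rw [Function.update_of_ne, Function.update_self] at hfree
    · exact absurd hfree (by decide)
    · rw [he1]
      intro h1
      simp only [Subtype.mk.injEq, Sym2.eq_iff] at h1
      rcases h1 with h1 | h1
      · exact hyx' h1.1
      · exact hwy h1.1.symm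
  have hne2 : e2 ≠ ⟨s(x, w), hxw⟩ := by
    intro h1
    rw [h1, Function.update_self] at hfree
    exact absurd hfree (by decide)
  -- it is enough to give `a`
  have key : ∀ (a : Fin (n + 2)) (hya : ¬ (s(y, a)).IsDiag), a ≠ x → a ≠ w →
      (⟨s(y, a), hya⟩ : Ed (Fin (n + 2))) ≠ e2 →
      (∃ (p q : Fin (n + 2)) (hpq : ¬ (s(p, q)).IsDiag),
        e2 = ⟨s(p, q), hpq⟩ ∧ ((p = y ∧ q ≠ a ∧ q ≠ x) ∨ (p = a ∧ q ≠ y))) →
      W (TS (V := Fin (n + 2))) (N + 1) false (Function.update (Function.update (Function.update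
        (fun _ => St.free) e1 St.one) ⟨s(x, w), hxw⟩ St.two) e2 St.one) := by
    rintro a hya hax haw hne3 ⟨p, q, hpq, he2, hcase⟩
    have hya' : y ≠ a := by
      intro h1
      exact hya (by simp [h1])
    have hpq' : p ≠ q := by
      intro h1
      exact hpq (by simp [h1])
    obtain ⟨g, g1, g2, g3, g4⟩ := Plus2_g n y a x w hya' hyx' (Ne.symm hwy) hax haw
      (Ne.symm hwx) a0 b0 hab'
    have hnr : ∀ v, v ≠ y → v ≠ a → ∀ i, g v ≠ Sum.inr i := by
      intro v hv1 hv2 i hi
      fin_cases i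
      · exact hv1 (g.injective (by rw [hi, g1]; rfl))
      · exact hv2 (g.injective (by rw [hi, g2]; rfl))
    refine ⟨⟨s(y, a), hya⟩, ?_, ?_⟩
    · rw [Function.update_of_ne hne3, Function.update_of_ne, Function.update_of_ne]
      · rw [he1]
        intro h1
        simp only [Subtype.mk.injEq, Sym2.eq_iff] at h1
        rcases h1 with h1 | h1
        · exact hax h1.2
        · exact hyx' h1.1
      · intro h1
        simp only [Subtype.mk.injEq, Sym2.eq_iff] at h1
        rcases h1 with h1 | h1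
        · exact hyx' h1.1
        · exact hwy h1.1.symm
    · obtain ⟨z1, hz1, hz1'⟩ := Plus2_inr g hyx (b := 0) g1 (hnr x hyx'.symm hax.symm)
      have hz1'' : z1 = a0 := Sum.inl_injective (hz1.symm.trans g3)
      rw [hz1''] at hz1'
      have hf1 : edEquiv g ⟨s(x, w), hxw⟩ = dec (Sum.inl e0) := by
        apply Subtype.ext
        rw [Plus2_ed, g3, g4, he0]
        rfl
      have hf2 : edEquiv g ⟨s(y, a), hya⟩ = dec (Sum.inr (Sum.inr ⟨s(0, 1), hd⟩)) := by
        apply Subtype.ext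
        rw [Plus2_ed, g1, g2]
        rfl
      rcases hcase with ⟨hp, hqa, hqx⟩ | ⟨hp, hqy⟩
      · have hqy : q ≠ y := by
          rw [← hp]
          exact hpq'.symm
        obtain ⟨z, hz, hz'⟩ := Plus2_inr g hpq (b := 0) (by rw [hp, g1]) (hnr q hqy hqa)
        apply hend g e1 _ e2 _ z 0 _ (by rw [he1]; exact hz1') hf1 (by rw [he2]; exact hz') hf2
        intro h1
        have h2 : z = a0 := congrArg Prod.fst h1
        apply hqx
        apply g.injective
        rw [hz, g3, h2]
      · have hqa : q ≠ a := by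
          rw [← hp]
          exact hpq'.symm
        obtain ⟨z, hz, hz'⟩ := Plus2_inr g hpq (b := 1) (by rw [hp, g2]) (hnr q hqy hqa)
        apply hend g e1 _ e2 _ z 1 _ (by rw [he1]; exact hz1') hf1 (by rw [he2]; exact hz') hf2
        intro h1
        have h2 : (1 : Fin 2) = 0 := congrArg Prod.snd h1
        exact absurd h2 (by decide)
  obtain ⟨e2v, he2d⟩ := e2
  by_cases hy : y ∈ e2v
  · obtain ⟨q, rfl⟩ := hy
    obtain ⟨a, ha⟩ := Plus2_choose n hn {x, w, y, q} Finset.card_le_four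
    simp only [Finset.mem_insert, Finset.mem_singleton, not_or] at ha
    obtain ⟨hax, haw, hay, haq⟩ := ha
    have hya : ¬ (s(y, a)).IsDiag := by
      simp only [Sym2.mk_isDiag_iff]
      exact fun h1 => hay h1.symm
    refine key a hya hax haw ?_ ⟨y, q, he2d, rfl, Or.inl ⟨rfl, Ne.symm haq, ?_⟩⟩
    · intro h1
      simp only [Subtype.mk.injEq, Sym2.eq_iff] at h1
      rcases h1 with h1 | h1
      · exact haq h1.2
      · exact hay h1.2
    · rintro rfl
      exact hne1 he1.symm
  · induction e2v using Sym2.ind with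
    | _ p q =>
      simp only [Sym2.mem_iff, not_or] at hy
      obtain ⟨hyp, hyq⟩ := hy
      have hpq' : p ≠ q := by
        intro h1
        exact he2d (by simp [h1])
      by_cases hp : p = x ∨ p = w
      · have hq : q ≠ x ∧ q ≠ w := by
          constructor
          · rintro rfl
            rcases hp with hp | hp
            · exact hpq' hp
            · apply hne2
              apply Subtype.ext
              change s(p, q) = s(q, w)
              rw [hp]
              exact Sym2.eq_swap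
          · rintro rfl
            rcases hp with hp | hp
            · apply hne2
              apply Subtype.ext
              change s(p, q) = s(x, q)
              rw [hp]
            · exact hpq' hp
        have hya : ¬ (s(y, q)).IsDiag := by
          simp only [Sym2.mk_isDiag_iff]
          exact hyq
        have hqp : ¬ (s(q, p)).IsDiag := by
          simp only [Sym2.mk_isDiag_iff]
          exact hpq'.symm
        refine key q hya hq.1 hq.2 ?_ ⟨q, p, hqp, Subtype.ext Sym2.eq_swap,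
          Or.inr ⟨rfl, Ne.symm hyp⟩⟩
        intro h1
        simp only [Subtype.mk.injEq, Sym2.eq_iff] at h1
        rcases h1 with h1 | h1
        · exact hyp h1.1
        · exact hyq h1.1
      · rw [not_or] at hp
        have hya : ¬ (s(y, p)).IsDiag := by
          simp only [Sym2.mk_isDiag_iff]
          exact hyp
        refine key p hya hp.1 hp.2 ?_ ⟨p, q, he2d, rfl, Or.inr ⟨rfl, Ne.symm hyq⟩⟩
        intro h1
        simp only [Subtype.mk.injEq, Sym2.eq_iff] at h1
        rcases h1 with h1 | h1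
        · exact hyp h1.1
        · exact hyq h1.1

end Pool.Agent.H34.ST

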