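import Pool.Agent.H34.ST.YS

/-!
# [H34 ST YO] the opening on the board `Y C` (helper34)

`chk k l t`: a finite computation which shows that Player 2 wins from a position whose touched
columns have the types `l`, all other columns being untouched, with inner edges `t`.
-/

namespace Pool.Agent.H34.ST

/-- type of a column, as a triple -/
abbrev C3 := St × St × St

def cget (x : C3) (i : Fin 3) : St :=
  match i with
  | 0 => x.1
  | 1 => x.2.1
  | 2 => x.2.2

def cset (x : C3) (i : Fin 3) (s : St) : C3 :=
  match i with
  | 0 => (s, x.2.1, x.2.2)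
  | 1 => (x.1, s, x.2.2)
  | 2 => (x.1, x.2.1, s)

theorem cget_cset (x : C3) (i : Fin 3) (s : St) :
    cget (cset x i s) = Function.update (cget x) i s := by
  funext j
  fin_cases i <;> fin_cases j <;> simp [cget, cset, Function.update]

def fresh3 : C3 := (St.free, St.free, St.free)

theorem cget_fresh3 : cget fresh3 = fun _ => St.free := by
  funext j
  fin_cases j <;> rfl

/-- all ways to take an element out of a list -/
def picks : List C3 → List (C3 × List C3)
  | [] => []
  | x :: l => (x, l) :: (picks l).map (fun y => (y.1, x :: y.2))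

def idx : List (Fin 3) := [0, 1, 2]

theorem mem_idx (i : Fin 3) : i ∈ idx := by
  fin_cases i <;> simp [idx]

def leafT (l : List C3) (t : C3) : Bool :=
  idx.any fun M =>
    okI M (cget t) && l.all (fun x => okc (cget x)) &&
    decide (l.length ≤ 2 * ((l.map (fun x => wTM M (cget x))).sum + iM M (cget t))
      + (l.map (fun x => wFM M (cget x))).sum) &&
    decide (l.length + 2 ≤ (l.map (fun x => wC M (cget x))).sum
      + (l.map (fun x => wTP M (cget x))).sum + (l.map (fun x => wFP M (cget x))).sum / 2
      + iP M (cget t))

def dl (l : List C3) (t : C3) (b : Fin 3) : ℤ :=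
  (l.map (fun x => sval (cget x b))).sum
    + (sval (cget t 0) + sval (cget t 1) + sval (cget t 2) - sval (cget t b))

def leafS (l : List C3) (t : C3) : Bool :=
  decide (nof St.free (cget t) = 0) &&
  l.all (fun x => safe (cget x) || fresh (cget x)) &&
  idx.any (fun A => idx.any (fun B => idx.any (fun D =>
    decide (A ≠ B) && decide (A ≠ D) && decide (B ≠ D) &&
    decide (dl l t A = 1) && decide (dl l t B = 1) && decide (dl l t D = 0))))

def leaf (s : List C3 × C3) : Bool := leafT s.1 s.2 || leafS s.1 s.2

/-- moves of a player (status `s`) in a column; `l'` = admissible (column, rest) pairs -/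
def moveC (s : St) (ch : List (C3 × List C3)) (t : C3) : List (List C3 × C3) :=
  ch.flatMap fun y => (idx.filter (fun i => cget y.1 i = St.free)).map
    (fun i => (cset y.1 i s :: y.2, t))

def moveI (s : St) (l : List C3) (t : C3) : List (List C3 × C3) :=
  (idx.filter (fun i => cget t i = St.free)).map (fun i => (l, cset t i s))

def ch1 (l : List C3) : List (C3 × List C3) := (fresh3, l) :: picks l
def ch2 (l : List C3) : List (C3 × List C3) :=
  picks l ++ (if l.length < 2 then [(fresh3, l)] else [])

def urgent (l : List C3) : Bool :=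
  l.any (fun x => decide (nof St.one (cget x) = 2) && decide (nof St.two (cget x) = 0))

def chk : ℕ → List C3 × C3 → Bool
  | 0, s => leaf s
  | k + 1, s => leaf s || decide (s.1.length < 2) &&
      (moveI St.one s.1 s.2 ++ moveC St.one (ch1 s.1) s.2).all (fun a =>
        (moveI St.two a.1 a.2 ++ moveC St.two (ch2 a.1) a.2).any leaf ||
        (if urgent a.1 then
          (moveC St.two (ch2 a.1) a.2).any (fun b => !urgent b.1 && chk k b)
        else (moveI St.two a.1 a.2).any (fun b => chk k b)))

theorem chk_start :
    chk 4 ([(St.one, St.free, St.free)], (St.free, St.free, St.free)) = true := by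
  decide +kernel

section
variable {C : Type*} [Fintype C] [DecidableEq C]

/-- the position `p` has the touched columns `al` (with their types) and the inner edges `t` -/
structure Rel (p : Y C → St) (al : List (C × C3)) (l : List C3) (t : C3) : Prop where
  nd : (al.map Prod.fst).Nodup
  hl : al.map Prod.snd = l
  hin : ∀ y ∈ al, ∀ i, p (Sum.inl (y.1, i)) = cget y.2 i
  hout : ∀ c, c ∉ al.map Prod.fst → ∀ i, p (Sum.inl (c, i)) = St.free
  ht : ∀ i, p (Sum.inr i) = cget t i

theorem Rel.itn_eq {p : Y C → St} {al : List (C × C3)} {l : List C3} {t : C3}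
    (h : Rel p al l t) : itn p = cget t := by
  funext i
  exact h.ht i

theorem Rel.col_in {p : Y C → St} {al : List (C × C3)} {l : List C3} {t : C3}
    (h : Rel p al l t) {y : C × C3} (hy : y ∈ al) : col p y.1 = cget y.2 := by
  funext i
  exact h.hin y hy i

theorem Rel.col_out {p : Y C → St} {al : List (C × C3)} {l : List C3} {t : C3}
    (h : Rel p al l t) {c : C} (hc : c ∉ al.map Prod.fst) : col p c = fun _ => St.free := by
  funext i
  exact h.hout c hc i

theorem Rel.length_le {p : Y C → St} {al : List (C × C3)} {l : List C3} {t : C3}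
    (h : Rel p al l t) : l.length ≤ Fintype.card C := by
  rw [← h.hl, List.length_map]
  have := h.nd.length_le_card
  simpa using this

theorem Rel.sum_eq {M : Type*} [AddCommMonoid M] {p : Y C → St} {al : List (C × C3)}
    {l : List C3} {t : C3} (h : Rel p al l t) (w : (Fin 3 → St) → M) :
    ∑ c, w (col p c) = (l.map (fun x => w (cget x))).sum
      + (Fintype.card C - l.length) • w (fun _ => St.free) := by
  classical
  rw [← Finset.sum_add_sum_compl (al.map Prod.fst).toFinset]
  congr 1
  · rw [List.sum_toFinset _ h.nd, ← h.hl, List.map_map, List.map_map]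
    congr 1
    apply List.map_congr_left
    intro y hy
    simp only [Function.comp]
    rw [h.col_in hy]
  · have h1 : ∀ c ∈ (al.map Prod.fst).toFinsetᶜ, w (col p c) = w (fun _ => St.free) := by
      intro c hc
      rw [h.col_out]
      simpa using hc
    rw [Finset.sum_congr rfl h1, Finset.sum_const, Finset.card_compl,
      List.toFinset_card_of_nodup h.nd, ← h.hl, List.length_map, List.length_map]

theorem mem_of_fc {p : Y C → St} {al : List (C × C3)} {l : List C3} {t : C3}
    (h : Rel p al l t) (c : C) : (∃ y ∈ al, col p c = cget y.2) ∨ col p c = fun _ => St.free := by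
  by_cases hc : c ∈ al.map Prod.fst
  · obtain ⟨y, hy, rfl⟩ := List.mem_map.mp hc
    exact Or.inl ⟨y, hy, h.col_in hy⟩
  · exact Or.inr (h.col_out hc)

theorem leafT_sound {p : Y C → St} {al : List (C × C3)} {l : List C3} {t : C3}
    (h : Rel p al l t) (hl : leafT l t = true) : W TB (fc p) true p := by
  unfold leafT at hl
  rw [List.any_eq_true] at hl
  obtain ⟨M, -, hM⟩ := hl
  simp only [Bool.and_eq_true, List.all_eq_true, decide_eq_true_eq] at hM
  obtain ⟨⟨⟨hI, hok⟩, h1⟩, h2⟩ := hM
  have hlen := h.length_le
  have e0 : ∀ i : Fin 3, wTM M (fun _ => St.free) = 0 := fun _ => by simp [wTM]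
  have f1 : wTM M (fun _ => St.free) = 0 := by simp [wTM]
  have f2 : wFM M (fun _ => St.free) = 1 := by simp [wFM, fresh, nof]
  have f3 : wC M (fun _ => St.free) = 1 := by simp [wC, safe, nofO, nof]
  have f4 : wTP M (fun _ => St.free) = 0 := by simp [wTP, nofO, nof]
  have f5 : wFP M (fun _ => St.free) = 0 := by simp [wFP, safe, nof]
  refine tlemma p M ?_ ?_ ?_ ?_
  · rw [h.itn_eq]; exact hI
  · intro c
    rcases mem_of_fc h c with ⟨y, hy, hc⟩ | hc
    · rw [hc]
      apply hok
      rw [← h.hl]
      exact List.mem_map_of_mem hy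
    · rw [hc]; simp [okc, nof]
  · rw [h.sum_eq (wTM M), h.sum_eq (wFM M), f1, f2, h.itn_eq]
    simp only [smul_eq_mul, mul_zero, mul_one, add_zero]
    omega
  · rw [h.sum_eq (wC M), h.sum_eq (wTP M), h.sum_eq (wFP M), f3, f4, f5, h.itn_eq]
    simp only [smul_eq_mul, mul_zero, mul_one, add_zero]
    omega

theorem leafS_sound {p : Y C → St} {al : List (C × C3)} {l : List C3} {t : C3}
    (h : Rel p al l t) (hl : leafS l t = true) : W TB (fc p) true p := by
  unfold leafS at hl
  simp only [Bool.and_eq_true, List.all_eq_true, List.any_eq_true, decide_eq_true_eq,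
    Bool.or_eq_true] at hl
  obtain ⟨⟨h1, h2⟩, A, -, B, -, D, -, ⟨⟨⟨⟨⟨hAB, hAD⟩, hBD⟩, dA⟩, dB⟩, dD⟩⟩ := hl
  have hdz : ∀ b, dz p b = dl l t b := by
    intro b
    unfold dz dl
    rw [h.sum_eq (fun τ => sval (τ b)), h.itn_eq]
    simp [sval]
  refine slemma p ?_ ?_ A B D hAB hAD hBD ?_ ?_ ?_
  · intro i hi
    rw [h.itn_eq] at hi
    unfold nof at h1
    fin_cases i <;> simp_all
  · intro c
    rcases mem_of_fc h c with ⟨y, hy, hc⟩ | hc
    · rw [hc]
      apply h2
      rw [← h.hl]
      exact List.mem_map_of_mem hy
    · rw [hc]; simp [fresh, nof]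
  · rw [hdz, dA]
  · rw [hdz, dB]
  · rw [hdz, dD]

theorem picks_of_mem {K : Type*} (al : List (K × C3)) (y : K × C3) (hy : y ∈ al) :
    ∃ al' : List (K × C3), (y.2, al'.map Prod.snd) ∈ picks (al.map Prod.snd) ∧
      (y :: al').Perm al := by
  induction al with
  | nil => simp at hy
  | cons z al ih =>
    rcases List.mem_cons.mp hy with rfl | hy
    · exact ⟨al, by simp [picks], List.Perm.refl _⟩
    · obtain ⟨al', h1, h2⟩ := ih hy
      refine ⟨z :: al', ?_, (List.Perm.swap z y al').trans (h2.cons z)⟩
      simp only [List.map_cons, picks, List.mem_cons, List.mem_map]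
      exact Or.inr ⟨_, h1, rfl⟩

theorem of_picks {K : Type*} (al : List (K × C3)) (x : C3) (rest : List C3)
    (h : (x, rest) ∈ picks (al.map Prod.snd)) :
    ∃ (c : K) (al' : List (K × C3)), al'.map Prod.snd = rest ∧ ((c, x) :: al').Perm al := by
  induction al generalizing x rest with
  | nil => simp [picks] at h
  | cons z al ih =>
    simp only [List.map_cons, picks, List.mem_cons, List.mem_map, Prod.mk.injEq] at h
    rcases h with ⟨rfl, rfl⟩ | ⟨⟨x', r'⟩, h1, h2, h3⟩
    · exact ⟨z.1, al, rfl, List.Perm.refl _⟩
    · simp only at h2 h3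
      subst h2
      obtain ⟨c, al', h4, h5⟩ := ih _ _ h1
      refine ⟨c, z :: al', ?_, (List.Perm.swap z (c, x') al').trans (h5.cons z)⟩
      rw [List.map_cons, h4, h3]

theorem Rel.perm {p : Y C → St} {al al' : List (C × C3)} {l : List C3} {t : C3}
    (h : Rel p al l t) (hp : al'.Perm al) : Rel p al' (al'.map Prod.snd) t where
  nd := ((hp.map Prod.fst).nodup_iff).mpr h.nd
  hl := rfl
  hin := fun y hy => h.hin y (hp.mem_iff.mp hy)
  hout := fun c hc => h.hout c (fun h' => hc ((hp.map Prod.fst).mem_iff.mpr h'))
  ht := h.ht

/-- a column of type `x` -/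
theorem Rel.cons_in {p : Y C → St} {al : List (C × C3)} {l : List C3} {t : C3}
    (h : Rel p al l t) {x : C3} {rest : List C3} (hx : (x, rest) ∈ picks l) :
    ∃ c al', Rel p ((c, x) :: al') (x :: rest) t := by
  rw [← h.hl] at hx
  obtain ⟨c, al', h1, h2⟩ := of_picks al x rest hx
  refine ⟨c, al', ?_⟩
  have := h.perm h2
  rwa [List.map_cons, h1] at this

theorem Rel.cons_mem {p : Y C → St} {al : List (C × C3)} {l : List C3} {t : C3}
    (h : Rel p al l t) {c : C} (hc : c ∈ al.map Prod.fst) :
    ∃ x al' rest, (x, rest) ∈ picks l ∧ Rel p ((c, x) :: al') (x :: rest) t := by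
  obtain ⟨y, hy, rfl⟩ := List.mem_map.mp hc
  obtain ⟨al', h1, h2⟩ := picks_of_mem al y hy
  refine ⟨y.2, al', al'.map Prod.snd, h.hl ▸ h1, ?_⟩
  have := h.perm h2
  rwa [List.map_cons] at this

theorem Rel.cons_fresh {p : Y C → St} {al : List (C × C3)} {l : List C3} {t : C3}
    (h : Rel p al l t) {c : C} (hc : c ∉ al.map Prod.fst) :
    Rel p ((c, fresh3) :: al) (fresh3 :: l) t where
  nd := by
    rw [List.map_cons, List.nodup_cons]
    exact ⟨hc, h.nd⟩
  hl := by rw [List.map_cons, h.hl]
  hin := by
    intro y hy i
    rcases List.mem_cons.mp hy with rfl | hy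
    · rw [cget_fresh3]; exact h.hout _ hc i
    · exact h.hin y hy i
  hout := by
    intro c' hc' i
    rw [List.map_cons, List.mem_cons, not_or] at hc'
    exact h.hout c' hc'.2 i
  ht := h.ht

theorem Rel.updC {p : Y C → St} {al : List (C × C3)} {rest : List C3} {t : C3} {c : C} {x : C3}
    (h : Rel p ((c, x) :: al) (x :: rest) t) (i : Fin 3) (s : St) :
    Rel (Function.update p (Sum.inl (c, i)) s) ((c, cset x i s) :: al) (cset x i s :: rest) t where
  nd := by simpa using h.nd
  hl := by
    have := h.hl
    simp only [List.map_cons, List.cons.injEq, true_and] at this ⊢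
    exact this
  hin := by
    intro y hy j
    have hnd := h.nd
    rw [List.map_cons, List.nodup_cons] at hnd
    rcases List.mem_cons.mp hy with rfl | hy
    · simp only [cget_cset]
      by_cases hj : j = i
      · subst hj; simp
      · rw [Function.update_of_ne hj, Function.update_of_ne (by simpa using hj)]
        exact h.hin (c, x) (by simp) j
    · have hne : y.1 ≠ c := by
        intro he
        apply hnd.1
        rw [← he]
        exact List.mem_map.mpr ⟨y, hy, rfl⟩
      rw [Function.update_of_ne (by simp [hne])]
      exact h.hin y (List.mem_cons_of_mem _ hy) j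
  hout := by
    intro c' hc' j
    rw [List.map_cons, List.mem_cons, not_or] at hc'
    rw [Function.update_of_ne (by simp only [ne_eq, Sum.inl.injEq, Prod.mk.injEq, not_and]
                                  intro h'; exact absurd h' hc'.1)]
    refine h.hout c' ?_ j
    rw [List.map_cons, List.mem_cons, not_or]
    exact hc'
  ht := by
    intro j
    rw [Function.update_of_ne (by simp)]
    exact h.ht j

theorem Rel.updI {p : Y C → St} {al : List (C × C3)} {l : List C3} {t : C3}
    (h : Rel p al l t) (i : Fin 3) (s : St) :
    Rel (Function.update p (Sum.inr i) s) al l (cset t i s) where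
  nd := h.nd
  hl := h.hl
  hin := by
    intro y hy j
    rw [Function.update_of_ne (by simp)]
    exact h.hin y hy j
  hout := by
    intro c' hc' j
    rw [Function.update_of_ne (by simp)]
    exact h.hout c' hc' j
  ht := by
    intro j
    rw [cget_cset]
    by_cases hj : j = i
    · subst hj; simp
    · rw [Function.update_of_ne hj, Function.update_of_ne (by simpa using hj)]
      exact h.ht j

theorem win2_of {T : (Y C → St) → Prop} {q : Y C → St} {e : Y C} (he : q e = St.free)
    (h : W T (fc (Function.update q e St.two)) true (Function.update q e St.two)) :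
    W T (fc q) false q := by
  have h1 : fc (Function.update q e St.two) + 1 = fc q := fc_update he (by decide)
  rw [← h1]
  exact ⟨e, he, h⟩

theorem win1_of {T : (Y C → St) → Prop} {q : Y C → St} (he : ∃ e, q e = St.free)
    (h : ∀ e, q e = St.free →
      W T (fc (Function.update q e St.one)) false (Function.update q e St.one)) :
    W T (fc q) true q := by
  obtain ⟨e0, he0⟩ := he
  have h1 : fc (Function.update q e0 St.one) + 1 = fc q := fc_update he0 (by decide)
  rw [← h1]
  intro e he
  have h2 : fc (Function.update q e St.one) + 1 = fc q := fc_update he (by decide)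
  have h3 := h e he
  have h4 : fc (Function.update q e St.one) = fc (Function.update q e0 St.one) := by omega
  rwa [h4] at h3

theorem leaf_sound {p : Y C → St} {al : List (C × C3)} {s : List C3 × C3}
    (h : Rel p al s.1 s.2) (hl : leaf s = true) : W TB (fc p) true p := by
  unfold leaf at hl
  rcases (Bool.or_eq_true _ _).mp hl with h1 | h1
  · exact leafT_sound h h1
  · exact leafS_sound h h1

/-- an answer of Player 2 on an inner edge -/
theorem ansI {q : Y C → St} {al : List (C × C3)} {l : List C3} {t : C3}
    (h : Rel q al l t) {b : List C3 × C3} (hb : b ∈ moveI St.two l t)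
    (hw : ∀ (p : Y C → St) (al : List (C × C3)), Rel p al b.1 b.2 → W TB (fc p) true p) :
    W TB (fc q) false q := by
  unfold moveI at hb
  simp only [List.mem_map, List.mem_filter, decide_eq_true_eq] at hb
  obtain ⟨i, ⟨-, hi⟩, rfl⟩ := hb
  refine win2_of (e := Sum.inr i) (by rw [h.ht i, hi]) ?_
  exact hw _ _ (h.updI i St.two)

/-- an answer of Player 2 in a column -/
theorem ansC {q : Y C → St} {al : List (C × C3)} {l : List C3} {t : C3} (hC : 2 ≤ Fintype.card C)
    (h : Rel q al l t) {b : List C3 × C3} (hb : b ∈ moveC St.two (ch2 l) t)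
    (hw : ∀ (p : Y C → St) (al : List (C × C3)), Rel p al b.1 b.2 → W TB (fc p) true p) :
    W TB (fc q) false q := by
  unfold moveC at hb
  simp only [List.mem_flatMap, List.mem_map, List.mem_filter, decide_eq_true_eq] at hb
  obtain ⟨⟨x, rest⟩, hx, i, ⟨-, hi⟩, rfl⟩ := hb
  have key : ∃ c al', Rel q ((c, x) :: al') (x :: rest) t := by
    unfold ch2 at hx
    rcases List.mem_append.mp hx with hx | hx
    · exact h.cons_in hx
    · split_ifs at hx with hlen
      · simp only [List.mem_singleton, Prod.mk.injEq] at hx
        obtain ⟨rfl, rfl⟩ := hx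
        have : ∃ c, c ∉ al.map Prod.fst := by
          by_contra hcon
          push Not at hcon
          have h1 : (Finset.univ : Finset C) ⊆ (al.map Prod.fst).toFinset := by
            intro c _
            simpa using hcon c
          have h2 := Finset.card_le_card h1
          rw [Finset.card_univ, List.toFinset_card_of_nodup h.nd, List.length_map] at h2
          have h3 := congrArg List.length h.hl
          rw [List.length_map] at h3
          omega
        obtain ⟨c, hc⟩ := this
        exact ⟨c, al, h.cons_fresh hc⟩
      · simp at hx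
  obtain ⟨c, al', h'⟩ := key
  refine win2_of (e := Sum.inl (c, i)) (by rw [h'.hin (c, x) (by simp) i, hi]) ?_
  exact hw _ _ (h'.updC i St.two)

theorem chk_sound (hC : 2 ≤ Fintype.card C) : ∀ (k : ℕ) (s : List C3 × C3), chk k s = true →
    ∀ (p : Y C → St) (al : List (C × C3)), Rel p al s.1 s.2 → W TB (fc p) true p := by
  intro k
  induction k with
  | zero => intro s hs p al h; exact leaf_sound h hs
  | succ k ih =>
    intro s hs p al h
    rw [chk, Bool.or_eq_true, Bool.and_eq_true, decide_eq_true_eq] at hs
    rcases hs with hs | ⟨hlen, hs⟩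
    · exact leaf_sound h hs
    rw [List.all_eq_true] at hs
    -- answers
    have ans : ∀ (q : Y C → St) (al : List (C × C3)) (a : List C3 × C3), Rel q al a.1 a.2 →
        a ∈ moveI St.one s.1 s.2 ++ moveC St.one (ch1 s.1) s.2 → W TB (fc q) false q := by
      intro q al a hq ha
      have h1 := hs a ha
      rw [Bool.or_eq_true] at h1
      rcases h1 with h1 | h1
      · rw [List.any_eq_true] at h1
        obtain ⟨b, hb, hlf⟩ := h1
        rcases List.mem_append.mp hb with hb | hb
        · exact ansI hq hb (fun p al hp => leaf_sound hp hlf)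
        · exact ansC hC hq hb (fun p al hp => leaf_sound hp hlf)
      · split_ifs at h1
        · rw [List.any_eq_true] at h1
          obtain ⟨b, hb, hc⟩ := h1
          rw [Bool.and_eq_true] at hc
          exact ansC hC hq hb (fun p al hp => ih b hc.2 p al hp)
        · rw [List.any_eq_true] at h1
          obtain ⟨b, hb, hc⟩ := h1
          exact ansI hq hb (fun p al hp => ih b hc p al hp)
    refine win1_of ?_ ?_
    · have : ∃ c, c ∉ al.map Prod.fst := by
        by_contra hcon
        push Not at hcon
        have h1 : (Finset.univ : Finset C) ⊆ (al.map Prod.fst).toFinset := by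
          intro c _
          simpa using hcon c
        have h2 := Finset.card_le_card h1
        rw [Finset.card_univ, List.toFinset_card_of_nodup h.nd, List.length_map] at h2
        have h3 := congrArg List.length h.hl
        rw [List.length_map] at h3
        omega
      obtain ⟨c, hc⟩ := this
      exact ⟨Sum.inl (c, 0), h.hout c hc 0⟩
    · rintro (⟨c, i⟩ | i) he
      · by_cases hc : c ∈ al.map Prod.fst
        · obtain ⟨x, al', rest, hx, h'⟩ := h.cons_mem hc
          have hfr : cget x i = St.free := by
            rw [← h'.hin (c, x) (by simp) i]; exact he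
          refine ans _ _ (cset x i St.one :: rest, s.2) (h'.updC i St.one) ?_
          refine List.mem_append_right _ ?_
          unfold moveC
          simp only [List.mem_flatMap, List.mem_map, List.mem_filter, decide_eq_true_eq]
          exact ⟨(x, rest), List.mem_cons_of_mem _ hx, i, ⟨mem_idx i, hfr⟩, rfl⟩
        · have h' := h.cons_fresh hc
          refine ans _ _ (cset fresh3 i St.one :: s.1, s.2) (h'.updC i St.one) ?_
          refine List.mem_append_right _ ?_
          unfold moveC
          simp only [List.mem_flatMap, List.mem_map, List.mem_filter, decide_eq_true_eq]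
          refine ⟨(fresh3, s.1), List.mem_cons_self, i, ⟨mem_idx i, ?_⟩, rfl⟩
          rw [cget_fresh3]
      · have hfr : cget s.2 i = St.free := by rw [← h.ht i]; exact he
        refine ans _ _ (s.1, cset s.2 i St.one) (h.updI i St.one) ?_
        refine List.mem_append_left _ ?_
        unfold moveI
        simp only [List.mem_map, List.mem_filter, decide_eq_true_eq]
        exact ⟨i, ⟨mem_idx i, hfr⟩, rfl⟩

theorem b3 (c0 : C) (hC : 2 ≤ Fintype.card C) :
    W TB (fc (Function.update (fun _ : Y C => St.free) (Sum.inl (c0, 0)) St.one)) true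
      (Function.update (fun _ : Y C => St.free) (Sum.inl (c0, 0)) St.one) := by
  refine chk_sound hC 4 _ chk_start _ [(c0, (St.one, St.free, St.free))] ?_
  refine ⟨by simp, rfl, ?_, ?_, ?_⟩
  · intro y hy i
    rw [List.mem_singleton] at hy
    subst hy
    fin_cases i <;> simp [cget]
  · intro c hc i
    rw [List.map_cons, List.map_nil, List.mem_singleton] at hc
    rw [Function.update_of_ne (by simp [hc])]
  · intro i
    fin_cases i <;> simp [cget]

end

end Pool.Agent.H34.ST
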