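import Pool.Agent.H34.ST.Red
import Pool.Agent.H34.ST.Kn
import Pool.Agent.H34.ST.SumG
import Pool.Agent.H34.ST.YO

/-!
# [H34 ST PLUS3] three extra vertices

By `reduce` (k = 3, `x0 = 0`, `b0 = 0`) and `W_transfer` along
`σ : Ed (C ⊕ Fin 3) ≃ Ed C ⊕ Y C`, `C = Fin n` (`dec.symm` followed by `opp3` on the last component) the
board is `Ed C ⊕ Y C` and the position after the first edge of Player 1 is
`Sum.elim (all free) (free except inl (0, 0) := one)`.  `W_sum`, second claim, with `T₁ = AA n`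
(`kn_first`, `AA_mono`) and `T₂ = TB` (`b3`, `TB_mono`).
End: `u`, `D = dg q₁ two u` from `AA`; `n + 1 ≤ D + n / 2` as `n % 4 ≠ 3`.
* `v = inl c`: `dg one ≤ D - 1 + 2` (not all three edges of the column belong to Player 1) and
  `dg two (inl u) ≥ D + 1` (the column of `u` has an edge of Player 2).
* `v = inr b`: `dg one = n + 2 - y2 q₂ b` (`dg_add`, `dg two (inr b) = y2 q₂ b` by `dg_dec_inr`,
  `opp3_dg`).  If `n / 2 ≤ y2 q₂ b` then `dg one ≤ n + 2 - n / 2 ≤ D + 1 ≤ dg two (inl u)`.  If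
  `n + 2 ≤ y2 q₂ b + y2 q₂ b'` then `dg one ≤ y2 q₂ b' = dg two (inr b')`.
-/

namespace Pool.Agent.H34.ST

/-- the three edges of `K_3` are numbered by the opposite vertex -/
def opp3Fun (i : Fin 3) : Ed (Fin 3) := ⟨s(i + 1, i + 2), by
  simp only [Sym2.isDiag_iff_proj_eq]; fin_cases i <;> decide⟩

theorem opp3_bijective : Function.Bijective opp3Fun := by
  decide

noncomputable def opp3 : Fin 3 ≃ Ed (Fin 3) := Equiv.ofBijective opp3Fun opp3_bijective

theorem opp3_mem (i b : Fin 3) : b ∈ (opp3 i).1 ↔ i ≠ b := by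
  have h : ∀ i b : Fin 3, b ∈ (opp3Fun i).1 ↔ i ≠ b := by decide
  exact h i b

theorem opp3_dg (q : Ed (Fin 3) → St) (s : St) (b : Fin 3) :
    dg q s b = (Finset.univ.filter (fun i : Fin 3 => i ≠ b ∧ q (opp3 i) = s)).card := by
  unfold dg
  symm
  apply Finset.card_equiv opp3
  intro i
  simp only [Finset.mem_filter, Finset.mem_univ, true_and, opp3_mem]

/-- the board of the three extra vertices -/
noncomputable def sig3 (n : ℕ) : Ed (Fin n ⊕ Fin 3) ≃ Ed (Fin n) ⊕ Y (Fin n) :=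
  dec.symm.trans (Equiv.sumCongr (Equiv.refl _) (Equiv.sumCongr (Equiv.refl _) opp3.symm))

theorem sig3_inl (n : ℕ) (e : Ed (Fin n)) : sig3 n (dec (Sum.inl e)) = Sum.inl e := by
  simp [sig3]

theorem sig3_mid (n : ℕ) (x : Fin n × Fin 3) :
    sig3 n (dec (Sum.inr (Sum.inl x))) = Sum.inr (Sum.inl x) := by
  simp [sig3]

theorem sig3_inr (n : ℕ) (e : Ed (Fin 3)) :
    sig3 n (dec (Sum.inr (Sum.inr e))) = Sum.inr (Sum.inr (opp3.symm e)) := by
  simp [sig3]

theorem plus3_target (n : ℕ) (h3 : n % 4 ≠ 3) (q₁ : Ed (Fin n) → St) (q₂ : Y (Fin n) → St)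
    (h1 : AA n q₁) (h2 : TB q₂) : TS (fun e => Sum.elim q₁ q₂ (sig3 n e)) := by
  obtain ⟨a0, u, a1, a2, a3⟩ := h1
  obtain ⟨t0, t1, t2⟩ := h2
  have a3 := a3 h3
  obtain ⟨Q, hQ⟩ : ∃ Q : Ed (Fin n ⊕ Fin 3) → St, Q = fun e => Sum.elim q₁ q₂ (sig3 n e) :=
    ⟨_, rfl⟩
  have e1 : ∀ (s : St) (c : Fin n), dg Q s (Sum.inl c) = dg q₁ s c +
      (Finset.univ.filter (fun b : Fin 3 => q₂ (Sum.inl (c, b)) = s)).card := by
    intro s c
    rw [dg_dec_inl, hQ]
    simp only [sig3_inl, sig3_mid, Sum.elim_inl, Sum.elim_inr]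
  have e2 : ∀ (b : Fin 3), dg Q St.two (Sum.inr b) = y2 q₂ b := by
    intro b
    rw [dg_dec_inr, opp3_dg, hQ]
    simp only [sig3_mid, sig3_inr, Sum.elim_inr, Equiv.symm_apply_apply]
    rfl
  have e3 : ∀ e, Q e ≠ St.free := by
    intro e
    rw [hQ]
    rcases hs : sig3 n e with x | x
    · simp only [hs, Sum.elim_inl]
      exact a0 x
    · simp only [hs, Sum.elim_inr]
      exact t0 x
  have e4 : dg q₁ St.two u + 1 ≤ dg Q St.two (Sum.inl u) := by
    rw [e1]
    obtain ⟨b, hb⟩ := t1 u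
    have : 0 < (Finset.univ.filter (fun b : Fin 3 => q₂ (Sum.inl (u, b)) = St.two)).card :=
      Finset.card_pos.mpr ⟨b, by simp [hb]⟩
    omega
  rw [← hQ]
  rintro (c | b)
  · refine ⟨Sum.inl u, le_trans ?_ e4⟩
    rw [e1]
    obtain ⟨b, hb⟩ := t1 c
    have h5 := a1 c
    have h6 : (Finset.univ.filter (fun b : Fin 3 => q₂ (Sum.inl (c, b)) = St.one)).card ≤
        (Finset.univ.erase b).card := by
      apply Finset.card_le_card
      intro x hx
      rw [Finset.mem_filter] at hx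
      rw [Finset.mem_erase]
      refine ⟨?_, Finset.mem_univ _⟩
      rintro rfl
      rw [hb] at hx
      exact absurd hx.2 (by decide)
    rw [Finset.card_erase_of_mem (Finset.mem_univ _), Finset.card_univ, Fintype.card_fin] at h6
    omega
  · have h5 := dg_add e3 (Sum.inr b)
    rw [e2, Fintype.card_sum, Fintype.card_fin, Fintype.card_fin] at h5
    rcases t2 b with h6 | ⟨b', h6⟩
    · rw [Fintype.card_fin] at h6
      exact ⟨Sum.inl u, by omega⟩
    · rw [Fintype.card_fin] at h6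
      exact ⟨Sum.inr b', by rw [e2]; omega⟩

theorem plus3 (n : ℕ) (hn : 4 ≤ n) (h3 : n % 4 ≠ 3) (h : ¬ SW (Fin n)) : SW (Fin (n + 3)) := by
  have hn0 : 0 < n := by omega
  obtain ⟨x0, hx0⟩ : ∃ x0 : Fin n, x0 = ⟨0, hn0⟩ := ⟨_, rfl⟩
  refine reduce n 3 x0 0 ?_
  obtain ⟨p1, hp1⟩ : ∃ p1 : Ed (Fin n) → St, p1 = fun _ => St.free := ⟨_, rfl⟩
  obtain ⟨p2, hp2⟩ : ∃ p2 : Y (Fin n) → St,
      p2 = Function.update (fun _ : Y (Fin n) => St.free) (Sum.inl (x0, 0)) St.one := ⟨_, rfl⟩
  have c1 : fc p1 = Fintype.card (Ed (Fin n)) := by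
    rw [hp1, fc_free]
  have c2 : fc p2 + 1 = Fintype.card (Y (Fin n)) := by
    rw [hp2, fc_update rfl (by decide)]
    simp [fc]
  have c3 : Fintype.card (Ed (Fin n ⊕ Fin 3)) =
      Fintype.card (Ed (Fin n)) + Fintype.card (Y (Fin n)) := by
    rw [Fintype.card_congr (sig3 n), Fintype.card_sum]
  have hk : fc p1 + fc p2 = Fintype.card (Ed (Fin n ⊕ Fin 3)) - 1 := by omega
  have w1 : W (AA n) (fc p1) false p1 := by
    rw [c1, hp1]
    exact kn_first n (by omega) h
  have w2 : W TB (fc p2) true p2 := by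
    rw [hp2]
    exact b3 x0 (by rw [Fintype.card_fin]; omega)
  have w3 := (W_sum (T := fun q => TS (fun e => q (sig3 n e))) (AA_mono n) TB_mono
    (plus3_target n h3) _ p1 p2 hk).2.1 w1 w2
  have w4 := W_transfer (sig3 n) (T := TS) (T' := fun q => TS (fun e => q (sig3 n e)))
    (fun q hq => hq) _ _ _ w3
  convert w4 using 1
  funext e
  obtain ⟨x, rfl⟩ := (dec (C := Fin n) (B := Fin 3)).surjective e
  rcases x with x | x | x
  · rw [sig3_inl, Sum.elim_inl, hp1, Function.update_of_ne]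
    intro h
    have := dec.injective h
    simp at this
  · rw [sig3_mid, Sum.elim_inr, hp2]
    by_cases hx : x = (x0, 0)
    · rw [hx, Function.update_self, Function.update_self]
    · rw [Function.update_of_ne, Function.update_of_ne]
      · intro h
        exact hx (Sum.inl_injective h)
      · intro h
        have := dec.injective h
        exact hx (Sum.inl_injective (Sum.inr_injective this))
  · rw [sig3_inr, Sum.elim_inr, hp2, Function.update_of_ne, Function.update_of_ne]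
    · intro h
      simp at h
    · intro h
      have := dec.injective h
      simp at this

end Pool.Agent.H34.ST
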