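import Pool.Agent.H34.ST.Swap
import Pool.Agent.H34.ST.BEq
import Pool.Agent.H34.ST.BDec

/-!
# [H34 ST RED] symmetry: the first edge of Player 1 may be chosen

`Fintype.card (Ed (Fin (n + k)))` is positive (there is an edge: it equals the card of
`Ed (Fin n ⊕ Fin k)` by `edEquiv`), so `SW` says: for every edge `e` Player 2 wins after `e := one`.
Write `e = s(y, x)`; by `fix_one` (used twice, starting from `finSumFinEquiv.symm`) there is
`g : Fin (n + k) ≃ Fin n ⊕ Fin k` with `g y = inr b0`, `g x = inl x0`, so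
`edEquiv g e = dec (inr (inl (x0, b0)))`.  Use `W_transfer (edEquiv g)`, `TS_edEquiv`.
-/

namespace Pool.Agent.H34.ST

theorem card_Ed_congr {V V' : Type*} [Fintype V] [DecidableEq V] [Fintype V'] [DecidableEq V']
    (g : V ≃ V') : Fintype.card (Ed V) = Fintype.card (Ed V') :=
  Fintype.card_congr (edEquiv g)

theorem reduce (n k : ℕ) (x0 : Fin n) (b0 : Fin k)
    (h : W (TS (V := Fin n ⊕ Fin k)) (Fintype.card (Ed (Fin n ⊕ Fin k)) - 1) false
      (Function.update (fun _ => St.free) (dec (Sum.inr (Sum.inl (x0, b0)))) St.one)) :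
    SW (Fin (n + k)) := by
  unfold SW
  have hcard : Fintype.card (Ed (Fin (n + k))) = Fintype.card (Ed (Fin n ⊕ Fin k)) :=
    card_Ed_congr finSumFinEquiv.symm
  have hpos : 0 < Fintype.card (Ed (Fin n ⊕ Fin k)) :=
    Fintype.card_pos_iff.2 ⟨dec (Sum.inr (Sum.inl (x0, b0)))⟩
  obtain ⟨m, hm⟩ : ∃ m, Fintype.card (Ed (Fin n ⊕ Fin k)) = m + 1 :=
    ⟨Fintype.card (Ed (Fin n ⊕ Fin k)) - 1, by omega⟩
  rw [hcard, hm]
  rw [hm, Nat.add_sub_cancel] at h
  intro e _
  obtain ⟨e, he⟩ := e
  induction e using Sym2.ind with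
  | _ x y =>
    have hxy : x ≠ y := by simpa using he
    obtain ⟨g1, hg1, hg1'⟩ := fix_one (finSumFinEquiv.symm : Fin (n + k) ≃ Fin n ⊕ Fin k) y
      (Sum.inr b0)
    obtain ⟨g, hg, hg'⟩ := fix_one g1 x (Sum.inl x0)
    have hgy : g y = Sum.inr b0 := by
      rw [hg' y (Ne.symm hxy) (by rw [hg1]; exact Sum.inr_ne_inl), hg1]
    have hed : edEquiv g ⟨s(x, y), he⟩ = dec (Sum.inr (Sum.inl (x0, b0))) := by
      apply Subtype.ext
      show Sym2.map g s(x, y) = s(Sum.inl x0, Sum.inr b0)
      rw [Sym2.map_mk, hg, hgy]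
    have h1 := W_transfer (edEquiv g) (T := TS (V := Fin (n + k))) (T' := TS (V := Fin n ⊕ Fin k))
      (fun q hq => TS_edEquiv g q hq) m false _ h
    have h2 : (fun e => Function.update (fun _ : Ed (Fin n ⊕ Fin k) => St.free)
        (dec (Sum.inr (Sum.inl (x0, b0)))) St.one (edEquiv g e)) =
        Function.update (fun _ => St.free) (⟨s(x, y), he⟩ : Ed (Fin (n + k))) St.one := by
      funext e
      rw [← hed]
      by_cases hh : e = ⟨s(x, y), he⟩
      · rw [hh, Function.update_self, Function.update_self]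
      · rw [Function.update_of_ne hh, Function.update_of_ne]
        intro h3
        exact hh ((edEquiv g).injective h3)
    rw [h2] at h1
    exact h1

end Pool.Agent.H34.ST
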