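import Pool.Agent.H34.ST.Basic

/-!
# [H34 ST TEMPO] monotonicity of claiming games

`extra_tempo`: both parts together by induction on `k` (strategy stealing).
Part 2 for `k` from parts 1, 2 for smaller values.  Let `W T (k+1) true p`, `p e` free; to show:
`W T k true (p, e := two)`.  If `k = 0`: the hypothesis with Player 1 taking `e` gives `T (p, e := one)`,
and `T` is monotone.  If `k = k'+1`: Player 1 takes `f ≠ e` (free).  By hypothesis
`W T (k'+1) false (p, f := one)`, so there is `g` free with `W T k' true (p, f := one, g := two)`.
If `g = e`: use part 1 for `k'` (`W .. true → W .. false`).  If `g ≠ e`: then `k' = k''+1` (because
`e` is still free), part 2 for `k''` gives `W T k'' true (p, f := one, g := two, e := two)`, so Player 2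
may answer `g` in the position `(p, e := two, f := one)` (`Function.update_comm`).
Part 1 for `k`: `k = 0` trivial; `k = k'+1`: there is a free element `e` (`fc p = k'+1`), and part 2
for `k'` gives `W T k' true (p, e := two)`.  The numbers of free elements are controlled by
`fc_update`.
-/

namespace Pool.Agent.H34.ST

section
variable {E : Type*} [DecidableEq E]

/-- An extra element for Player 2 does not hurt him (`extra`), and it is an advantage to be on
move (`tempo`). -/
theorem extra_tempo [Fintype E] {T : (E → St) → Prop} (hT : Mono T) :
    ∀ (k : ℕ) (p : E → St),
      (fc p = k → W T k true p → W T k false p) ∧
      (fc p = k + 1 → W T (k + 1) true p → ∀ e, p e = St.free →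
        W T k true (Function.update p e St.two)) := by
  classical
  intro k
  induction k using Nat.strong_induction_on with
  | _ k ih =>
    intro p
    constructor
    · intro hk hW
      cases k with
      | zero => exact hW
      | succ k =>
        have h1 : 0 < (Finset.univ.filter (fun e => p e = St.free)).card := by
          have : fc p = (Finset.univ.filter (fun e => p e = St.free)).card := rfl
          omega
        obtain ⟨e, he⟩ := Finset.card_pos.mp h1
        have he' : p e = St.free := (Finset.mem_filter.mp he).2
        exact ⟨e, he', (ih k (by omega) p).2 hk hW e he'⟩
    · intro hk hW e he
      cases k with
      | zero =>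
        have h1 : T (Function.update p e St.one) := hW e he
        refine hT _ _ ?_ h1
        intro x
        by_cases hx : x = e
        · subst hx; right; simp
        · left; simp [hx]
      | succ k =>
        intro f hf
        have hfe : f ≠ e := by
          rintro rfl
          simp at hf
        have hf' : p f = St.free := by
          rwa [Function.update_of_ne hfe] at hf
        obtain ⟨g, hg, hgW⟩ := hW f hf'
        have hgf : g ≠ f := by
          rintro rfl
          simp at hg
        have c1 : fc (Function.update p f St.one) = k + 1 := by
          have := fc_update (p := p) (e := f) (s := St.one) hf' (by decide)
          omega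
        have c2 : fc (Function.update (Function.update p f St.one) g St.two) = k := by
          have := fc_update (p := Function.update p f St.one) (e := g) (s := St.two) hg (by decide)
          omega
        by_cases hge : g = e
        · subst hge
          rw [Function.update_comm (Ne.symm hfe)]
          exact (ih k (by omega) _).1 c2 hgW
        · have he2 : Function.update (Function.update p f St.one) g St.two e = St.free := by
            rw [Function.update_of_ne (Ne.symm hge), Function.update_of_ne (Ne.symm hfe)]
            exact he
          cases k with
          | zero =>
            have h1 : 0 < fc (Function.update (Function.update p f St.one) g St.two) :=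
              Finset.card_pos.mpr ⟨e, by simp only [Finset.mem_filter, Finset.mem_univ, true_and]; exact he2⟩
            omega
          | succ k =>
            refine ⟨g, ?_, ?_⟩
            · rw [Function.update_of_ne hgf, Function.update_of_ne hge]
              rwa [Function.update_of_ne hgf] at hg
            · have h1 := (ih k (by omega) _).2 c2 hgW e he2
              rw [Function.update_comm hge, Function.update_comm hfe] at h1
              exact h1

theorem tempo [Fintype E] {T : (E → St) → Prop} (hT : Mono T) (p : E → St)
    (h : W T (fc p) true p) : W T (fc p) false p :=
  (extra_tempo hT (fc p) p).1 rfl h

end

end Pool.Agent.H34.ST
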