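import Pool.Agent.H48.ST.Cell
import Pool.Agent.H21.ST.Nth

/-!
# [H34 ST TWO] of two coprime moduli one is good: strings of consecutive primes `= A` and then `= B` at any distance

Theorem (STR) of helper48, `k = 1`, by a binary tree of depth two: the root uses `Q 0`, the two nodes below it use `Q 1`, each of
the four leaves holds `q` cells.  If both moduli are bad, at most `q + K₀ + K₁` of the `4 q` cells are hit, but `4 * 13/50 > 1`.
-/

set_option autoImplicit false

namespace Pool.Agent.H34.ST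

open Finset Pool.Agent.H30.CP Pool.Agent.H21.ST

/-- the Chinese remainder theorem for integers -/
theorem crt2 {m n : ℕ} (h : Nat.Coprime m n) (a b : ℤ) : ∃ c : ℤ, c ≡ a [ZMOD m] ∧ c ≡ b [ZMOD n] := by
  obtain ⟨u, v, huv⟩ := Nat.isCoprime_iff_coprime.2 h
  refine ⟨a * (v * n) + b * (u * m), ?_, ?_⟩
  · have h1 : a * (v * n) + b * (u * m) - a = (m : ℤ) * (u * (b - a)) := by
      linear_combination a * huv
    exact (Int.modEq_iff_dvd.2 ⟨-(u * (b - a)), by linear_combination -h1⟩)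
  · have h1 : a * (v * n) + b * (u * m) - b = (n : ℤ) * (v * (a - b)) := by
      linear_combination b * huv
    exact (Int.modEq_iff_dvd.2 ⟨-(v * (a - b)), by linear_combination -h1⟩)

/-- at most `m` cells are hit if at most `m` elements of a set containing them are -/
theorem hit_le {q : ℕ} (V : Fin q → Finset ℤ) (hV : ∀ i j, i ≠ j → Disjoint (V i) (V j)) (p : ℤ → Prop) [DecidablePred p]
    [DecidablePred fun j => ∃ b ∈ V j, p b] (S : Finset ℤ) (hS : ∀ j, ∀ b ∈ V j, p b → b ∈ S) :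
    (univ.filter (fun j => ∃ b ∈ V j, p b)).card ≤ S.card := by
  classical
  have h1 : ∀ j ∈ univ.filter (fun j => ∃ b ∈ V j, p b), ∃ b, b ∈ V j ∧ p b := by
    intro j hj
    obtain ⟨b, hb, hp⟩ := (mem_filter.1 hj).2
    exact ⟨b, hb, hp⟩
  choose! g hg using h1
  refine card_le_card_of_injOn g (fun j hj => hS j _ (hg j hj).1 (hg j hj).2) ?_
  intro i hi j hj hij
  by_contra hne
  exact disjoint_left.1 (hV i j hne) (hg i hi).1 (by rw [hij]; exact (hg j hj).1)

/-- the two halves of a node, from one statement for both -/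
theorem cl_of {K C Q L : ℕ} {w : Bool → ℤ} {s : ℤ} {x : Bool → ℤ} {N : ℕ}
    (h1 : ∀ b : ℤ, x false - C ≤ b → b ≤ x true + C → PP N b → (N : ℤ) + b ≡ s [ZMOD L] ∧
      ∃ a, |b - x a| ≤ C ∧ (N : ℤ) + b ≡ w a [ZMOD Q])
    (h2 : ∀ a, ∃ S : Finset ℤ, K ≤ S.card ∧ ∀ b ∈ S, |b - x a| ≤ C ∧ PP N b) :
    Cl2 K C Q L (w false) (w true) s (x false) (x true) N := by
  refine ⟨fun b hb1 hb2 hp => ?_, h2 false, h2 true⟩
  obtain ⟨h3, a, h4, h5⟩ := h1 b hb1 hb2 hp
  refine ⟨h3, ?_⟩
  cases a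
  · exact Or.inl ⟨h4, h5⟩
  · exact Or.inr ⟨h4, h5⟩

open Classical in
/-- two bad moduli -/
theorem core (L s₀ Q₀ Q₁ : ℕ) (hL : 0 < L) (hs : Nat.Coprime s₀ L) (hQ₀ : 0 < Q₀) (hQ₁ : 0 < Q₁) (hQL₀ : Nat.Coprime Q₀ L)
    (hQL₁ : Nat.Coprime Q₁ L) (hQQ : Nat.Coprime Q₀ Q₁) (w v : Bool → ℤ) (hw : ∀ a, IsCoprime (w a) (Q₀ : ℤ))
    (hv : ∀ a, IsCoprime (v a) (Q₁ : ℤ)) (K₀ K₁ : ℕ)
    (h0 : ∀ C : ℕ, ∃ x : Bool → ℤ, x false + 2 * C < x true ∧
      {N : ℕ | Cl2 K₀ C Q₀ L (w false) (w true) s₀ (x false) (x true) N}.Finite)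
    (h1 : ∀ C : ℕ, ∃ x : Bool → ℤ, x false + 2 * C < x true ∧
      {N : ℕ | Cl2 K₁ C Q₁ L (v false) (v true) s₀ (x false) (x true) N}.Finite) : False := by
  obtain ⟨q, hq⟩ : ∃ q : ℕ, q = 50 * (K₀ + K₁) + 1 := ⟨_, rfl⟩
  obtain ⟨s, hs1, hV⟩ := Pool.Agent.H48.ST.cellsH (4 * q) (by omega) (1 / 200) (by norm_num)
  -- the modulus
  obtain ⟨Λ, hΛ⟩ : ∃ Λ : ℕ, Λ = L * (Q₀ * Q₁) := ⟨_, rfl⟩
  have hΛ0 : 0 < Λ := by rw [hΛ]; positivity
  obtain ⟨P, hP⟩ : ∃ P : ℕ, P = ∏ p ∈ (range (4 * q * s + 1)).filter (fun p => p.Prime ∧ ¬ p ∣ Λ), p := ⟨_, rfl⟩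
  have hP0 : 0 < P := by
    rw [hP]
    exact Finset.prod_pos fun p hp => (mem_filter.1 hp).2.1.pos
  have hΛP : Nat.Coprime Λ P := by
    rw [hP]
    refine Nat.Coprime.prod_right fun p hp => ?_
    obtain ⟨-, h2, h3⟩ := mem_filter.1 hp
    exact ((Nat.Prime.coprime_iff_not_dvd h2).2 h3).symm
  have hLP : Nat.Coprime L P := Nat.Coprime.coprime_dvd_left (Dvd.intro _ hΛ.symm) hΛP
  have hQQΛ : Q₀ * Q₁ ∣ Λ := Dvd.intro_left _ hΛ.symm
  have hQ₀Λ : Q₀ ∣ Λ := (dvd_mul_right _ _).trans hQQΛ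
  have hQ₁Λ : Q₁ ∣ Λ := (dvd_mul_left _ _).trans hQQΛ
  have hLΛ : L ∣ Λ := Dvd.intro _ hΛ.symm
  obtain ⟨M, hM⟩ : ∃ M : ℕ, M = Λ * P := ⟨_, rfl⟩
  have hM0 : 0 < M := by rw [hM]; positivity
  -- the classes
  have hc : ∀ a b : Bool, ∃ c : ℤ, c ≡ w a [ZMOD Q₀] ∧ c ≡ v b [ZMOD Q₁] ∧ c ≡ s₀ [ZMOD L] ∧ c ≡ 0 [ZMOD P] := by
    intro a b
    obtain ⟨c1, h2, h3⟩ := crt2 hQQ (w a) (v b)
    obtain ⟨c2, h4, h5⟩ := crt2 (Nat.Coprime.mul_left hQL₀ hQL₁) c1 s₀
    have hc3 : Nat.Coprime (Q₀ * Q₁ * L) P := by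
      have : Q₀ * Q₁ * L = Λ := by rw [hΛ]; ring
      rw [this]
      exact hΛP
    obtain ⟨c3, h6, h7⟩ := crt2 hc3 c2 0
    have h8 : c3 ≡ c2 [ZMOD ((Q₀ * Q₁ : ℕ) : ℤ)] := h6.of_dvd (by exact_mod_cast dvd_mul_right (Q₀ * Q₁) L)
    have h9 : c3 ≡ c2 [ZMOD L] := h6.of_dvd (by exact_mod_cast dvd_mul_left L (Q₀ * Q₁))
    have h10 : c3 ≡ c1 [ZMOD ((Q₀ * Q₁ : ℕ) : ℤ)] := h8.trans h4
    refine ⟨c3, ?_, ?_, h9.trans h5, h7⟩
    · exact (h10.of_dvd (by exact_mod_cast dvd_mul_right Q₀ Q₁)).trans h2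
    · exact (h10.of_dvd (by exact_mod_cast dvd_mul_left Q₁ Q₀)).trans h3
  choose c hc1 hc2 hc3 hc4 using hc
  -- the places
  obtain ⟨C₁, hC₁⟩ : ∃ C₁ : ℕ, C₁ = M * (q * s + 1) := ⟨_, rfl⟩
  obtain ⟨Y, hY, hYf⟩ := h1 C₁
  obtain ⟨C₀, hC₀⟩ : ∃ C₀ : ℕ, C₀ = (Y false).natAbs + (Y true).natAbs + C₁ := ⟨_, rfl⟩
  obtain ⟨X, hX, hXf⟩ := h0 C₀
  have hC₀z : (C₀ : ℤ) = |Y false| + |Y true| + C₁ := by
    rw [hC₀]
    push_cast
    ring
  have hYC : ∀ b, |Y b| + C₁ ≤ C₀ := by
    intro b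
    have h2 := abs_nonneg (Y false)
    have h3 := abs_nonneg (Y true)
    cases b <;> linarith
  -- the elements
  obtain ⟨el, hel⟩ : ∃ el : Bool → Bool → ℕ → ℤ, ∀ a b t, el a b t = X a + Y b + (c a b - (X a + Y b)) % (M : ℤ) + M * t :=
    ⟨_, fun _ _ _ => rfl⟩
  have helM : ∀ a b t, el a b t ≡ c a b [ZMOD M] := by
    intro a b t
    rw [hel]
    have h2 : (c a b - (X a + Y b)) % (M : ℤ) ≡ c a b - (X a + Y b) [ZMOD M] := Int.mod_modEq _ _
    have h3 : (M : ℤ) * t ≡ 0 [ZMOD M] := (Int.modEq_zero_iff_dvd).2 (dvd_mul_right _ _)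
    have h4 := ((Int.ModEq.refl (X a + Y b)).add h2).add h3
    have h5 : X a + Y b + (c a b - (X a + Y b)) + 0 = c a b := by ring
    rw [h5] at h4
    exact h4
  have hdM : ∀ d : ℕ, d ∣ M → ∀ a b t, el a b t ≡ c a b [ZMOD d] := fun d hd a b t =>
    (helM a b t).of_dvd (by exact_mod_cast hd)
  have hΛM : Λ ∣ M := Dvd.intro _ hM.symm
  have hPM : P ∣ M := Dvd.intro_left _ hM.symm
  have elQ₀ : ∀ a b t, el a b t ≡ w a [ZMOD Q₀] := fun a b t => (hdM Q₀ (hQ₀Λ.trans hΛM) a b t).trans (hc1 a b)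
  have elQ₁ : ∀ a b t, el a b t ≡ v b [ZMOD Q₁] := fun a b t => (hdM Q₁ (hQ₁Λ.trans hΛM) a b t).trans (hc2 a b)
  have elL : ∀ a b t, el a b t ≡ s₀ [ZMOD L] := fun a b t => (hdM L (hLΛ.trans hΛM) a b t).trans (hc3 a b)
  have elP : ∀ a b t, (P : ℤ) ∣ el a b t := fun a b t =>
    (Int.modEq_zero_iff_dvd).1 ((hdM P hPM a b t).trans (hc4 a b))
  have hMz : (0 : ℤ) < M := by exact_mod_cast hM0
  have elb : ∀ a b t, t < q * s → X a + Y b ≤ el a b t ∧ el a b t ≤ X a + Y b + C₁ := by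
    intro a b t ht
    have h2 := Int.emod_nonneg (c a b - (X a + Y b)) hMz.ne'
    have h3 := Int.emod_lt_of_pos (c a b - (X a + Y b)) hMz
    have h4 : (M : ℤ) * t ≤ M * (q * s : ℕ) := by
      have : (t : ℤ) ≤ ((q * s : ℕ) : ℤ) := by exact_mod_cast ht.le
      exact mul_le_mul_of_nonneg_left this hMz.le
    have h5 : (0 : ℤ) ≤ M * t := by positivity
    have h6 : ((C₁ : ℕ) : ℤ) = M * (q * s : ℕ) + M := by
      rw [hC₁]
      push_cast
      ring
    rw [hel]
    constructor <;> omega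
  have elinj : ∀ a b t t', el a b t = el a b t' → t = t' := by
    intro a b t t' h
    rw [hel, hel] at h
    have h2 : (M : ℤ) * t = M * t' := by omega
    have h3 := mul_left_cancel₀ hMz.ne' h2
    exact_mod_cast h3
  -- near the place of exactly one half, leaf
  have nearX : ∀ a b t, t < q * s → |el a b t - X a| ≤ C₀ := by
    intro a b t ht
    obtain ⟨h2, h3⟩ := elb a b t ht
    have h4 := hYC b
    rw [abs_le]
    have h5 := neg_abs_le (Y b)
    have h6 := le_abs_self (Y b)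
    constructor <;> omega
  have nearY : ∀ a b t, t < q * s → |el a b t - X a - Y b| ≤ C₁ := by
    intro a b t ht
    obtain ⟨h2, h3⟩ := elb a b t ht
    rw [abs_le]
    constructor <;> omega
  have sepX : ∀ (h : ℤ) a a', |h - X a| ≤ C₀ → |h - X a'| ≤ C₀ → a = a' := by
    intro h a a' h2 h3
    rw [abs_le] at h2 h3
    cases a <;> cases a' <;> first | rfl | omega
  have sepY : ∀ (h : ℤ) b b', |h - Y b| ≤ C₁ → |h - Y b'| ≤ C₁ → b = b' := by
    intro h a a' h2 h3
    rw [abs_le] at h2 h3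
    cases a <;> cases a' <;> first | rfl | omega
  -- the cells
  obtain ⟨V, hVd⟩ : ∃ V : Bool × Bool × Fin q → Finset ℤ, ∀ a b j,
      V (a, b, j) = (range s).image (fun i => el a b ((j : ℕ) * s + i)) :=
    ⟨fun p => (range s).image (fun i => el p.1 p.2.1 ((p.2.2 : ℕ) * s + i)), fun _ _ _ => rfl⟩
  have hlt : ∀ (j : Fin q) (i : ℕ), i < s → (j : ℕ) * s + i < q * s := by
    intro j i hi
    have h2 : ((j : ℕ) + 1) * s ≤ q * s := Nat.mul_le_mul_right s j.isLt
    have h3 : ((j : ℕ) + 1) * s = (j : ℕ) * s + s := by ring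
    omega
  have hVm : ∀ a b j h, h ∈ V (a, b, j) → ∃ i < s, h = el a b ((j : ℕ) * s + i) := by
    intro a b j h hh
    rw [hVd, mem_image] at hh
    obtain ⟨i, hi, h2⟩ := hh
    exact ⟨i, mem_range.1 hi, h2.symm⟩
  have hdisj : ∀ i j, i ≠ j → Disjoint (V i) (V j) := by
    rintro ⟨a, b, j⟩ ⟨a', b', j'⟩ hne
    rw [disjoint_left]
    intro h hh hh'
    obtain ⟨i, hi, h2⟩ := hVm a b j h hh
    obtain ⟨i', hi', h3⟩ := hVm a' b' j' h hh'
    have ha : a = a' := by
      apply sepX h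
      · rw [h2]; exact nearX a b _ (hlt j i hi)
      · rw [h3]; exact nearX a' b' _ (hlt j' i' hi')
    subst ha
    have hb : b = b' := by
      apply sepY (h - X a)
      · rw [h2]; exact nearY a b _ (hlt j i hi)
      · rw [h3]; exact nearY a b' _ (hlt j' i' hi')
    subst hb
    have h4 : (j : ℕ) * s + i = (j' : ℕ) * s + i' := elinj a b _ _ (h2.symm.trans h3)
    have h5 : (j : ℕ) = j' := by
      have h6 : ((j : ℕ) * s + i) / s = j := by
        rw [mul_comm, Nat.mul_add_div (by omega), Nat.div_eq_of_lt hi, add_zero]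
      have h7 : ((j' : ℕ) * s + i') / s = j' := by
        rw [mul_comm, Nat.mul_add_div (by omega), Nat.div_eq_of_lt hi', add_zero]
      rw [← h6, ← h7, h4]
    exact hne (by rw [Fin.ext h5])
  have hcard : ∀ p, (V p).card = s := by
    rintro ⟨a, b, j⟩
    rw [hVd, card_image_of_injOn, card_range]
    intro i _ i' _ h
    have := elinj a b _ _ h
    omega
  -- bound for the exceptional `N`
  obtain ⟨N₀, hN₀⟩ : ∃ N₀ : ℕ, ∀ N : ℕ, Cl2 K₀ C₀ Q₀ L (w false) (w true) s₀ (X false) (X true) N → N ≤ N₀ := by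
    obtain ⟨B, hB⟩ := hXf.bddAbove
    exact ⟨B, fun N hN => hB hN⟩
  obtain ⟨N₁, hN₁⟩ : ∃ N₁ : ℕ, ∀ N : ℕ, Cl2 K₁ C₁ Q₁ L (v false) (v true) s₀ (Y false) (Y true) N → N ≤ N₁ := by
    obtain ⟨B, hB⟩ := hYf.bddAbove
    exact ⟨B, fun N hN => hB hN⟩
  obtain ⟨D, hD⟩ : ∃ D : ℕ, D = (X false).natAbs + (X true).natAbs + C₀ := ⟨_, rfl⟩
  have hDz : (D : ℤ) = |X false| + |X true| + C₀ := by
    rw [hD]
    push_cast
    ring
  obtain ⟨T, μ, hT, hμ0, hμ1, hhit⟩ := hV (Bool × Bool × Fin q) V (by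
      rw [Fintype.card_prod, Fintype.card_prod, Fintype.card_bool, Fintype.card_fin]
      ring) hcard hdisj (by
      intro p hp
      by_cases hpΛ : p ∣ Λ
      · refine ⟨0, ?_⟩
        rintro ⟨a, b, j⟩ h hh hd
        obtain ⟨i, hi, h2⟩ := hVm a b j h hh
        rw [zero_add] at hd
        rw [hΛ] at hpΛ
        rcases (Nat.Prime.dvd_mul hp).1 hpΛ with h3 | h3
        · have h4 : h ≡ s₀ [ZMOD p] := by
            rw [h2]
            exact (elL a b _).of_dvd (by exact_mod_cast h3)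
          have h5 : (p : ℤ) ∣ s₀ := (Int.modEq_zero_iff_dvd).1 (h4.symm.trans ((Int.modEq_zero_iff_dvd).2 hd))
          have h6 : p ∣ s₀ := by exact_mod_cast h5
          exact hp.one_lt.ne' (Nat.dvd_one.1 (hs ▸ Nat.dvd_gcd h6 h3))
        rcases (Nat.Prime.dvd_mul hp).1 h3 with h3 | h3
        · have h4 : h ≡ w a [ZMOD p] := by
            rw [h2]
            exact (elQ₀ a b _).of_dvd (by exact_mod_cast h3)
          have h5 : (p : ℤ) ∣ w a := (Int.modEq_zero_iff_dvd).1 (h4.symm.trans ((Int.modEq_zero_iff_dvd).2 hd))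
          have h6 := (hw a).isUnit_of_dvd' h5 (by exact_mod_cast h3)
          exact hp.one_lt.ne' (by simpa using Int.isUnit_iff_natAbs_eq.1 h6)
        · have h4 : h ≡ v b [ZMOD p] := by
            rw [h2]
            exact (elQ₁ a b _).of_dvd (by exact_mod_cast h3)
          have h5 : (p : ℤ) ∣ v b := (Int.modEq_zero_iff_dvd).1 (h4.symm.trans ((Int.modEq_zero_iff_dvd).2 hd))
          have h6 := (hv b).isUnit_of_dvd' h5 (by exact_mod_cast h3)
          exact hp.one_lt.ne' (by simpa using Int.isUnit_iff_natAbs_eq.1 h6)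
      · by_cases hpn : p ≤ 4 * q * s
        · refine ⟨1, ?_⟩
          rintro ⟨a, b, j⟩ h hh hd
          obtain ⟨i, hi, h2⟩ := hVm a b j h hh
          have h3 : p ∣ P := by
            rw [hP]
            exact Finset.dvd_prod_of_mem (fun p => p) (mem_filter.2 ⟨mem_range.2 (by omega), hp, hpΛ⟩)
          have h4 : (p : ℤ) ∣ h := by
            rw [h2]
            exact (by exact_mod_cast h3 : (p : ℤ) ∣ P).trans (elP a b _)
          have h5 : (p : ℤ) ∣ 1 := (dvd_add_left h4).1 hd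
          have h6 : p ∣ 1 := by exact_mod_cast h5
          exact hp.one_lt.ne' (Nat.dvd_one.1 h6)
        · -- more classes than elements
          by_contra hcon
          push Not at hcon
          have h2 : ∀ a : Fin p, ∃ h ∈ univ.biUnion V, (p : ℤ) ∣ (a : ℕ) + h := by
            intro a
            obtain ⟨j, h, hh, hd⟩ := hcon ((a : ℕ) : ℤ)
            exact ⟨h, mem_biUnion.2 ⟨j, mem_univ j, hh⟩, hd⟩
          choose g hg1 hg2 using h2
          have h3 : (univ : Finset (Fin p)).card ≤ (univ.biUnion V).card := by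
            refine card_le_card_of_injOn g (fun a _ => hg1 a) ?_
            intro a _ a' _ haa
            have h4 := hg2 a
            have h5 := hg2 a'
            rw [← haa] at h5
            have h6 : (p : ℤ) ∣ ((a : ℕ) : ℤ) - ((a' : ℕ) : ℤ) := by
              have := dvd_sub h4 h5
              have h7 : ((a : ℕ) : ℤ) + g a - (((a' : ℕ) : ℤ) + g a) = ((a : ℕ) : ℤ) - ((a' : ℕ) : ℤ) := by ring
              rw [h7] at this
              exact this
            have h7 : |((a : ℕ) : ℤ) - ((a' : ℕ) : ℤ)| < p := by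
              have := a.isLt
              have := a'.isLt
              rw [abs_lt]
              constructor <;> omega
            have h8 := Int.eq_zero_of_abs_lt_dvd h6 h7
            exact Fin.ext (by omega)
          have h4 : (univ.biUnion V).card ≤ (4 * q) * s := by
            refine card_biUnion_le.trans ?_
            rw [sum_congr rfl (fun p _ => hcard p), sum_const, smul_eq_mul, card_univ, Fintype.card_prod, Fintype.card_prod,
              Fintype.card_bool, Fintype.card_fin]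
            apply le_of_eq
            ring
          rw [card_univ, Fintype.card_fin] at h3
          omega)
    Λ 0 hΛ0 (by
      rintro ⟨a, b, j⟩ h hh
      obtain ⟨i, hi, h2⟩ := hVm a b j h hh
      rw [Nat.cast_zero, zero_add, hΛ]
      push_cast
      have e1 : IsCoprime h (L : ℤ) := by
        have h3 : (L : ℤ) ∣ h - s₀ := (Int.modEq_iff_dvd.1 (by rw [h2]; exact (elL a b _).symm))
        obtain ⟨z, hz⟩ := h3
        have h4 : IsCoprime ((s₀ : ℤ) + L * z) (L : ℤ) := (Nat.isCoprime_iff_coprime.2 hs).add_mul_left_left z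
        have h5 : h = (s₀ : ℤ) + L * z := by linarith
        rw [h5]
        exact h4
      have e2 : IsCoprime h (Q₀ : ℤ) := by
        have h3 : (Q₀ : ℤ) ∣ h - w a := (Int.modEq_iff_dvd.1 (by rw [h2]; exact (elQ₀ a b _).symm))
        obtain ⟨z, hz⟩ := h3
        have h5 : h = w a + Q₀ * z := by linarith
        rw [h5]
        exact (hw a).add_mul_left_left z
      have e3 : IsCoprime h (Q₁ : ℤ) := by
        have h3 : (Q₁ : ℤ) ∣ h - v b := (Int.modEq_iff_dvd.1 (by rw [h2]; exact (elQ₁ a b _).symm))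
        obtain ⟨z, hz⟩ := h3
        have h5 : h = v b + Q₁ * z := by linarith
        rw [h5]
        exact (hv b).add_mul_left_left z
      exact e1.mul_right (e2.mul_right e3)) D (N₀ + N₁ + (X false).natAbs + (X true).natAbs)
  -- few cells are hit
  have hfew : ∀ N ∈ T, (univ.filter (fun p => ∃ b ∈ V p, PP N b)).card ≤ q + K₀ + K₁ := by
    intro N hN
    obtain ⟨hN1, hN2, hN3⟩ := hT N hN
    have hNΛ : (Λ : ℤ) ∣ N := by
      have : Λ ∣ N := (Nat.modEq_zero_iff_dvd).1 hN2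
      exact_mod_cast this
    have hmod : ∀ d : ℕ, d ∣ Λ → ∀ h c : ℤ, h ≡ c [ZMOD d] → (N : ℤ) + h ≡ c [ZMOD d] := by
      intro d hd h c hh
      have h2 : (N : ℤ) ≡ 0 [ZMOD d] := (Int.modEq_zero_iff_dvd).2 ((by exact_mod_cast hd : (d : ℤ) ∣ Λ).trans hNΛ)
      simpa using h2.add hh
    -- the hit elements of a leaf
    obtain ⟨H, hH⟩ : ∃ H : Bool → Bool → Finset ℤ, ∀ a b, H a b = ((range (q * s)).image (el a b)).filter (fun h => PP N h) :=
      ⟨_, fun _ _ => rfl⟩
    have hHm : ∀ a b h, h ∈ H a b → PP N h ∧ ∃ t < q * s, h = el a b t := by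
      intro a b h hh
      rw [hH, mem_filter, mem_image] at hh
      obtain ⟨⟨t, ht, h2⟩, h3⟩ := hh
      exact ⟨h3, t, mem_range.1 ht, h2.symm⟩
    obtain ⟨hc, hhc⟩ : ∃ hc : Bool → Bool → ℕ, ∀ a b, hc a b = (univ.filter (fun j : Fin q => ∃ h ∈ V (a, b, j), PP N h)).card :=
      ⟨_, fun _ _ => rfl⟩
    have hcq : ∀ a b, hc a b ≤ q := by
      intro a b
      rw [hhc]
      refine (card_filter_le _ _).trans ?_
      rw [card_univ, Fintype.card_fin]
    have hcH : ∀ a b, hc a b ≤ (H a b).card := by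
      intro a b
      rw [hhc]
      refine hit_le (fun j => V (a, b, j)) (fun i j hij => hdisj _ _ (fun h => hij (by
        have := congrArg (fun p => p.2.2) h
        exact this))) (fun h => PP N h) (H a b) ?_
      intro j h hh hp
      obtain ⟨i, hi, h2⟩ := hVm a b j h hh
      rw [hH, mem_filter, mem_image]
      exact ⟨⟨_, mem_range.2 (hlt j i hi), h2.symm⟩, hp⟩
    -- the root
    have hroot : ∃ a, hc a false + hc a true < K₀ := by
      by_contra hcon
      push Not at hcon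
      have h2 := hN₀ N (cl_of (K := K₀) (C := C₀) (Q := Q₀) (L := L) (w := w) (s := s₀) (x := X) (N := N) (by
        intro b hb1 hb2 hp
        obtain ⟨⟨a, b', j⟩, hj⟩ := hN3 b (by
          rw [abs_le]
          have h5 := le_abs_self (X true)
          have h6 := neg_abs_le (X false)
          have h7 := abs_nonneg (X true)
          have h8 := abs_nonneg (X false)
          constructor <;> linarith) hp
        obtain ⟨i, hi, h3⟩ := hVm a b' j b hj
        refine ⟨hmod L hLΛ b _ (by rw [h3]; exact elL a b' _), a, ?_, hmod Q₀ hQ₀Λ b _ (by rw [h3]; exact elQ₀ a b' _)⟩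
        rw [h3]
        exact nearX a b' _ (hlt j i hi)) (by
        intro a
        refine ⟨H a false ∪ H a true, ?_, ?_⟩
        · rw [card_union_of_disjoint]
          · have h3 := hcH a false
            have h4 := hcH a true
            have h5 := hcon a
            omega
          · rw [disjoint_left]
            intro h hh hh'
            obtain ⟨-, t, ht, h3⟩ := hHm _ _ _ hh
            obtain ⟨-, t', ht', h4⟩ := hHm _ _ _ hh'
            have h5 := sepY (h - X a) false true (by rw [h3]; exact nearY a false t ht) (by rw [h4]; exact nearY a true t' ht')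
            exact absurd h5 (by decide)
        · intro b hb
          rcases mem_union.1 hb with hb | hb
          · obtain ⟨h3, t, ht, h4⟩ := hHm _ _ _ hb
            exact ⟨by rw [h4]; exact nearX a _ t ht, h3⟩
          · obtain ⟨h3, t, ht, h4⟩ := hHm _ _ _ hb
            exact ⟨by rw [h4]; exact nearX a _ t ht, h3⟩))
      omega
    -- the nodes
    have hnode : ∀ a, ∃ b, hc a b < K₁ := by
      intro a
      by_contra hcon
      push Not at hcon
      have hXa : (X a).natAbs ≤ (X false).natAbs + (X true).natAbs := by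
        cases a <;> omega
      obtain ⟨N', hN'⟩ : ∃ N' : ℕ, (N' : ℤ) = N + X a := ⟨((N : ℤ) + X a).toNat, by omega⟩
      have hPP : ∀ b : ℤ, PP N' b ↔ PP N (X a + b) := by
        intro b
        unfold PP
        rw [hN', add_assoc]
      have h2 := hN₁ N' (cl_of (K := K₁) (C := C₁) (Q := Q₁) (L := L) (w := v) (s := s₀) (x := Y) (N := N') (by
        intro b hb1 hb2 hp
        rw [hPP] at hp
        have hbC : |b| ≤ C₀ := by
          rw [abs_le]
          have h5 := le_abs_self (Y true)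
          have h6 := neg_abs_le (Y false)
          have h7 := hYC true
          have h8 := hYC false
          constructor <;> linarith
        have hbC' := abs_le.1 hbC
        obtain ⟨⟨a', b', j⟩, hj⟩ := hN3 (X a + b) (by
          rw [abs_le]
          have h5 : |X a| ≤ |X false| + |X true| := by
            have h7 := abs_nonneg (X true)
            have h8 := abs_nonneg (X false)
            cases a <;> linarith
          have h6 := abs_le.1 h5
          constructor <;> linarith [h6.1, h6.2, hbC'.1, hbC'.2]) hp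
        obtain ⟨i, hi, h3⟩ := hVm a' b' j _ hj
        have haa : a = a' := by
          apply sepX (X a + b)
          · have : X a + b - X a = b := by ring
            rw [this]
            exact hbC
          · rw [h3]
            exact nearX a' b' _ (hlt j i hi)
        subst haa
        have h4 : (N' : ℤ) + b = N + (X a + b) := by rw [hN']; ring
        rw [h4]
        refine ⟨hmod L hLΛ _ _ (by rw [h3]; exact elL a b' _), b', ?_, hmod Q₁ hQ₁Λ _ _ (by rw [h3]; exact elQ₁ a b' _)⟩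
        have h5 := nearY a b' _ (hlt j i hi)
        rw [← h3] at h5
        have h6 : X a + b - X a - Y b' = b - Y b' := by ring
        rw [h6] at h5
        exact h5) (by
        intro b
        refine ⟨(H a b).image (fun h => h - X a), ?_, ?_⟩
        · rw [card_image_of_injective _ (fun x y hxy => by
            have : x - X a = y - X a := hxy
            omega)]
          exact (hcon b).trans (hcH a b)
        · intro h hh
          obtain ⟨h', hh', rfl⟩ := mem_image.1 hh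
          obtain ⟨h3, t, ht, h4⟩ := hHm _ _ _ hh'
          refine ⟨by rw [h4]; exact nearY a b t ht, ?_⟩
          rw [hPP]
          have : X a + (h' - X a) = h' := by ring
          rw [this]
          exact h3))
      omega
    have hsum : (univ.filter (fun p => ∃ b ∈ V p, PP N b)).card = ∑ a : Bool, ∑ b : Bool, hc a b := by
      rw [card_filter, Fintype.sum_prod_type]
      refine sum_congr rfl fun a _ => ?_
      rw [Fintype.sum_prod_type]
      refine sum_congr rfl fun b _ => ?_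
      rw [hhc, card_filter]
    rw [hsum, Fintype.sum_bool, Fintype.sum_bool, Fintype.sum_bool]
    obtain ⟨a, ha⟩ := hroot
    have q1 := hcq true true
    have q2 := hcq true false
    have q3 := hcq false true
    have q4 := hcq false false
    obtain ⟨b1, hb1⟩ := hnode true
    obtain ⟨b2, hb2⟩ := hnode false
    cases a <;> cases b1 <;> cases b2 <;> omega
  -- the count
  have hlow : (4 * q : ℝ) * (13 / 50 - 1 / 200) ≤ ∑ N ∈ T, μ N * ((univ.filter (fun p => ∃ b ∈ V p, PP N b)).card : ℝ) := by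
    have h2 : ∑ p : Bool × Bool × Fin q, (13 / 50 - 1 / 200 : ℝ) ≤
        ∑ p : Bool × Bool × Fin q, ∑ N ∈ T.filter (fun N => ∃ b ∈ V p, PP N b), μ N := by
      refine sum_le_sum fun p _ => ?_
      exact (hhit p).trans (le_of_eq (by rfl))
    have h3 : ∑ p : Bool × Bool × Fin q, (13 / 50 - 1 / 200 : ℝ) = (4 * q : ℝ) * (13 / 50 - 1 / 200) := by
      rw [sum_const, card_univ, Fintype.card_prod, Fintype.card_prod, Fintype.card_bool, Fintype.card_fin, nsmul_eq_mul]
      push_cast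
      ring
    rw [h3] at h2
    refine h2.trans (le_of_eq ?_)
    simp only [sum_filter]
    rw [sum_comm]
    refine sum_congr rfl fun N _ => ?_
    rw [card_filter, Nat.cast_sum, mul_sum]
    refine sum_congr rfl fun p _ => ?_
    by_cases h : ∃ b ∈ V p, PP N b
    · rw [if_pos h, if_pos h, Nat.cast_one, mul_one]
    · rw [if_neg h, if_neg h, Nat.cast_zero, mul_zero]
  have hup : ∑ N ∈ T, μ N * ((univ.filter (fun p => ∃ b ∈ V p, PP N b)).card : ℝ) ≤ (q + K₀ + K₁ : ℕ) := by
    calc ∑ N ∈ T, μ N * ((univ.filter (fun p => ∃ b ∈ V p, PP N b)).card : ℝ) ≤ ∑ N ∈ T, μ N * ((q + K₀ + K₁ : ℕ) : ℝ) := by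
          refine sum_le_sum fun N hN => mul_le_mul_of_nonneg_left ?_ (hμ0 N)
          exact_mod_cast hfew N hN
      _ = (q + K₀ + K₁ : ℕ) := by rw [← sum_mul, hμ1, one_mul]
  have h2 := hlow.trans hup
  have h3 : (q : ℝ) = 50 * ((K₀ : ℝ) + K₁) + 1 := by
    rw [hq]
    push_cast
    ring
  push_cast at h2
  have h4 : (0 : ℝ) ≤ K₀ := Nat.cast_nonneg _
  have h5 : (0 : ℝ) ≤ K₁ := Nat.cast_nonneg _
  linarith

/-- **of two coprime moduli one is good** -/
theorem two_main (L s0 : ℕ) (hL : 0 < L) (hs : Nat.Coprime s0 L) (Q : Fin 2 → ℕ) (hQ : ∀ i, 0 < Q i)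
    (hQL : ∀ i, Nat.Coprime (Q i) L) (hQQ : Nat.Coprime (Q 0) (Q 1)) : ∃ i, ∀ A B : ℤ, IsCoprime A (Q i : ℤ) →
      IsCoprime B (Q i : ℤ) → ∀ K : ℕ, ∃ C : ℕ, ∀ x0 x1 : ℤ, x0 + 2 * C < x1 → {N : ℕ | Cl2 K C (Q i) L A B s0 x0 x1 N}.Infinite := by
  by_contra hcon
  push Not at hcon
  obtain ⟨A₀, B₀, hA₀, hB₀, K₀, h0⟩ := hcon 0
  obtain ⟨A₁, B₁, hA₁, hB₁, K₁, h1⟩ := hcon 1
  refine core L s0 (Q 0) (Q 1) hL hs (hQ 0) (hQ 1) (hQL 0) (hQL 1) hQQ (fun b => if b then B₀ else A₀)
    (fun b => if b then B₁ else A₁) ?_ ?_ K₀ K₁ ?_ ?_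
  · intro a
    cases a
    · simpa using hA₀
    · simpa using hB₀
  · intro a
    cases a
    · simpa using hA₁
    · simpa using hB₁
  · intro C
    obtain ⟨x0, x1, hx, hf⟩ := h0 C
    refine ⟨fun b => if b then x1 else x0, by simpa using hx, ?_⟩
    simpa using hf
  · intro C
    obtain ⟨x0, x1, hx, hf⟩ := h1 C
    refine ⟨fun b => if b then x1 else x0, by simpa using hx, ?_⟩
    simpa using hf

end Pool.Agent.H34.ST
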