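import Pool.Agent.H34.ST.Basic

/-!
# The part of the board at the three extra vertices

`Y C = (C × Fin 3) ⊕ Fin 3`: the edge `(c, b)` from the column `c` to the extra vertex `b`, and the
edge `i` joining the two extra vertices different from `i`.
-/

namespace Pool.Agent.H34.ST

abbrev Y (C : Type*) := (C × Fin 3) ⊕ Fin 3

section
variable {C : Type*} [Fintype C] [DecidableEq C]

/-- degree of the extra vertex `b` in the graph of Player 2 -/
def y2 (q : Y C → St) (b : Fin 3) : ℕ :=
  (Finset.univ.filter (fun c : C => q (Sum.inl (c, b)) = St.two)).card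
    + (Finset.univ.filter (fun i : Fin 3 => i ≠ b ∧ q (Sum.inr i) = St.two)).card

/-- the target of Player 2 on the board `Y C` -/
def TB (q : Y C → St) : Prop :=
  (∀ e, q e ≠ St.free) ∧ (∀ c, ∃ b, q (Sum.inl (c, b)) = St.two) ∧
    ∀ b, Fintype.card C / 2 ≤ y2 q b ∨ ∃ b', Fintype.card C + 2 ≤ y2 q b + y2 q b'

omit [DecidableEq C] in
theorem y2_mono {q q' : Y C → St} (h : Le2 q q') (b : Fin 3) : y2 q b ≤ y2 q' b := by
  have key : ∀ e, q e = St.two → q' e = St.two := by
    intro e he
    rcases h e with h1 | ⟨h1, h2⟩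
    · rw [← h1, he]
    · exact h2
  unfold y2
  apply Nat.add_le_add
  · apply Finset.card_le_card
    intro c hc
    simp only [Finset.mem_filter, Finset.mem_univ, true_and] at hc ⊢
    exact key _ hc
  · apply Finset.card_le_card
    intro c hc
    simp only [Finset.mem_filter, Finset.mem_univ, true_and] at hc ⊢
    exact ⟨hc.1, key _ hc.2⟩

omit [DecidableEq C] in
theorem TB_mono : Mono (TB (C := C)) := by
  intro q q' h hq
  obtain ⟨h0, h1, h2⟩ := hq
  refine ⟨?_, ?_, ?_⟩
  · intro e he
    rcases h e with h5 | ⟨h5, h6⟩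
    · exact h0 e (by rw [h5, he])
    · rw [h6] at he; exact absurd he (by decide)
  · intro c
    obtain ⟨b, hb⟩ := h1 c
    refine ⟨b, ?_⟩
    rcases h (Sum.inl (c, b)) with h5 | ⟨h5, h6⟩
    · rw [← h5, hb]
    · exact h6
  · intro b
    rcases h2 b with h3 | ⟨b', h3⟩
    · exact Or.inl (h3.trans (y2_mono h b))
    · exact Or.inr ⟨b', h3.trans (Nat.add_le_add (y2_mono h b) (y2_mono h b'))⟩

/-- the column `c` of a position -/
def col (p : Y C → St) (c : C) : Fin 3 → St := fun i => p (Sum.inl (c, i))

/-- the edges between the extra vertices -/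
def itn (p : Y C → St) : Fin 3 → St := fun i => p (Sum.inr i)

/-- number of entries of status `s` -/
def nof (s : St) (τ : Fin 3 → St) : ℕ :=
  (if τ 0 = s then 1 else 0) + (if τ 1 = s then 1 else 0) + (if τ 2 = s then 1 else 0)

/-- number of entries of status `s` outside `M` -/
def nofO (s : St) (M : Fin 3) (τ : Fin 3 → St) : ℕ :=
  nof s τ - (if τ M = s then 1 else 0)

/-- a column in which Player 2 has an edge -/
def safe (τ : Fin 3 → St) : Bool := decide (nof St.two τ ≠ 0)

/-- an untouched column -/
def fresh (τ : Fin 3 → St) : Bool := decide (nof St.free τ = 3)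

/-- a column which is safe, or in which Player 1 has at most one edge -/
def okc (τ : Fin 3 → St) : Bool := safe τ || decide (nof St.one τ ≤ 1)

/-- weights of a column, for the middle row `M` -/
def wTM (M : Fin 3) (τ : Fin 3 → St) : ℕ := if τ M = St.two then 1 else 0
def wFM (M : Fin 3) (τ : Fin 3 → St) : ℕ :=
  if τ M = St.free ∧ (safe τ = true ∨ fresh τ = true) then 1 else 0
def wC (M : Fin 3) (τ : Fin 3 → St) : ℕ :=
  if safe τ = false ∧ nofO St.free M τ = 2 then 1 else 0
def wTP (M : Fin 3) (τ : Fin 3 → St) : ℕ := nofO St.two M τ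
def wFP (M : Fin 3) (τ : Fin 3 → St) : ℕ := if safe τ = true then nofO St.free M τ else 0

/-- contributions of the three edges `t` between the extra vertices -/
def iM (M : Fin 3) (t : Fin 3 → St) : ℕ :=
  nofO St.two M t + (if nofO St.free M t = 2 then 1 else 0)
def iP (M : Fin 3) (t : Fin 3 → St) : ℕ :=
  2 * (if t M = St.two then 1 else 0) + nofO St.two M t + (if nofO St.free M t = 2 then 1 else 0)
/-- the three edges are taken, or exactly the two at `M` are free -/
def okI (M : Fin 3) (t : Fin 3 → St) : Bool :=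
  decide (nof St.free t = 0) || (decide (t M ≠ St.free) && decide (nofO St.free M t = 2))

end

end Pool.Agent.H34.ST
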