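import Pool.Agent.H34.ST.YT

/-!
# [H34 ST YS] a dynamic class of positions: degree differences 1, 1, 0

`dz p b` = (edges of Player 1 at `b`) - (edges of Player 2 at `b`).  Class: the three edges between
the extra vertices are taken, every column is safe or fresh, the differences are `1, 1, 0` in some
order (rows `A, B, D`), Player 1 to move.  Claim: Player 2 wins (`TB`).

Strong induction on `fc p`.  In row `b` there are `n + 2` edges (`n = card C`), so
`2 * (edges of Player 2 at b) + (free edges at b) = n + 2 - dz p b` (count).
* `fc p = 0`: impossible for row... if no edge is free then `dz p b ≡ n` for all `b`, but `1 ≢ 0`.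
* Player 1 plays `(c, A)` (or `(c, B)`, symmetric).  Now `dz = (2, 1, 0)`.  Player 2 answers in row `B`
  or `D`: in the column `c` if it was fresh, else any free edge of these rows.  It exists: the number
  of free edges in rows `B, D` is `2 (n+2) - 1 - 2 (..)`, odd.  The new position satisfies the
  hypotheses of `tlemma` with `M = A`: no edge between the extra vertices is free; columns: safe,
  fresh, or (if `c` was fresh and Player 2 answered there) safe; `h1`: since there are no columns taken
  only at a row `≠ M`, `∑ wTM + iM` is the number of edges of Player 2 at `M` and `∑ wFM` the number of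
  free edges at `M`, so the right hand side is `⌊(n + 2 - 2) / 2⌋`; `h2`: the right hand side is
  `⌊(2 (n+2) - β) / 2⌋` with `β = dz B + dz D = 0` after the answer (free edges of fresh columns come
  in pairs, `wC = 1` each).
* Player 1 plays `(c, D)`: `dz = (1, 1, 1)`.  If `c` was fresh, Player 2 answers `(c, A)`: the class again.
  If `c` was safe and some edge is still free, Player 2 takes any free edge: the class again (one
  difference becomes 0; the column becomes safe).  If no edge is free: `TB` holds, because
  `2 * y2 b = n + 1` for all `b`.
-/

namespace Pool.Agent.H34.ST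

/-- value of a status -/
def sval : St → ℤ
  | St.free => 0
  | St.one => 1
  | St.two => -1

/-- degree of Player 1 minus degree of Player 2 at the extra vertex `b` -/
def dz {C : Type*} [Fintype C] (p : Y C → St) (b : Fin 3) : ℤ :=
  ∑ c, sval (col p c b) + (sval (itn p 0) + sval (itn p 1) + sval (itn p 2) - sval (itn p b))

theorem ys_safe (τ : Fin 3 → St) : safe τ = true ↔ ∃ i, τ i = St.two := by
  unfold safe nof
  constructor
  · intro h
    by_contra hno
    push Not at hno
    rw [if_neg (hno 0), if_neg (hno 1), if_neg (hno 2)] at h
    simp at h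
  · rintro ⟨i, hi⟩
    rw [decide_eq_true_iff]
    fin_cases i
    · have h0 : τ 0 = St.two := hi
      rw [if_pos h0]
      omega
    · have h0 : τ 1 = St.two := hi
      rw [if_pos h0]
      omega
    · have h0 : τ 2 = St.two := hi
      rw [if_pos h0]
      omega

section
variable {C : Type*} [Fintype C] [DecidableEq C]

/-- free edges in the row `b` -/
def yf (p : Y C → St) (b : Fin 3) : ℕ := ∑ c, (if col p c b = St.free then 1 else 0)

omit [DecidableEq C] in
theorem ys_y2 (p : Y C → St) (M P Q : Fin 3) (hMP : M ≠ P) (hMQ : M ≠ Q) (hPQ : P ≠ Q) :
    y2 p M = ∑ c : C, (if col p c M = St.two then 1 else 0) +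
      ((if itn p P = St.two then 1 else 0) + (if itn p Q = St.two then 1 else 0)) := by
  unfold y2
  rw [Finset.card_filter, Finset.card_filter, yt_sum M P Q hMP hMQ hPQ]
  simp only [ne_eq, not_true_eq_false, false_and, if_false, Ne.symm hMP, Ne.symm hMQ,
    not_false_eq_true, true_and, Nat.zero_add]
  rfl

omit [DecidableEq C] in
theorem ys_dz (p : Y C → St) (M P Q : Fin 3) (hMP : M ≠ P) (hMQ : M ≠ Q) (hPQ : P ≠ Q) :
    dz p M = ∑ c, sval (col p c M) + (sval (itn p P) + sval (itn p Q)) := by
  unfold dz
  congr 1
  revert hMP hMQ hPQ
  generalize itn p = t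
  fin_cases M <;> fin_cases P <;> fin_cases Q <;> simp <;> ring

omit [DecidableEq C] in
/-- counting in the row `M` -/
theorem ys_count (p : Y C → St) (hI : ∀ i, itn p i ≠ St.free) (b : Fin 3) :
    2 * (y2 p b : ℤ) + yf p b = Fintype.card C + 2 - dz p b := by
  obtain ⟨P, Q, hMP, hMQ, hPQ⟩ := yt_rows b
  rw [ys_y2 p b P Q hMP hMQ hPQ, ys_dz p b P Q hMP hMQ hPQ]
  unfold yf
  have key : ∀ s : St, 2 * (((if s = St.two then 1 else 0 : ℕ)) : ℤ) +
      ((if s = St.free then 1 else 0 : ℕ) : ℤ) = 1 - sval s := by
    intro s
    cases s <;> simp [sval]
  have key2 : ∀ s : St, s ≠ St.free → 2 * (((if s = St.two then 1 else 0 : ℕ)) : ℤ) =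
      1 - sval s := by
    intro s hs
    have := key s
    rw [if_neg hs] at this
    simpa using this
  have h1 : 2 * ∑ c : C, (((if col p c b = St.two then 1 else 0 : ℕ)) : ℤ) +
      ∑ c : C, (((if col p c b = St.free then 1 else 0 : ℕ)) : ℤ) =
      Fintype.card C - ∑ c, sval (col p c b) := by
    rw [Finset.mul_sum, ← Finset.sum_add_distrib, Finset.sum_congr rfl (fun c _ => key (col p c b)),
      Finset.sum_sub_distrib, Finset.sum_const, Finset.card_univ, nsmul_eq_mul, mul_one]
  have h2 := key2 _ (hI P)
  have h3 := key2 _ (hI Q)
  rw [Nat.cast_add, Nat.cast_add, Nat.cast_sum, Nat.cast_sum]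
  linarith

/-- the effect of a move -/
theorem ys_upd (p : Y C → St) (c : C) (i : Fin 3) (s : St) (b : Fin 3) :
    dz (Function.update p (Sum.inl (c, i)) s) b =
      dz p b + (if i = b then sval s - sval (p (Sum.inl (c, i))) else 0) := by
  have hit : itn (Function.update p (Sum.inl (c, i)) s) = itn p := by
    funext j
    unfold itn
    rw [Function.update_of_ne (by simp)]
  unfold dz
  rw [hit]
  have hcol : ∀ x : C, x ≠ c → col (Function.update p (Sum.inl (c, i)) s) x b = col p x b := by
    intro x hx
    unfold col
    rw [Function.update_of_ne]
    intro h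
    rw [Sum.inl.injEq, Prod.mk.injEq] at h
    exact hx h.1
  have h1 : ∑ x, sval (col (Function.update p (Sum.inl (c, i)) s) x b) =
      ∑ x, sval (col p x b) + (if i = b then sval s - sval (p (Sum.inl (c, i))) else 0) := by
    rw [← Finset.add_sum_erase Finset.univ _ (Finset.mem_univ c),
      ← Finset.add_sum_erase Finset.univ (fun x => sval (col p x b)) (Finset.mem_univ c),
      Finset.sum_congr rfl (fun x hx => by rw [hcol x (Finset.ne_of_mem_erase hx)])]
    have h2 : sval (col (Function.update p (Sum.inl (c, i)) s) c b) =
        sval (col p c b) + (if i = b then sval s - sval (p (Sum.inl (c, i))) else 0) := by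
      unfold col
      by_cases hi : i = b
      · rw [if_pos hi, hi, Function.update_self]
        ring
      · rw [if_neg hi, Function.update_of_ne]
        · ring
        · intro h
          rw [Sum.inl.injEq, Prod.mk.injEq] at h
          exact hi h.2.symm
    rw [h2]
    ring
  rw [h1]
  ring

/-- application of `tlemma` -/
theorem ys_t (p : Y C → St) (hI : ∀ i, itn p i ≠ St.free)
    (hc : ∀ c, safe (col p c) = true ∨ fresh (col p c) = true)
    (M P Q : Fin 3) (hMP : M ≠ P) (hMQ : M ≠ Q) (hPQ : P ≠ Q)
    (dM : dz p M ≤ 2) (dPQ : dz p P + dz p Q ≤ 0) : W TB (fc p) true p := by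
  have cM := ys_count p hI M
  have cP := ys_count p hI P
  have cQ := ys_count p hI Q
  have yM := ys_y2 p M P Q hMP hMQ hPQ
  have yP := ys_y2 p P M Q (Ne.symm hMP) hPQ hMQ
  have yQ := ys_y2 p Q M P (Ne.symm hMQ) (Ne.symm hPQ) hMP
  have iP' := hI P
  have iQ' := hI Q
  have iM' := hI M
  -- the columns
  have w1 : ∑ c, wTM M (col p c) = ∑ c : C, (if col p c M = St.two then 1 else 0) := rfl
  have w2 : ∑ c, wFM M (col p c) = yf p M := by
    unfold yf wFM
    apply Finset.sum_congr rfl
    intro c _
    have := hc c
    simp only [this, and_true]
  have w3 : ∑ c, wTP M (col p c) = ∑ c : C, (if col p c P = St.two then 1 else 0) +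
      ∑ c : C, (if col p c Q = St.two then 1 else 0) := by
    rw [← Finset.sum_add_distrib]
    apply Finset.sum_congr rfl
    intro c _
    exact yt_nofO M P Q hMP hMQ hPQ _ _
  have w4 : 2 * ∑ c, wC M (col p c) + ∑ c, wFP M (col p c) = yf p P + yf p Q := by
    unfold yf
    rw [Finset.mul_sum, ← Finset.sum_add_distrib, ← Finset.sum_add_distrib]
    apply Finset.sum_congr rfl
    intro c _
    have h := hc c
    unfold wC wFP
    unfold safe fresh at *
    rw [yt_nofO M P Q hMP hMQ hPQ]
    rw [yt_nof M P Q hMP hMQ hPQ, yt_nof M P Q hMP hMQ hPQ] at h
    rw [yt_nof M P Q hMP hMQ hPQ]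
    clear cM cP cQ yM yP yQ w1 w2 w3
    revert h
    generalize col p c M = a
    generalize col p c P = b
    generalize col p c Q = d
    intro h
    cases a <;> cases b <;> cases d <;> simp at h ⊢
  have w5 : iM M (itn p) = (if itn p P = St.two then 1 else 0) + (if itn p Q = St.two then 1 else 0) := by
    unfold iM
    rw [yt_nofO M P Q hMP hMQ hPQ, yt_nofO M P Q hMP hMQ hPQ, if_neg iP', if_neg iQ']
    simp
  have w6 : iP M (itn p) = 2 * (if itn p M = St.two then 1 else 0) +
      ((if itn p P = St.two then 1 else 0) + (if itn p Q = St.two then 1 else 0)) := by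
    unfold iP
    rw [yt_nofO M P Q hMP hMQ hPQ, yt_nofO M P Q hMP hMQ hPQ, if_neg iP', if_neg iQ']
    simp
  have w7 : okI M (itn p) = true := by
    unfold okI
    rw [yt_nof M P Q hMP hMQ hPQ, if_neg iM', if_neg iP', if_neg iQ']
    simp
  apply tlemma p M w7
  · intro c
    unfold okc
    rcases hc c with h | h
    · rw [h]
      rfl
    · have h2 : nof St.one (col p c) ≤ 1 := by
        unfold fresh at h
        rw [yt_nof M P Q hMP hMQ hPQ] at h ⊢
        clear cM cP cQ yM yP yQ w1 w2 w3
        revert h
        generalize col p c M = a
        generalize col p c P = b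
        generalize col p c Q = d
        intro h
        cases a <;> cases b <;> cases d <;> simp at h ⊢
      simp [h2]
  · rw [w1, w2, w5]
    omega
  · rw [w3, w6]
    omega

theorem ys_answer {T : (Y C → St) → Prop} {k : ℕ} {p : Y C → St} (hk : fc p = k) (e : Y C)
    (he : p e = St.free) (h : W T (fc (Function.update p e St.two)) true (Function.update p e St.two)) :
    W T k false p := by
  have h1 := fc_update (s := St.two) he (by decide)
  obtain ⟨m, hm⟩ : ∃ m, k = m + 1 := ⟨fc (Function.update p e St.two), by omega⟩
  rw [hm]
  refine ⟨e, he, ?_⟩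
  have h2 : fc (Function.update p e St.two) = m := by omega
  rw [← h2]
  exact h

omit [Fintype C] in
/-- the columns after a pair of moves -/
theorem ys_col (p : Y C → St) (hc : ∀ c, safe (col p c) = true ∨ fresh (col p c) = true)
    (c c' : C) (i i' : Fin 3) (he : p (Sum.inl (c, i)) = St.free)
    (hcc : c' = c ∨ safe (col p c) = true) :
    ∀ x, safe (col (Function.update (Function.update p (Sum.inl (c, i)) St.one)
        (Sum.inl (c', i')) St.two) x) = true ∨
      fresh (col (Function.update (Function.update p (Sum.inl (c, i)) St.one)
        (Sum.inl (c', i')) St.two) x) = true := by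
  intro x
  by_cases hx : x = c'
  · left
    rw [ys_safe]
    refine ⟨i', ?_⟩
    unfold col
    rw [hx, Function.update_self]
  · have h1 : col (Function.update (Function.update p (Sum.inl (c, i)) St.one)
        (Sum.inl (c', i')) St.two) x = col (Function.update p (Sum.inl (c, i)) St.one) x := by
      funext j
      unfold col
      rw [Function.update_of_ne]
      intro h
      rw [Sum.inl.injEq, Prod.mk.injEq] at h
      exact hx h.1
    rw [h1]
    by_cases hxc : x = c
    · left
      rcases hcc with h | h
      · exact absurd (hxc.trans h.symm) hx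
      · rw [ys_safe] at h ⊢
        obtain ⟨j, hj⟩ := h
        refine ⟨j, ?_⟩
        unfold col at hj ⊢
        rw [hxc, Function.update_of_ne]
        · exact hj
        · intro h2
          rw [h2, he] at hj
          exact absurd hj (by decide)
    · have h2 : col (Function.update p (Sum.inl (c, i)) St.one) x = col p x := by
        funext j
        unfold col
        rw [Function.update_of_ne]
        intro h
        rw [Sum.inl.injEq, Prod.mk.injEq] at h
        exact hxc h.1
      rw [h2]
      exact hc x

omit [Fintype C] in
theorem ys_itn (p : Y C → St) (x y : C × Fin 3) (s s' : St) :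
    itn (Function.update (Function.update p (Sum.inl x) s) (Sum.inl y) s') = itn p := by
  funext j
  unfold itn
  rw [Function.update_of_ne (by simp), Function.update_of_ne (by simp)]

omit [DecidableEq C] in
theorem ys_yf {p : Y C → St} {b : Fin 3} (h : 1 ≤ yf p b) :
    ∃ c, p (Sum.inl (c, b)) = St.free := by
  by_contra hno
  push Not at hno
  have h0 : yf p b = 0 := by
    unfold yf
    apply Finset.sum_eq_zero
    intro c _
    exact if_neg (hno c)
  omega

omit [Fintype C] [DecidableEq C] in
theorem ys_fresh {p : Y C → St} {c : C} (h : fresh (col p c) = true) (b : Fin 3) :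
    p (Sum.inl (c, b)) = St.free := by
  obtain ⟨P, Q, hMP, hMQ, hPQ⟩ := yt_rows b
  unfold fresh at h
  rw [yt_nof b P Q hMP hMQ hPQ, decide_eq_true_iff] at h
  by_contra hne
  have h1 : ¬ (col p c b = St.free) := hne
  rw [if_neg h1] at h
  split_ifs at h <;> omega

theorem ys_AB (p : Y C → St) (hI : ∀ i, itn p i ≠ St.free)
    (hc : ∀ c, safe (col p c) = true ∨ fresh (col p c) = true)
    (A B D : Fin 3) (hAB : A ≠ B) (hAD : A ≠ D) (hBD : B ≠ D)
    (dA : dz p A = 1) (dB : dz p B = 1) (dD : dz p D = 0) (k : ℕ) (hk : fc p = k + 1) (c : C)
    (he : p (Sum.inl (c, A)) = St.free) :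
    W TB k false (Function.update p (Sum.inl (c, A)) St.one) := by
  have hf := fc_update (s := St.one) he (by decide)
  have hk' : fc (Function.update p (Sum.inl (c, A)) St.one) = k := by omega
  have d1 : ∀ b, dz (Function.update p (Sum.inl (c, A)) St.one) b =
      dz p b + (if A = b then 1 else 0) := by
    intro b
    rw [ys_upd, he]
    simp [sval]
  obtain ⟨c', i', hi', hcc, hfree⟩ : ∃ (c' : C) (i' : Fin 3), (i' = B ∨ i' = D) ∧
      (c' = c ∨ safe (col p c) = true) ∧
      Function.update p (Sum.inl (c, A)) St.one (Sum.inl (c', i')) = St.free := by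
    rcases hc c with h | h
    · have cB := ys_count p hI B
      have cD := ys_count p hI D
      rw [dB] at cB
      rw [dD] at cD
      have hor : 1 ≤ yf p B ∨ 1 ≤ yf p D := by omega
      rcases hor with h1 | h1
      · obtain ⟨c', hc'⟩ := ys_yf h1
        refine ⟨c', B, Or.inl rfl, Or.inr h, ?_⟩
        rw [Function.update_of_ne]
        · exact hc'
        · intro h2
          rw [Sum.inl.injEq, Prod.mk.injEq] at h2
          exact hAB h2.2.symm
      · obtain ⟨c', hc'⟩ := ys_yf h1
        refine ⟨c', D, Or.inr rfl, Or.inr h, ?_⟩
        rw [Function.update_of_ne]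
        · exact hc'
        · intro h2
          rw [Sum.inl.injEq, Prod.mk.injEq] at h2
          exact hAD h2.2.symm
    · refine ⟨c, B, Or.inl rfl, Or.inl rfl, ?_⟩
      rw [Function.update_of_ne]
      · exact ys_fresh h B
      · intro h2
        rw [Sum.inl.injEq, Prod.mk.injEq] at h2
        exact hAB h2.2.symm
  have d2 : ∀ b, dz (Function.update (Function.update p (Sum.inl (c, A)) St.one)
      (Sum.inl (c', i')) St.two) b = dz p b + (if A = b then 1 else 0) + (if i' = b then -1 else 0) := by
    intro b
    rw [ys_upd, hfree, d1]
    simp [sval]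
  apply ys_answer hk' (Sum.inl (c', i')) hfree
  apply ys_t _ _ (ys_col p hc c c' A i' he hcc) A B D hAB hAD hBD
  · rw [d2, dA, if_pos rfl, if_neg]
    · norm_num
    · rcases hi' with h | h
      · rw [h]
        exact Ne.symm hAB
      · rw [h]
        exact Ne.symm hAD
  · rw [d2, d2, dB, dD, if_neg hAB, if_neg hAD]
    rcases hi' with h | h
    · rw [h, if_pos rfl, if_neg hBD]
      norm_num
    · rw [h, if_pos rfl, if_neg (Ne.symm hBD)]
      norm_num
  · rw [ys_itn]
    exact hI

omit [DecidableEq C] in
theorem ys_end (p : Y C → St) (hI : ∀ i, itn p i ≠ St.free)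
    (hc : ∀ c, safe (col p c) = true ∨ fresh (col p c) = true)
    (h0 : fc p = 0) (hd : ∀ b, dz p b = 1) : TB p := by
  have hcomp : ∀ e, p e ≠ St.free := by
    intro e he
    unfold fc at h0
    rw [Finset.card_eq_zero, Finset.filter_eq_empty_iff] at h0
    exact h0 (Finset.mem_univ e) he
  refine ⟨hcomp, ?_, ?_⟩
  · intro c
    rcases hc c with h | h
    · exact (ys_safe _).1 h
    · exact absurd (ys_fresh h 0) (hcomp _)
  · intro b
    left
    have h1 := ys_count p hI b
    rw [hd b] at h1
    have h2 : yf p b = 0 := by
      by_contra hne
      obtain ⟨c, hc'⟩ := ys_yf (show 1 ≤ yf p b by omega)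
      exact hcomp _ hc'
    omega

theorem ys_main : ∀ (m : ℕ) (p : Y C → St), fc p = m → (∀ i, itn p i ≠ St.free) →
    (∀ c, safe (col p c) = true ∨ fresh (col p c) = true) →
    ∀ (A B D : Fin 3), A ≠ B → A ≠ D → B ≠ D →
    dz p A = 1 → dz p B = 1 → dz p D = 0 → W TB (fc p) true p := by
  intro m
  induction m using Nat.strong_induction_on with
  | _ m ih =>
    intro p hm hI hc A B D hAB hAD hBD dA dB dD
    rw [hm]
    rcases m with _ | k
    · exfalso
      have cA := ys_count p hI A
      have cD := ys_count p hI D
      rw [dA] at cA
      rw [dD] at cD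
      have hcomp : ∀ e, p e ≠ St.free := by
        intro e he
        unfold fc at hm
        rw [Finset.card_eq_zero, Finset.filter_eq_empty_iff] at hm
        exact hm (Finset.mem_univ e) he
      have hz : ∀ b, yf p b = 0 := by
        intro b
        by_contra hne
        obtain ⟨c, hc'⟩ := ys_yf (show 1 ≤ yf p b by omega)
        exact hcomp _ hc'
      have zA := hz A
      have zD := hz D
      omega
    · rintro (⟨c, i⟩ | j) he
      swap
      · exact absurd he (hI j)
      have hi : i ∈ (Finset.univ : Finset (Fin 3)) := Finset.mem_univ i
      rw [yt_univ A B D hAB hAD hBD, Finset.mem_insert, Finset.mem_insert,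
        Finset.mem_singleton] at hi
      rcases hi with rfl | rfl | rfl
      · exact ys_AB p hI hc i B D hAB hAD hBD dA dB dD k hm c he
      · exact ys_AB p hI hc i A D (Ne.symm hAB) hBD hAD dB dA dD k hm c he
      · have hf := fc_update (s := St.one) he (by decide)
        have hk' : fc (Function.update p (Sum.inl (c, i)) St.one) = k := by omega
        have d1 : ∀ b, dz (Function.update p (Sum.inl (c, i)) St.one) b =
            dz p b + (if i = b then 1 else 0) := by
          intro b
          rw [ys_upd, he]
          simp [sval]
        have hI1 : itn (Function.update p (Sum.inl (c, i)) St.one) = itn p := by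
          funext j
          unfold itn
          rw [Function.update_of_ne (by simp)]
        -- the answer `(c', i')`
        have hans : ∀ (c' : C) (i' : Fin 3), (c' = c ∨ safe (col p c) = true) →
            Function.update p (Sum.inl (c, i)) St.one (Sum.inl (c', i')) = St.free →
            W TB k false (Function.update p (Sum.inl (c, i)) St.one) := by
          intro c' i' hcc hfree
          have hf2 := fc_update (s := St.two) hfree (by decide)
          have d2 : ∀ b, dz (Function.update (Function.update p (Sum.inl (c, i)) St.one)
              (Sum.inl (c', i')) St.two) b =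
              dz p b + (if i = b then 1 else 0) + (if i' = b then -1 else 0) := by
            intro b
            rw [ys_upd, hfree, d1]
            simp [sval]
          apply ys_answer hk' (Sum.inl (c', i')) hfree
          have hi' : i' ∈ (Finset.univ : Finset (Fin 3)) := Finset.mem_univ i'
          rw [yt_univ A B i hAB hAD hBD, Finset.mem_insert, Finset.mem_insert,
            Finset.mem_singleton] at hi'
          have hcol := ys_col p hc c c' i i' he hcc
          have hIt : ∀ j, itn (Function.update (Function.update p (Sum.inl (c, i)) St.one)
              (Sum.inl (c', i')) St.two) j ≠ St.free := by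
            rw [ys_itn]
            exact hI
          have n1 : ¬ i = A := Ne.symm hAD
          have n2 : ¬ i = B := Ne.symm hBD
          have n3 : ¬ B = A := Ne.symm hAB
          rcases hi' with rfl | rfl | rfl
          · refine ih _ (by omega) _ rfl hIt hcol B i i' hBD (Ne.symm hAB) n1 ?_ ?_ ?_
            · rw [d2, dB, if_neg n2, if_neg hAB]
              norm_num
            · rw [d2, dD, if_pos rfl, if_neg hAD]
              norm_num
            · rw [d2, dA, if_neg n1, if_pos rfl]
              norm_num
          · refine ih _ (by omega) _ rfl hIt hcol A i i' hAD hAB n2 ?_ ?_ ?_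
            · rw [d2, dA, if_neg n1, if_neg n3]
              norm_num
            · rw [d2, dD, if_pos rfl, if_neg hBD]
              norm_num
            · rw [d2, dB, if_neg n2, if_pos rfl]
              norm_num
          · refine ih _ (by omega) _ rfl hIt hcol A B i' hAB hAD hBD ?_ ?_ ?_
            · rw [d2, dA, if_neg n1, if_neg n1]
              norm_num
            · rw [d2, dB, if_neg n2, if_neg n2]
              norm_num
            · rw [d2, dD, if_pos rfl]
              norm_num
        rcases hc c with hs | hfr
        · by_cases hk0 : k = 0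
          · rw [hk0]
            show TB _
            apply ys_end
            · rw [hI1]
              exact hI
            · intro x
              by_cases hxc : x = c
              · left
                rw [ys_safe] at hs ⊢
                obtain ⟨j, hj⟩ := hs
                refine ⟨j, ?_⟩
                unfold col at hj ⊢
                rw [hxc, Function.update_of_ne]
                · exact hj
                · intro h2
                  rw [h2, he] at hj
                  exact absurd hj (by decide)
              · have h2 : col (Function.update p (Sum.inl (c, i)) St.one) x = col p x := by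
                  funext j
                  unfold col
                  rw [Function.update_of_ne]
                  intro h
                  rw [Sum.inl.injEq, Prod.mk.injEq] at h
                  exact hxc h.1
                rw [h2]
                exact hc x
            · rw [hk', hk0]
            · intro b
              rw [d1]
              have hb : b ∈ (Finset.univ : Finset (Fin 3)) := Finset.mem_univ b
              rw [yt_univ A B i hAB hAD hBD, Finset.mem_insert, Finset.mem_insert,
                Finset.mem_singleton] at hb
              rcases hb with rfl | rfl | rfl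
              · rw [dA, if_neg (Ne.symm hAD)]
                norm_num
              · rw [dB, if_neg (Ne.symm hBD)]
                norm_num
              · rw [dD, if_pos rfl]
                norm_num
          · have hpos : 0 < fc (Function.update p (Sum.inl (c, i)) St.one) := by omega
            unfold fc at hpos
            obtain ⟨e2, he2'⟩ := Finset.card_pos.1 hpos
            have he2 := (Finset.mem_filter.1 he2').2
            rcases e2 with ⟨c', i'⟩ | j
            · exact hans c' i' (Or.inr hs) he2
            · rw [Function.update_of_ne (by simp)] at he2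
              exact absurd he2 (hI j)
        · refine hans c A (Or.inl rfl) ?_
          rw [Function.update_of_ne]
          · exact ys_fresh hfr A
          · intro h
            rw [Sum.inl.injEq, Prod.mk.injEq] at h
            exact hAD h.2

end

theorem slemma {C : Type*} [Fintype C] [DecidableEq C] (p : Y C → St)
    (hI : ∀ i, itn p i ≠ St.free)
    (hc : ∀ c, safe (col p c) = true ∨ fresh (col p c) = true)
    (A B D : Fin 3) (hAB : A ≠ B) (hAD : A ≠ D) (hBD : B ≠ D)
    (dA : dz p A = 1) (dB : dz p B = 1) (dD : dz p D = 0) :
    W TB (fc p) true p :=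
  ys_main (fc p) p rfl hI hc A B D hAB hAD hBD dA dB dD

end Pool.Agent.H34.ST
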