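import Pool.Agent.H34.ST.YDef
import Pool.Agent.H34.ST.Ext
import Pool.Agent.H34.ST.Blocks

/-!
# [H34 ST YT] static positions: Player 2 answers in the same block

`M` is the middle row, `P, Q` the two others.  Blocks (`ι = Fin 3 ⊕ C`):
* `Sum.inr i` (edges between the extra vertices): block `inl 2`;
* `(c, i)` with `col p c` safe: `inl 0` if `i = M`, `inl 1` if `i ≠ M`;
* `(c, i)` with `col p c` fresh: `inl 0` if `i = M`, `inr c` if `i ≠ M`;
* `(c, i)` with exactly one edge of the column taken (by Player 1), at `M`: `inl 0` if `i = M`,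
  `inr c` otherwise; at a row `≠ M`: `inr c` for all `i`.
Apply `W_extends` to `W_blocks` (thresholds `c j` = the right hand side), and show that every
complete position `q` extending `p` with these block counts satisfies `TB`:
* columns: a safe column has an edge of Player 2 in `p`; the block `inr c` of every other column
  has two free edges in `p`, so at least one edge of Player 2 in `q`;
* `y2 q M ≥ ∑ wTM + (∑ wFM) / 2 + iM` (block `inl 0`; if both edges `i ≠ M` are free in `p`, they
  form the free part of the block `inl 2` and Player 2 gets one of them, it contains `M`);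
* `y2 q P + y2 q Q ≥ ∑ wC + ∑ wTP + (∑ wFP) / 2 + iP` (blocks `inr c` of the fresh columns and of the
  columns taken at `M`: they only contain edges at `P, Q`; block `inl 1`; the edge `M` between `P`
  and `Q` counts twice).
Then `TB` follows: for `b = M` from `h1`, for `b = P, Q` from `h2` (`b'` the other one).
-/

namespace Pool.Agent.H34.ST

theorem yt_rows (M : Fin 3) : ∃ P Q : Fin 3, M ≠ P ∧ M ≠ Q ∧ P ≠ Q := by
  revert M
  decide

theorem yt_univ (M P Q : Fin 3) (h1 : M ≠ P) (h2 : M ≠ Q) (h3 : P ≠ Q) :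
    (Finset.univ : Finset (Fin 3)) = {M, P, Q} := by
  revert M P Q
  decide

theorem yt_sum (M P Q : Fin 3) (h1 : M ≠ P) (h2 : M ≠ Q) (h3 : P ≠ Q) (f : Fin 3 → ℕ) :
    ∑ i, f i = f M + f P + f Q := by
  rw [yt_univ M P Q h1 h2 h3, Finset.sum_insert (by simp [h1, h2]), Finset.sum_pair h3, add_assoc]

theorem yt_nof (M P Q : Fin 3) (h1 : M ≠ P) (h2 : M ≠ Q) (h3 : P ≠ Q) (s : St) (τ : Fin 3 → St) :
    nof s τ = (if τ M = s then 1 else 0) + (if τ P = s then 1 else 0) +
      (if τ Q = s then 1 else 0) := by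
  rw [← yt_sum M P Q h1 h2 h3 (fun i => if τ i = s then 1 else 0), Fin.sum_univ_three]
  rfl

theorem yt_nofO (M P Q : Fin 3) (h1 : M ≠ P) (h2 : M ≠ Q) (h3 : P ≠ Q) (s : St)
    (τ : Fin 3 → St) :
    nofO s M τ = (if τ P = s then 1 else 0) + (if τ Q = s then 1 else 0) := by
  unfold nofO
  rw [yt_nof M P Q h1 h2 h3]
  omega

/-- the blocks -/
def ytb {C : Type*} (p : Y C → St) (M : Fin 3) : Y C → Fin 3 ⊕ C
  | Sum.inr _ => Sum.inl 2
  | Sum.inl (c, i) =>
    if i = M then
      (if safe (fun i => p (Sum.inl (c, i))) = true ∨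
        nofO St.free M (fun i => p (Sum.inl (c, i))) = 2 then Sum.inl 0 else Sum.inr c)
    else (if safe (fun i => p (Sum.inl (c, i))) = true then Sum.inl 1 else Sum.inr c)

theorem yt_card {C : Type*} [Fintype C] [DecidableEq C] (p : Y C → St) (M P Q : Fin 3)
    (h1 : M ≠ P) (h2 : M ≠ Q) (h3 : P ≠ Q) (r : Y C → St) (s : St) (j : Fin 3 ⊕ C) :
    (Finset.univ.filter (fun e => ytb p M e = j ∧ r e = s)).card =
      ∑ c : C, ((if (if safe (col p c) = true ∨ nofO St.free M (col p c) = 2 then
          (Sum.inl 0 : Fin 3 ⊕ C) else Sum.inr c) = j ∧ r (Sum.inl (c, M)) = s then 1 else 0) +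
        (if (if safe (col p c) = true then (Sum.inl 1 : Fin 3 ⊕ C) else Sum.inr c) = j ∧
          r (Sum.inl (c, P)) = s then 1 else 0) +
        (if (if safe (col p c) = true then (Sum.inl 1 : Fin 3 ⊕ C) else Sum.inr c) = j ∧
          r (Sum.inl (c, Q)) = s then 1 else 0)) +
      ((if (Sum.inl 2 : Fin 3 ⊕ C) = j ∧ r (Sum.inr M) = s then 1 else 0) +
        (if (Sum.inl 2 : Fin 3 ⊕ C) = j ∧ r (Sum.inr P) = s then 1 else 0) +
        (if (Sum.inl 2 : Fin 3 ⊕ C) = j ∧ r (Sum.inr Q) = s then 1 else 0)) := by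
  rw [Finset.card_filter, Fintype.sum_sum_type, Fintype.sum_prod_type]
  congr 1
  · apply Finset.sum_congr rfl
    intro c _
    rw [yt_sum M P Q h1 h2 h3]
    have e1 : ytb p M (Sum.inl (c, M)) = if safe (col p c) = true ∨ nofO St.free M (col p c) = 2 then
          (Sum.inl 0 : Fin 3 ⊕ C) else Sum.inr c := by
      show (if M = M then _ else _) = _
      rw [if_pos rfl]
      rfl
    have e2 : ∀ i, M ≠ i → ytb p M (Sum.inl (c, i)) =
        if safe (col p c) = true then (Sum.inl 1 : Fin 3 ⊕ C) else Sum.inr c := by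
      intro i hi
      show (if i = M then _ else _) = _
      rw [if_neg (Ne.symm hi)]
      rfl
    rw [e1, e2 P h1, e2 Q h2]
  · rw [yt_sum M P Q h1 h2 h3]
    rfl

theorem yt_ite {C : Type*} (A : Prop) [Decidable A] (a b : Fin 3) (c : C) :
    ((if A then (Sum.inl a : Fin 3 ⊕ C) else Sum.inr c) = Sum.inl b) ↔ (A ∧ a = b) := by
  split_ifs with h
  · simp [h]
  · simp [h]

theorem yt_itr {C : Type*} (A : Prop) [Decidable A] (a : Fin 3) (c c0 : C) :
    ((if A then (Sum.inl a : Fin 3 ⊕ C) else Sum.inr c) = Sum.inr c0) ↔ (¬ A ∧ c = c0) := by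
  split_ifs with h
  · simp [h]
  · simp [h]

section
variable {C : Type*} [Fintype C] [DecidableEq C] (p : Y C → St) (M P Q : Fin 3)
    (h1 : M ≠ P) (h2 : M ≠ Q) (h3 : P ≠ Q) (r : Y C → St) (s : St)
include h1 h2 h3

theorem yt_card0 :
    (Finset.univ.filter (fun e => ytb p M e = Sum.inl 0 ∧ r e = s)).card =
      ∑ c : C, (if (safe (col p c) = true ∨ nofO St.free M (col p c) = 2) ∧
        r (Sum.inl (c, M)) = s then 1 else 0) := by
  rw [yt_card p M P Q h1 h2 h3]
  simp only [yt_ite, Sum.inl.injEq, Fin.reduceEq, and_false, false_and, if_false, Nat.add_zero,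
    and_true]

theorem yt_card1 :
    (Finset.univ.filter (fun e => ytb p M e = Sum.inl 1 ∧ r e = s)).card =
      ∑ c : C, ((if safe (col p c) = true ∧ r (Sum.inl (c, P)) = s then 1 else 0) +
        (if safe (col p c) = true ∧ r (Sum.inl (c, Q)) = s then 1 else 0)) := by
  rw [yt_card p M P Q h1 h2 h3]
  simp only [yt_ite, Sum.inl.injEq, Fin.reduceEq, and_false, false_and, if_false, Nat.add_zero,
    Nat.zero_add, and_true]

theorem yt_card2 :
    (Finset.univ.filter (fun e => ytb p M e = Sum.inl 2 ∧ r e = s)).card =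
      (if r (Sum.inr M) = s then 1 else 0) + (if r (Sum.inr P) = s then 1 else 0) +
        (if r (Sum.inr Q) = s then 1 else 0) := by
  rw [yt_card p M P Q h1 h2 h3]
  simp only [yt_ite, Fin.reduceEq, and_false, false_and, if_false, Nat.add_zero,
    Nat.zero_add, Finset.sum_const_zero, true_and]

theorem yt_cardc (c0 : C) :
    (Finset.univ.filter (fun e => ytb p M e = Sum.inr c0 ∧ r e = s)).card =
      (if ¬ (safe (col p c0) = true ∨ nofO St.free M (col p c0) = 2) ∧
        r (Sum.inl (c0, M)) = s then 1 else 0) +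
      (if ¬ safe (col p c0) = true ∧ r (Sum.inl (c0, P)) = s then 1 else 0) +
      (if ¬ safe (col p c0) = true ∧ r (Sum.inl (c0, Q)) = s then 1 else 0) := by
  rw [yt_card p M P Q h1 h2 h3]
  simp only [yt_itr, reduceCtorEq, false_and, if_false, Nat.add_zero]
  rw [Finset.sum_eq_single c0]
  · simp only [and_true]
  · intro c _ hc
    simp only [hc, and_false, false_and, if_false, Nat.add_zero]
  · intro h
    exact absurd (Finset.mem_univ c0) h

end

theorem yt_w (M P Q : Fin 3) (h1 : M ≠ P) (h2 : M ≠ Q) (h3 : P ≠ Q) (τ : Fin 3 → St) :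
    (if (safe τ = true ∨ nofO St.free M τ = 2) ∧ τ M = St.two then 1 else 0) = wTM M τ ∧
    (if (safe τ = true ∨ nofO St.free M τ = 2) ∧ τ M = St.free then 1 else 0) = wFM M τ ∧
    (if safe τ = true ∧ τ P = St.two then 1 else 0) +
      (if safe τ = true ∧ τ Q = St.two then 1 else 0) = wTP M τ ∧
    (if safe τ = true ∧ τ P = St.free then 1 else 0) +
      (if safe τ = true ∧ τ Q = St.free then 1 else 0) = wFP M τ := by
  unfold wTM wFM wTP wFP fresh safe
  simp only [yt_nofO M P Q h1 h2 h3, yt_nof M P Q h1 h2 h3]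
  generalize τ M = a
  generalize τ P = b
  generalize τ Q = c
  cases a <;> cases b <;> cases c <;> simp

theorem tlemma {C : Type*} [Fintype C] [DecidableEq C] (p : Y C → St) (M : Fin 3)
    (hI : okI M (itn p) = true) (hc : ∀ c, okc (col p c) = true)
    (h1 : Fintype.card C / 2 ≤ ∑ c, wTM M (col p c) + (∑ c, wFM M (col p c)) / 2 + iM M (itn p))
    (h2 : Fintype.card C + 2 ≤ ∑ c, wC M (col p c) + ∑ c, wTP M (col p c)
      + (∑ c, wFP M (col p c)) / 2 + iP M (itn p)) :
    W TB (fc p) true p := by
  obtain ⟨P, Q, hMP, hMQ, hPQ⟩ := yt_rows M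
  have hW := W_extends (fc p) true p rfl (W_blocks (ytb p M) (fun j =>
    (Finset.univ.filter (fun e => ytb p M e = j ∧ p e = St.two)).card +
      (Finset.univ.filter (fun e => ytb p M e = j ∧ p e = St.free)).card / 2) (fc p) p rfl
    (fun j => le_rfl))
  refine W_mono ?_ (fc p) true p hW
  rintro q ⟨hq, hext, hcomp⟩
  have q0 := hq (Sum.inl 0)
  have q1 := hq (Sum.inl 1)
  have q2 := hq (Sum.inl 2)
  have qc := fun c => hq (Sum.inr c)
  simp only [yt_card0 p M P Q hMP hMQ hPQ] at q0
  simp only [yt_card1 p M P Q hMP hMQ hPQ] at q1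
  simp only [yt_card2 p M P Q hMP hMQ hPQ] at q2
  simp only [yt_cardc p M P Q hMP hMQ hPQ] at qc
  have hw := fun c => yt_w M P Q hMP hMQ hPQ (col p c)
  -- block 0
  have r0 : ∑ c, wTM M (col p c) + (∑ c, wFM M (col p c)) / 2 ≤
      ∑ c : C, (if q (Sum.inl (c, M)) = St.two then 1 else 0) := by
    have e1 : ∑ c, wTM M (col p c) = ∑ c : C, (if (safe (col p c) = true ∨
        nofO St.free M (col p c) = 2) ∧ p (Sum.inl (c, M)) = St.two then 1 else 0) :=
      Finset.sum_congr rfl fun c _ => (hw c).1.symm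
    have e2 : ∑ c, wFM M (col p c) = ∑ c : C, (if (safe (col p c) = true ∨
        nofO St.free M (col p c) = 2) ∧ p (Sum.inl (c, M)) = St.free then 1 else 0) :=
      Finset.sum_congr rfl fun c _ => (hw c).2.1.symm
    rw [e1, e2]
    refine q0.trans (Finset.sum_le_sum fun c _ => ?_)
    by_cases h : q (Sum.inl (c, M)) = St.two
    · rw [if_pos h]
      split_ifs <;> omega
    · rw [if_neg h, if_neg (fun h' => h h'.2)]
  -- the blocks of the columns
  have rc : ∀ c, wC M (col p c) + (if safe (col p c) = true ∧ q (Sum.inl (c, P)) = St.two then 1 else 0) +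
      (if safe (col p c) = true ∧ q (Sum.inl (c, Q)) = St.two then 1 else 0) ≤
      (if q (Sum.inl (c, P)) = St.two then 1 else 0) +
        (if q (Sum.inl (c, Q)) = St.two then 1 else 0) := by
    intro c
    have h := qc c
    unfold wC
    have en := yt_nofO M P Q hMP hMQ hPQ St.free (col p c)
    have eP : col p c P = p (Sum.inl (c, P)) := rfl
    have eQ : col p c Q = p (Sum.inl (c, Q)) := rfl
    rw [eP, eQ] at en
    by_cases hs : safe (col p c) = true
    · simp [hs]
    · rw [Bool.not_eq_true] at hs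
      simp only [hs, Bool.false_eq_true, not_false_eq_true, true_and, false_or, false_and,
        if_false, Nat.add_zero] at h ⊢
      by_cases hn : nofO St.free M (col p c) = 2
      · rw [if_pos hn]
        simp only [hn, not_true_eq_false, false_and, if_false, Nat.zero_add] at h
        have : (if p (Sum.inl (c, P)) = St.free then 1 else 0) +
          (if p (Sum.inl (c, Q)) = St.free then 1 else 0) = 2 := by rw [← en, hn]
        omega
      · rw [if_neg hn]
        omega
  have r1 : ∑ c, wC M (col p c) + ∑ c, wTP M (col p c) + (∑ c, wFP M (col p c)) / 2 ≤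
      ∑ c : C, ((if q (Sum.inl (c, P)) = St.two then 1 else 0) +
        (if q (Sum.inl (c, Q)) = St.two then 1 else 0)) := by
    have e1 : ∑ c, wTP M (col p c) = ∑ c : C, ((if safe (col p c) = true ∧
        p (Sum.inl (c, P)) = St.two then 1 else 0) +
        (if safe (col p c) = true ∧ p (Sum.inl (c, Q)) = St.two then 1 else 0)) :=
      Finset.sum_congr rfl fun c _ => (hw c).2.2.1.symm
    have e2 : ∑ c, wFP M (col p c) = ∑ c : C, ((if safe (col p c) = true ∧
        p (Sum.inl (c, P)) = St.free then 1 else 0) +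
        (if safe (col p c) = true ∧ p (Sum.inl (c, Q)) = St.free then 1 else 0)) :=
      Finset.sum_congr rfl fun c _ => (hw c).2.2.2.symm
    have e3 := Finset.sum_le_sum (fun c (_ : c ∈ (Finset.univ : Finset C)) => rc c)
    rw [Finset.sum_add_distrib, Finset.sum_add_distrib] at e3
    rw [Finset.sum_add_distrib] at q1
    rw [e1, e2]
    rw [Finset.sum_add_distrib (f := fun c => if safe (col p c) = true ∧
      q (Sum.inl (c, P)) = St.two then 1 else 0)] at q1
    rw [Finset.sum_add_distrib (f := fun c => if safe (col p c) = true ∧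
      p (Sum.inl (c, P)) = St.two then 1 else 0)]
    omega
  -- the edges between the extra vertices
  have hIq : iM M (itn p) ≤ (if q (Sum.inr P) = St.two then 1 else 0) +
      (if q (Sum.inr Q) = St.two then 1 else 0) ∧
      iP M (itn p) ≤ 2 * (if q (Sum.inr M) = St.two then 1 else 0) +
        (if q (Sum.inr P) = St.two then 1 else 0) + (if q (Sum.inr Q) = St.two then 1 else 0) := by
    have eM := hext (Sum.inr M)
    have eP := hext (Sum.inr P)
    have eQ := hext (Sum.inr Q)
    have fM : itn p M = p (Sum.inr M) := rfl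
    have fP : itn p P = p (Sum.inr P) := rfl
    have fQ : itn p Q = p (Sum.inr Q) := rfl
    unfold iM iP
    unfold okI at hI
    rw [yt_nofO M P Q hMP hMQ hPQ, yt_nofO M P Q hMP hMQ hPQ]
    rw [yt_nofO M P Q hMP hMQ hPQ, yt_nof M P Q hMP hMQ hPQ] at hI
    rw [fM, fP, fQ] at hI ⊢
    clear hq q0 q1 qc hw r0 r1 rc
    revert q2 hI eM eP eQ
    generalize p (Sum.inr M) = a
    generalize p (Sum.inr P) = b
    generalize p (Sum.inr Q) = c
    generalize q (Sum.inr M) = a'
    generalize q (Sum.inr P) = b'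
    generalize q (Sum.inr Q) = c'
    intro hI q2 eM eP eQ
    cases a <;> cases b <;> cases c <;> simp at hI <;> simp at eM eP eQ <;>
      (first
        | (subst eM eP eQ; simp)
        | (subst eM; simp only [reduceCtorEq, if_true, if_false] at q2 ⊢; omega))
  have hy : ∀ b, y2 q b = ∑ c : C, (if q (Sum.inl (c, b)) = St.two then 1 else 0) +
      ((if M ≠ b ∧ q (Sum.inr M) = St.two then 1 else 0) +
        (if P ≠ b ∧ q (Sum.inr P) = St.two then 1 else 0) +
        (if Q ≠ b ∧ q (Sum.inr Q) = St.two then 1 else 0)) := by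
    intro b
    unfold y2
    rw [Finset.card_filter, Finset.card_filter, yt_sum M P Q hMP hMQ hPQ]
  have hyM := hy M
  have hyP := hy P
  have hyQ := hy Q
  simp only [ne_eq, not_true_eq_false, false_and, if_false, hMP, hMQ, hPQ, Ne.symm hMP,
    Ne.symm hMQ, Ne.symm hPQ, not_false_eq_true, true_and, Nat.add_zero, Nat.zero_add]
    at hyM hyP hyQ
  rw [Finset.sum_add_distrib] at r1
  refine ⟨hcomp, ?_, ?_⟩
  · intro c
    by_contra hno
    push Not at hno
    have hp : ∀ b, p (Sum.inl (c, b)) ≠ St.two := by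
      intro b hb
      have h3 := hext (Sum.inl (c, b)) (by rw [hb]; decide)
      exact hno b (by rw [h3, hb])
    have h := qc c
    have hcc := hc c
    unfold okc safe at hcc
    unfold safe at h
    rw [yt_nof M P Q hMP hMQ hPQ St.two, yt_nofO M P Q hMP hMQ hPQ] at h
    rw [yt_nof M P Q hMP hMQ hPQ, yt_nof M P Q hMP hMQ hPQ] at hcc
    have eM : col p c M = p (Sum.inl (c, M)) := rfl
    have eP : col p c P = p (Sum.inl (c, P)) := rfl
    have eQ : col p c Q = p (Sum.inl (c, Q)) := rfl
    rw [eM, eP, eQ] at h hcc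
    have n1 := hno M
    have n2 := hno P
    have n3 := hno Q
    have m1 := hp M
    have m2 := hp P
    have m3 := hp Q
    simp only [n1, n2, n3, m1, m2, m3, if_false, and_false] at h hcc
    clear hq q0 q1 q2 hw r0 r1 rc hW hext hcomp hyM hyP hyQ hy hno hp eM eP eQ h1 h2 hc hI qc
    revert h hcc m1 m2 m3
    generalize p (Sum.inl (c, M)) = a
    generalize p (Sum.inl (c, P)) = b
    generalize p (Sum.inl (c, Q)) = c'
    intro h hcc m1 m2 m3
    cases a <;> cases b <;> cases c' <;> simp at hcc h m1 m2 m3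
  · intro b
    have hb : b ∈ (Finset.univ : Finset (Fin 3)) := Finset.mem_univ b
    rw [yt_univ M P Q hMP hMQ hPQ, Finset.mem_insert, Finset.mem_insert,
      Finset.mem_singleton] at hb
    rcases hb with rfl | rfl | rfl
    · left
      omega
    · right
      refine ⟨Q, ?_⟩
      omega
    · right
      refine ⟨P, ?_⟩
      omega

end Pool.Agent.H34.ST
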